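import Pool.Agent.H191.Corona.Germ

/-!
The unit ball of `ℂ²`, its perturbations.
-/

set_option autoImplicit false

open MeasureTheory Metric Set Filter Topology Complex

namespace Pool.Agent.H191.Corona

open Pool.Agent.P157G

/-- the defining function of the unit ball of `ℂ²` -/
noncomputable def mB (x : ℂ × ℂ) : ℝ := ‖x.1‖ ^ 2 + ‖x.2‖ ^ 2 - 1

/-- the derivative of `mB` -/
noncomputable def dm (x : ℂ × ℂ) : ℂ × ℂ →L[ℝ] ℝ :=
  (2 : ℝ) • ((innerSL ℝ x.1).comp (ContinuousLinearMap.fst ℝ ℂ ℂ)) +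
    (2 : ℝ) • ((innerSL ℝ x.2).comp (ContinuousLinearMap.snd ℝ ℂ ℂ))

theorem mB_contDiff (n : WithTop ℕ∞) : ContDiff ℝ n mB := by
  unfold mB
  exact ((contDiff_fst.norm_sq ℝ).add (contDiff_snd.norm_sq ℝ)).sub contDiff_const

theorem mB_deriv (x : ℂ × ℂ) : HasFDerivAt mB (dm x) x := by
  have h1 : HasFDerivAt (fun x : ℂ × ℂ => ‖x.1‖ ^ 2)
      ((2 : ℝ) • ((innerSL ℝ x.1).comp (ContinuousLinearMap.fst ℝ ℂ ℂ))) x := by
    have := (hasFDerivAt_fst (𝕜 := ℝ) (p := x)).norm_sq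
    refine this.congr_fderiv ?_
    ext v <;> simp <;> ring
  have h2 : HasFDerivAt (fun x : ℂ × ℂ => ‖x.2‖ ^ 2)
      ((2 : ℝ) • ((innerSL ℝ x.2).comp (ContinuousLinearMap.snd ℝ ℂ ℂ))) x := by
    have := (hasFDerivAt_snd (𝕜 := ℝ) (p := x)).norm_sq
    refine this.congr_fderiv ?_
    ext v <;> simp <;> ring
  exact (h1.add h2).sub_const 1

theorem mB_fderiv : fderiv ℝ mB = dm := funext fun x => (mB_deriv x).fderiv

theorem dm_apply (x v : ℂ × ℂ) : dm x v = 2 * (starRingEnd ℂ x.1 * v.1).re +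
    2 * (starRingEnd ℂ x.2 * v.2).re := by
  simp [dm, Complex.inner]
  ring_nf

theorem dm_add (x y : ℂ × ℂ) : dm (x + y) = dm x + dm y := by
  ext v <;> simp [dm]

theorem dm_smul (t : ℝ) (x : ℂ × ℂ) : dm (t • x) = t • dm x := by
  ext v <;> simp [dm, Complex.inner] <;> ring

theorem dm_sub (x y : ℂ × ℂ) : dm (x - y) = dm x - dm y := by
  have h := dm_add (x - y) y
  rw [sub_add_cancel] at h
  rw [h, add_sub_cancel_right]

/-- `dm` as a linear map -/
noncomputable def dmL : ℂ × ℂ →L[ℝ] (ℂ × ℂ →L[ℝ] ℝ) :=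
  LinearMap.toContinuousLinearMap
    { toFun := dm
      map_add' := dm_add
      map_smul' := dm_smul }

theorem dmL_apply (x : ℂ × ℂ) : dmL x = dm x := rfl

theorem mB_fderiv2 (x : ℂ × ℂ) : fderiv ℝ (fderiv ℝ mB) x = dmL := by
  rw [mB_fderiv]
  exact dmL.fderiv

theorem lv_mB (x v : ℂ × ℂ) : lv mB x v = 4 * (‖v.1‖ ^ 2 + ‖v.2‖ ^ 2) := by
  unfold lv
  rw [mB_fderiv2, dmL_apply, dmL_apply, dm_apply, dm_apply]
  simp only [Prod.smul_fst, Prod.smul_snd, smul_eq_mul, map_mul, Complex.conj_I,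
    Complex.sq_norm, Complex.normSq_apply, Complex.mul_re, Complex.mul_im, Complex.conj_re,
    Complex.conj_im, Complex.I_re, Complex.I_im, Complex.neg_re, Complex.neg_im]
  ring

/-- functions `C²` close to `mB` define bounded strictly pseudoconvex open sets -/
theorem nf_near {ε : ℝ} (hε : ε ≤ 1 / 4) {r : ℂ × ℂ → ℝ} (h : Cls ε mB r) : NF r := by
  have hn : ∀ x : ℂ × ℂ, ‖x‖ ^ 2 ≤ ‖x.1‖ ^ 2 + ‖x.2‖ ^ 2 := by
    intro x
    rw [Prod.norm_def]
    rcases le_total ‖x.1‖ ‖x.2‖ with h1 | h1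
    · rw [max_eq_right h1]
      have := sq_nonneg ‖x.1‖
      linarith
    · rw [max_eq_left h1]
      have := sq_nonneg ‖x.2‖
      linarith
  refine ⟨h.1, ?_, ?_, ?_⟩
  · refine (Metric.isBounded_closedBall (x := (0 : ℂ × ℂ)) (r := 2)).subset fun x hx => ?_
    rw [mem_closedBall, dist_zero_right]
    have h1 := (abs_le.1 (h.2 x).1).2
    have h2 : r x ≤ 0 := hx
    have h3 := hn x
    unfold mB at h1
    nlinarith [norm_nonneg x]
  · intro x hx h0
    have h1 := abs_le.1 (h.2 x).1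
    have h2 := (h.2 x).2.1
    rw [hx] at h1
    rw [h0, sub_zero, mB_fderiv] at h2
    have h3 := (dm x).le_of_opNorm_le h2 x
    rw [dm_apply] at h3
    have h4 : 2 * (starRingEnd ℂ x.1 * x.1).re + 2 * (starRingEnd ℂ x.2 * x.2).re =
        2 * (‖x.1‖ ^ 2 + ‖x.2‖ ^ 2) := by
      simp only [Complex.sq_norm, Complex.normSq_apply, Complex.mul_re, Complex.conj_re,
        Complex.conj_im]
      ring
    rw [h4, Real.norm_eq_abs] at h3
    have h5 := (le_abs_self _).trans h3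
    have h6 : mB x = ‖x.1‖ ^ 2 + ‖x.2‖ ^ 2 - 1 := rfl
    have h7 : ‖x‖ ≤ 2 := by nlinarith [hn x, norm_nonneg x]
    have h8 : ε * ‖x‖ ≤ 1 / 4 * ‖x‖ := mul_le_mul_of_nonneg_right hε (norm_nonneg _)
    nlinarith [norm_nonneg x]
  · intro x _ v hv _
    have h1 := (h.2 x).2.2
    have h2 : ∀ w : ℂ × ℂ, |fderiv ℝ (fderiv ℝ mB) x w w - fderiv ℝ (fderiv ℝ r) x w w| ≤
        1 / 4 * ‖w‖ ^ 2 := by
      intro w
      have h3 : ‖(fderiv ℝ (fderiv ℝ mB) x - fderiv ℝ (fderiv ℝ r) x) w w‖ ≤ ε * ‖w‖ * ‖w‖ := by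
        refine ContinuousLinearMap.le_of_opNorm_le _ ?_ w
        exact ContinuousLinearMap.le_of_opNorm_le _ h1 w
      rw [_root_.sub_apply, _root_.sub_apply, Real.norm_eq_abs] at h3
      refine h3.trans ?_
      have h4 : ε * ‖w‖ * ‖w‖ = ε * ‖w‖ ^ 2 := by ring
      rw [h4]
      exact mul_le_mul_of_nonneg_right hε (sq_nonneg _)
    have h3 := (abs_le.1 (h2 v)).2
    have h4 := (abs_le.1 (h2 (Complex.I • v))).2
    have h5 : ‖Complex.I • v‖ = ‖v‖ := by rw [norm_smul, Complex.norm_I, one_mul]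
    have h6 := lv_mB x v
    unfold lv at h6 ⊢
    rw [h5] at h4
    have h7 : 0 < ‖v‖ := norm_pos_iff.2 hv
    nlinarith [hn v]

theorem nf_mB : NF mB := nf_near (ε := 0) (by norm_num)
  ⟨mB_contDiff 2, fun x => ⟨(abs_nonpos_iff.2 (sub_self _)),
    (norm_le_zero_iff.2 (sub_self _)),
    ContinuousLinearMap.opNorm_le_bound _ le_rfl fun v => by
      rw [_root_.sub_apply, zero_mul]
      exact norm_le_zero_iff.2 (sub_self _)⟩⟩

/-- the unit ball -/
def B2 : Set (ℂ × ℂ) := {x | mB x < 0}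

theorem frontier_B2 {p : ℂ × ℂ} (hp : p ∈ frontier B2) : ‖p.1‖ ^ 2 + ‖p.2‖ ^ 2 = 1 := by
  have hc : Continuous mB := (mB_contDiff 0).continuous
  have ho : IsOpen B2 := isOpen_lt hc continuous_const
  rw [ho.frontier_eq] at hp
  have h1 : closure B2 ⊆ {x | mB x ≤ 0} :=
    closure_minimal (fun x (hx : mB x < 0) => hx.le) (isClosed_le hc continuous_const)
  have h2 : mB p ≤ 0 := h1 hp.1
  have h3 : ¬ mB p < 0 := hp.2
  unfold mB at h2 h3
  linarith

/-- all germs of the ball are equivalent to the germ at `(1, 0)` -/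
theorem geq_ball {p : ℂ × ℂ} (hp : ‖p.1‖ ^ 2 + ‖p.2‖ ^ 2 = 1) : GEq B2 p B2 (1, 0) := by
  have hc : starRingEnd ℂ p.1 * p.1 + starRingEnd ℂ p.2 * p.2 = 1 := by
    rw [← Complex.normSq_eq_conj_mul_self, ← Complex.normSq_eq_conj_mul_self, ← Complex.sq_norm,
      ← Complex.sq_norm]
    exact_mod_cast hp
  refine ⟨fun z => (starRingEnd ℂ p.1 * z.1 + starRingEnd ℂ p.2 * z.2, - p.2 * z.1 + p.1 * z.2),
    fun w => (p.1 * w.1 - starRingEnd ℂ p.2 * w.2, p.2 * w.1 + starRingEnd ℂ p.1 * w.2),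
    univ, univ, isOpen_univ, isOpen_univ, mem_univ _, ?_, ?_, ?_, mapsTo_univ _ _, mapsTo_univ _ _,
    ?_, ?_, ?_⟩
  · refine Prod.ext ?_ ?_
    · exact hc
    · show - p.2 * p.1 + p.1 * p.2 = 0
      ring
  · exact Differentiable.differentiableOn (by fun_prop)
  · exact Differentiable.differentiableOn (by fun_prop)
  · intro z _
    refine Prod.ext ?_ ?_
    · show p.1 * (starRingEnd ℂ p.1 * z.1 + starRingEnd ℂ p.2 * z.2) -
        starRingEnd ℂ p.2 * (- p.2 * z.1 + p.1 * z.2) = z.1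
      linear_combination z.1 * hc
    · show p.2 * (starRingEnd ℂ p.1 * z.1 + starRingEnd ℂ p.2 * z.2) +
        starRingEnd ℂ p.1 * (- p.2 * z.1 + p.1 * z.2) = z.2
      linear_combination z.2 * hc
  · intro w _
    refine Prod.ext ?_ ?_
    · show starRingEnd ℂ p.1 * (p.1 * w.1 - starRingEnd ℂ p.2 * w.2) +
        starRingEnd ℂ p.2 * (p.2 * w.1 + starRingEnd ℂ p.1 * w.2) = w.1
      linear_combination w.1 * hc
    · show - p.2 * (p.1 * w.1 - starRingEnd ℂ p.2 * w.2) +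
        p.1 * (p.2 * w.1 + starRingEnd ℂ p.1 * w.2) = w.2
      linear_combination w.2 * hc
  · intro z _
    have e : mB (starRingEnd ℂ p.1 * z.1 + starRingEnd ℂ p.2 * z.2, - p.2 * z.1 + p.1 * z.2) =
        mB z := by
      have hp' : p.1.re * p.1.re + p.1.im * p.1.im + (p.2.re * p.2.re + p.2.im * p.2.im) = 1 := by
        have := hp
        rw [Complex.sq_norm, Complex.sq_norm, Complex.normSq_apply, Complex.normSq_apply] at this
        exact this
      unfold mB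
      simp only [Complex.sq_norm, Complex.normSq_apply, Complex.add_re, Complex.add_im,
        Complex.mul_re, Complex.mul_im, Complex.conj_re, Complex.conj_im, Complex.neg_re,
        Complex.neg_im]
      linear_combination (z.1.re * z.1.re + z.1.im * z.1.im + (z.2.re * z.2.re + z.2.im * z.2.im)) * hp'
    show mB z < 0 ↔ mB _ < 0
    rw [e]

theorem lcor_ball {p q : ℂ × ℂ} (hp : ‖p.1‖ ^ 2 + ‖p.2‖ ^ 2 = 1) (hq : ‖q.1‖ ^ 2 + ‖q.2‖ ^ 2 = 1)
    {I : Type} (h : LCor I B2 p) : LCor I B2 q :=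
  (geq_ball hq).local ((geq_ball hp).symm.local h)

end Pool.Agent.H191.Corona
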