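import Pool.Agent.H191.Corona.Ball
import Pool.Graph.R_pool_sql_team_seeded_620a6dc7.P157G.Crd
import Pool.Graph.R_pool_sql_team_seeded_620a6dc7.P157G.Lam

/-!
Local coordinates in which the 2-jet of a strictly plurisubharmonic function has no pluriharmonic part.
-/

set_option autoImplicit false

open MeasureTheory Metric Set Filter Topology Complex

namespace Pool.Agent.H191.Corona

open Pool.Agent.P157G
open Pool.Agent.P157D (d1 d2 CR Bo)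

theorem th_smooth (n : WithTop ℕ∞) (σ : ℂ × ℂ → ℝ) (q : ℂ × ℂ) : ContDiff ℂ n (G7b2_Th σ q) := by
  unfold G7b2_Th G7b2_S
  simp only [Prod.fst_sub, Prod.snd_sub]
  fun_prop

theorem crd2 {σ : ℂ × ℂ → ℝ} (hσ : ContDiff ℝ 2 σ) {q : ℂ × ℂ} (hd : fderiv ℝ σ q ≠ 0) :
    ∃ (Θ T : ℂ × ℂ → ℂ × ℂ) (U V : Set (ℂ × ℂ)) (L : ℂ × ℂ →L[ℂ] ℂ × ℂ), IsOpen U ∧ IsOpen V ∧
      q ∈ U ∧ (0, 0) ∈ V ∧ Θ q = (0, 0) ∧ T (0, 0) = q ∧ DifferentiableOn ℂ Θ U ∧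
      (∀ x ∈ V, AnalyticAt ℂ T x) ∧ MapsTo Θ U V ∧ MapsTo T V U ∧ (∀ z ∈ U, T (Θ z) = z) ∧
      (∀ x ∈ V, Θ (T x) = x) ∧
      (∀ x : ℂ × ℂ, fderiv ℝ (fun x => σ (T x)) (0, 0) x = 2 * x.1.re) ∧
      (∀ x : ℂ × ℂ, x ≠ 0 → L x ≠ 0) ∧
      ∀ x y : ℂ × ℂ, fderiv ℝ (fderiv ℝ (fun x => σ (T x))) (0, 0) x y =
        (fderiv ℝ (fderiv ℝ σ) q - (2 : ℝ) • G7b2_C (fderiv ℝ (fderiv ℝ σ) q)) (L x) (L y) := by
  have h := G7b2_d_ne σ q hd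
  set Φ := G7b2_Th σ q with hΦdef
  have hΦs : ContDiff ℂ ⊤ Φ := th_smooth ⊤ σ q
  have hΦ : ContDiffAt ℂ ⊤ Φ q := hΦs.contDiffAt
  have hΦd := G7b2_Th_deriv σ q h
  have hΦ0 : Φ q = (0, 0) := by
    simp [hΦdef, G7b2_Th, G7b2_S]
  have htop : (⊤ : WithTop ℕ∞) ≠ 0 := by decide
  let e := hΦ.toOpenPartialHomeomorph Φ hΦd htop
  have hesrc : q ∈ e.source := hΦ.mem_toOpenPartialHomeomorph_source hΦd htop
  have hecoe : ∀ z, e z = Φ z := fun z => rfl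
  have hetgt : ((0 : ℂ), (0 : ℂ)) ∈ e.target := by
    have := e.map_source hesrc
    rw [hecoe, hΦ0] at this
    exact this
  have hes0 : e.symm (0, 0) = q := by
    have := e.left_inv hesrc
    rw [hecoe, hΦ0] at this
    exact this
  have hΨ : ContDiffAt ℂ ⊤ e.symm (0, 0) := by
    have := hΦ.to_localInverse hΦd htop
    rw [hΦ0] at this
    exact this
  obtain ⟨T, hTdef⟩ : ∃ T : ℂ × ℂ → ℂ × ℂ, T = e.symm := ⟨_, rfl⟩
  rw [← hTdef] at hes0 hΨ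
  have hTa : AnalyticAt ℂ T (0, 0) := hΨ.analyticAt
  have hTc : ContinuousAt T (0, 0) := hΨ.continuousAt
  have hTd : DifferentiableAt ℂ T (0, 0) := hTa.differentiableAt
  have hΦT : ∀ x ∈ e.target, Φ (T x) = x := by
    intro x hx
    rw [hTdef, ← hecoe]
    exact e.right_inv hx
  -- the derivative of `T` is injective
  have hinj : ∀ x : ℂ × ℂ, x ≠ 0 → fderiv ℂ T (0, 0) x ≠ 0 := by
    intro x hx hx0
    have h1 : HasFDerivAt (fun x => Φ (T x)) (((G7b2_A (d1 σ q) (d2 σ q) h : (ℂ × ℂ) ≃L[ℂ] (ℂ × ℂ)) :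
        ℂ × ℂ →L[ℂ] ℂ × ℂ).comp (fderiv ℂ T (0, 0))) (0, 0) := by
      have h0 : HasFDerivAt Φ ((G7b2_A (d1 σ q) (d2 σ q) h : (ℂ × ℂ) ≃L[ℂ] (ℂ × ℂ)) :
          ℂ × ℂ →L[ℂ] ℂ × ℂ) (T (0, 0)) := by
        rw [hes0]
        exact hΦd
      exact h0.comp ((0 : ℂ), (0 : ℂ)) hTd.hasFDerivAt
    have h2 : HasFDerivAt (fun x => Φ (T x)) (ContinuousLinearMap.id ℂ (ℂ × ℂ)) (0, 0) := by
      refine (hasFDerivAt_id _).congr_of_eventuallyEq ?_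
      filter_upwards [e.open_target.mem_nhds hetgt] with y hy
      exact hΦT y hy
    have h3 := h1.unique h2
    have h4 := congrArg (fun L : ℂ × ℂ →L[ℂ] ℂ × ℂ => L x) h3
    simp only [ContinuousLinearMap.comp_apply, hx0, map_zero, ContinuousLinearMap.coe_id', id] at h4
    exact hx h4.symm
  have hdd : ∀ᶠ p in 𝓝 ((0 : ℂ), (0 : ℂ)), DifferentiableAt ℂ T p := by
    filter_upwards [hTa.eventually_analyticAt] with p hp
    exact hp.differentiableAt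
  -- real derivatives
  have hΨr : ContDiffAt ℝ 2 T (0, 0) := (hΨ.of_le le_top).restrict_scalars ℝ
  have hfTr : ContDiffAt ℝ 1 (fderiv ℝ T) (0, 0) := hΨr.fderiv_right (by norm_num)
  have hTr : fderiv ℝ T (0, 0) = (fderiv ℂ T (0, 0)).restrictScalars ℝ :=
    (hTd.hasFDerivAt.restrictScalars ℝ).fderiv
  obtain ⟨ℓ, hℓ⟩ : ∃ ℓ : ℂ × ℂ →L[ℝ] ℝ, ℓ = (2 : ℝ) • (Complex.reCLM.comp (ContinuousLinearMap.fst ℝ ℂ ℂ)) :=
    ⟨_, rfl⟩
  have hℓa : ∀ x, ℓ x = 2 * x.1.re := by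
    intro x
    rw [hℓ]
    simp
  have hHe : ∀ᶠ x in 𝓝 ((0 : ℂ), (0 : ℂ)), σ (T x) = G7b2_k σ q (T x) + ℓ x := by
    filter_upwards [e.open_target.mem_nhds hetgt] with x hx
    unfold G7b2_k
    rw [← hΦdef, hΦT x hx, hℓa]
    ring
  have hF : fderiv ℝ (fun x => σ (T x)) =ᶠ[𝓝 ((0 : ℂ), (0 : ℂ))]
      fun x => (fderiv ℝ (G7b2_k σ q) (T x)).comp (fderiv ℝ T x) + ℓ := by
    filter_upwards [hHe.eventually_nhds, hdd] with x hx hxd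
    have h1 : (fun x => σ (T x)) =ᶠ[𝓝 x] fun x => G7b2_k σ q (T x) + ℓ x := hx
    rw [h1.fderiv_eq]
    have h2 : HasFDerivAt (G7b2_k σ q) (fderiv ℝ (G7b2_k σ q) (T x)) (T x) :=
      (G7b2_k_deriv hσ q (T x)).differentiableAt.hasFDerivAt
    have h3 : HasFDerivAt T (fderiv ℝ T x) x := (hxd.restrictScalars ℝ).hasFDerivAt
    exact ((h2.comp x h3).add ℓ.hasFDerivAt).fderiv
  have hk0 : fderiv ℝ (G7b2_k σ q) (T (0, 0)) = 0 := by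
    rw [hes0, G7b2_k_fderiv hσ q]
    simp
  have hF0 : fderiv ℝ (fun x => σ (T x)) (0, 0) = ℓ := by
    rw [hF.self_of_nhds]
    show (fderiv ℝ (G7b2_k σ q) (T (0, 0))).comp (fderiv ℝ T (0, 0)) + ℓ = ℓ
    rw [hk0]
    simp
  have hG1 : HasFDerivAt (fun x => fderiv ℝ (G7b2_k σ q) (T x)) ((fderiv ℝ (fderiv ℝ σ) q -
      (2 : ℝ) • G7b2_C (fderiv ℝ (fderiv ℝ σ) q)).comp (fderiv ℝ T (0, 0))) (0, 0) := by
    have h1 := G7b2_k_deriv2 hσ q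
    rw [← hes0] at h1
    have h2 : HasFDerivAt T (fderiv ℝ T (0, 0)) (0, 0) := (hTd.restrictScalars ℝ).hasFDerivAt
    have h3 := h1.comp ((0 : ℂ), (0 : ℂ)) h2
    rw [hes0] at h3
    exact h3
  have hG2 : HasFDerivAt (fderiv ℝ T) (fderiv ℝ (fderiv ℝ T) (0, 0)) (0, 0) :=
    (hfTr.differentiableAt one_ne_zero).hasFDerivAt
  have hG3 := ((hG1.clm_comp hG2).add_const ℓ).congr_of_eventuallyEq hF
  have hsec : ∀ x y : ℂ × ℂ, fderiv ℝ (fderiv ℝ (fun x => σ (T x))) (0, 0) x y =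
      (fderiv ℝ (fderiv ℝ σ) q - (2 : ℝ) • G7b2_C (fderiv ℝ (fderiv ℝ σ) q)) (fderiv ℝ T (0, 0) x)
        (fderiv ℝ T (0, 0) y) := by
    intro x y
    rw [hG3.fderiv, hk0]
    simp
  -- neighbourhoods
  have hVo : IsOpen (e.target ∩ {x | AnalyticAt ℂ T x}) := e.open_target.inter (isOpen_analyticAt ℂ T)
  have hUo : IsOpen (e.source ∩ e ⁻¹' (e.target ∩ {x | AnalyticAt ℂ T x})) :=
    e.continuousOn.isOpen_inter_preimage e.open_source hVo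
  refine ⟨Φ, T, e.source ∩ e ⁻¹' (e.target ∩ {x | AnalyticAt ℂ T x}),
    e.target ∩ {x | AnalyticAt ℂ T x}, fderiv ℂ T (0, 0), hUo, hVo, ⟨hesrc, ?_⟩, ⟨hetgt, hTa⟩, hΦ0,
    hes0, ((hΦs.differentiable (by decide)).differentiableOn), fun x hx => hx.2, fun z hz => hz.2,
    ?_, ?_, fun x hx => hΦT x hx.1, ?_, hinj, ?_⟩
  · rw [mem_preimage, hecoe, hΦ0]
    exact ⟨hetgt, hTa⟩
  · intro x hx
    have h1 : T x ∈ e.source := by
      rw [hTdef]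
      exact e.map_target hx.1
    refine ⟨h1, ?_⟩
    rw [mem_preimage, hecoe, hΦT x hx.1]
    exact hx
  · intro z hz
    rw [hTdef, ← hecoe]
    exact e.left_inv hz.1
  · intro x
    rw [hF0, hℓa]
  · intro x y
    rw [hsec, hTr]
    rfl

end Pool.Agent.H191.Corona
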