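import Mathlib

/-!
Cutting off a function with vanishing 2-jet.
-/

set_option autoImplicit false

open MeasureTheory Metric Set Filter Topology

namespace Pool.Agent.H191.Corona

section gen

variable {E F : Type} [NormedAddCommGroup E] [NormedSpace ℝ E] [NormedAddCommGroup F]
  [NormedSpace ℝ F]

theorem g1 {f : E → F} {q : E} (h : ContDiffAt ℝ 1 f q) {η : ℝ} (h2 : ‖fderiv ℝ f q‖ < η) :
    ∀ᶠ x in 𝓝 q, ‖fderiv ℝ f x‖ < η := by
  have h0 : ContDiffAt ℝ 0 (fderiv ℝ f) q := h.fderiv_right (by norm_num)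
  have h1 : ContinuousAt (fderiv ℝ f) q := h0.continuousAt
  exact h1.norm.eventually_lt continuousAt_const h2

theorem g2 {X : E → ℝ} {f : E → F} {x : E} (hX : DifferentiableAt ℝ X x)
    (hf : DifferentiableAt ℝ f x) :
    ‖fderiv ℝ (fun y => X y • f y) x‖ ≤ |X x| * ‖fderiv ℝ f x‖ + ‖fderiv ℝ X x‖ * ‖f x‖ := by
  rw [(hX.hasFDerivAt.fun_smul hf.hasFDerivAt).fderiv]
  refine (norm_add_le _ _).trans ?_
  rw [norm_smul, ContinuousLinearMap.norm_smulRight_apply, Real.norm_eq_abs]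

theorem g4 {f g : E → F} {x : E} (hf : DifferentiableAt ℝ f x) (hg : DifferentiableAt ℝ g x) :
    ‖fderiv ℝ (fun y => f y + g y) x‖ ≤ ‖fderiv ℝ f x‖ + ‖fderiv ℝ g x‖ := by
  rw [(hf.hasFDerivAt.fun_add hg.hasFDerivAt).fderiv]
  exact norm_add_le _ _

theorem g3 {f : E → F} (hf : Differentiable ℝ f) (q : E) (t : ℝ) (x : E) :
    HasFDerivAt (fun y => f (t • (y - q))) (t • fderiv ℝ f (t • (x - q))) x := by
  have hA : HasFDerivAt (fun x : E => t • (x - q)) (t • ContinuousLinearMap.id ℝ E) x :=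
    ((hasFDerivAt_id x).sub_const q).const_smul t
  refine ((hf _).hasFDerivAt.comp x hA).congr_fderiv ?_
  rw [ContinuousLinearMap.comp_smul, ContinuousLinearMap.comp_id]

theorem g5 {f : E → F} (hf : Differentiable ℝ f) (q : E) {t M : ℝ} (ht : 0 < t)
    (hM : ∀ x, ‖fderiv ℝ f x‖ ≤ M) (x : E) :
    ‖fderiv ℝ (fun y => t • f (t • (y - q))) x‖ ≤ t * (t * M) := by
  rw [((g3 hf q t x).fun_const_smul t).fderiv, norm_smul, norm_smul, Real.norm_of_nonneg ht.le]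
  exact mul_le_mul_of_nonneg_left (mul_le_mul_of_nonneg_left (hM _) ht.le) ht.le

theorem g6 {f : E → F} (hf : Differentiable ℝ f) (q : E) {t : ℝ} :
    Differentiable ℝ (fun y => t • f (t • (y - q))) := fun x =>
  ((g3 hf q t x).const_smul t).differentiableAt

theorem g7 {f : E → F} (hf : ContDiff ℝ 1 f) (hc : HasCompactSupport f) :
    ∃ M : ℝ, ∀ x, ‖fderiv ℝ f x‖ ≤ M :=
  (hf.continuous_fderiv (by norm_num)).bounded_above_of_compact_support (hc.fderiv (𝕜 := ℝ))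

theorem g8 {f : E → F} {q : E} {t η : ℝ} (hη : 0 ≤ η) (ht : 0 < t)
    (hd : ∀ x ∈ ball q t, DifferentiableAt ℝ f x) (hb : ∀ x ∈ ball q t, ‖fderiv ℝ f x‖ ≤ η)
    (h0 : f q = 0) : ∀ x ∈ ball q t, ‖f x‖ ≤ η * t := by
  intro x hx
  have h3 := (convex_ball q t).norm_image_sub_le_of_norm_fderiv_le (𝕜 := ℝ) (f := f)
    (C := η) hd hb (mem_ball_self ht) hx
  rw [h0, sub_zero] at h3
  exact h3.trans (mul_le_mul_of_nonneg_left (mem_ball_iff_norm.1 hx).le hη)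

theorem g9 {f : E → F} {x : E} (h : f =ᶠ[𝓝 x] fun _ => 0) : fderiv ℝ f x = 0 := by
  rw [h.fderiv_eq]
  exact (hasFDerivAt_const (0 : F) x).fderiv

theorem g10 {f : E → F} {x : E} (h : f =ᶠ[𝓝 x] fun _ => 0) : fderiv ℝ f =ᶠ[𝓝 x] fun _ => 0 := by
  filter_upwards [h.eventually_nhds] with y hy
  exact g9 hy

theorem g11 {f : E → F} {x : E} (h : f =ᶠ[𝓝 x] fun _ => 0) : ‖fderiv ℝ f x‖ = 0 := by
  rw [g9 h, norm_zero]

theorem g0 {f : E → F} {x : E} : 0 ≤ ‖fderiv ℝ f x‖ := norm_nonneg _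

theorem g12 {f : E → F} {x : E} (h : fderiv ℝ f x = 0) : ‖fderiv ℝ f x‖ = 0 := by
  rw [h, norm_zero]

end gen

theorem cutoff {E : Type} [NormedAddCommGroup E] [NormedSpace ℝ E] [FiniteDimensional ℝ E]
    {k : ℕ∞} (hk : 2 ≤ k) {g : E → ℝ} {q : E} {W : Set E}
    (hW : IsOpen W) (hq : q ∈ W) (hg : ContDiffOn ℝ k g W) (h0 : g q = 0) (h1 : fderiv ℝ g q = 0)
    (h2 : fderiv ℝ (fderiv ℝ g) q = 0) {ε : ℝ} (hε : 0 < ε) :
    ∃ h : E → ℝ, ContDiff ℝ k h ∧
      (∀ x, |h x| ≤ ε ∧ ‖fderiv ℝ h x‖ ≤ ε ∧ ‖fderiv ℝ (fderiv ℝ h) x‖ ≤ ε) ∧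
      (∀ x, x ∉ ball q ε → h x = 0) ∧ ∀ᶠ x in 𝓝 q, h x = g x := by
  -- the bump function
  let χ : ContDiffBump (0 : E) := ⟨1 / 3, 1 / 2, by norm_num, by norm_num⟩
  have hχs : ∀ n : ℕ∞, ContDiff ℝ n (χ : E → ℝ) := fun n => χ.contDiff
  have hχ2 : ContDiff ℝ 2 (χ : E → ℝ) := hχs 2
  have hχd : Differentiable ℝ (χ : E → ℝ) := hχ2.differentiable (by norm_num)
  have hχ1 : ContDiff ℝ 1 (fderiv ℝ (χ : E → ℝ)) := hχ2.fderiv_right (by norm_num)
  have hχdd : Differentiable ℝ (fderiv ℝ (χ : E → ℝ)) := hχ1.differentiable (by norm_num)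
  obtain ⟨M1, hM1⟩ := g7 (hχs 1) χ.hasCompactSupport
  obtain ⟨M2, hM2⟩ := g7 hχ1 (χ.hasCompactSupport.fderiv (𝕜 := ℝ))
  set M : ℝ := max M1 M2 with hM
  have hMa : ∀ x, ‖fderiv ℝ (χ : E → ℝ) x‖ ≤ M := fun x => (hM1 x).trans (le_max_left _ _)
  have hMb : ∀ x, ‖fderiv ℝ (fderiv ℝ (χ : E → ℝ)) x‖ ≤ M :=
    fun x => (hM2 x).trans (le_max_right _ _)
  have hM0 : 0 ≤ M := (norm_nonneg _).trans (hMa 0)
  set η : ℝ := ε / (1 + 3 * M) with hη
  have hη0 : 0 < η := by positivity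
  have hηe : η * (1 + 3 * M) = ε := by
    rw [hη]; field_simp
  -- the radius
  have hk2 : (2 : WithTop ℕ∞) ≤ (k : WithTop ℕ∞) := WithTop.coe_le_coe.2 hk
  have hg2 : ∀ x ∈ W, ContDiffAt ℝ 2 g x := fun x hx => (hg.contDiffAt (hW.mem_nhds hx)).of_le hk2
  have hg1 : ∀ x ∈ W, ContDiffAt ℝ 1 (fderiv ℝ g) x := fun x hx =>
    (hg2 x hx).fderiv_right (by norm_num)
  obtain ⟨t0, ht0, hball⟩ : ∃ t0 : ℝ, 0 < t0 ∧ ∀ x ∈ ball q t0, x ∈ W ∧
      ‖fderiv ℝ (fderiv ℝ g) x‖ ≤ η := by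
    have h3 : ∀ᶠ x in 𝓝 q, ‖fderiv ℝ (fderiv ℝ g) x‖ < η :=
      g1 (hg1 q hq) ((g12 h2).trans_lt hη0)
    obtain ⟨t0, ht0, hb⟩ := Metric.eventually_nhds_iff_ball.1 ((hW.eventually_mem hq).and h3)
    exact ⟨t0, ht0, fun x hx => ⟨(hb x hx).1, (hb x hx).2.le⟩⟩
  set t : ℝ := min t0 (min ε 1) with ht
  have htp : 0 < t := lt_min ht0 (lt_min hε one_pos)
  have htt : t ≤ t0 := min_le_left _ _
  have hte : t ≤ ε := (min_le_right _ _).trans (min_le_left _ _)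
  have ht1 : t ≤ 1 := (min_le_right _ _).trans (min_le_right _ _)
  have hbt : ∀ x ∈ ball q t, x ∈ W ∧ ‖fderiv ℝ (fderiv ℝ g) x‖ ≤ η := fun x hx =>
    hball x (ball_subset_ball htt hx)
  have hqt : q ∈ ball q t := mem_ball_self htp
  have hgd1 : ∀ x ∈ ball q t, DifferentiableAt ℝ (fderiv ℝ g) x := fun y hy =>
    (hg1 y (hbt y hy).1).differentiableAt (by norm_num)
  have hgd0 : ∀ x ∈ ball q t, DifferentiableAt ℝ g x := fun y hy =>
    (hg2 y (hbt y hy).1).differentiableAt (by norm_num)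
  have hD1 : ∀ x ∈ ball q t, ‖fderiv ℝ g x‖ ≤ η * t :=
    g8 hη0.le htp hgd1 (fun x hx => (hbt x hx).2) h1
  have hD0 : ∀ x ∈ ball q t, ‖g x‖ ≤ η * t * t :=
    g8 (by positivity) htp hgd0 hD1 h0
  -- the rescaled bump
  set X : E → ℝ := fun x => χ (t⁻¹ • (x - q)) with hX
  have hXs : ContDiff ℝ k X :=
    (hχs k).comp ((contDiff_id.sub contDiff_const).const_smul t⁻¹)
  have hXd : Differentiable ℝ X := fun x => (g3 hχd q t⁻¹ x).differentiableAt
  have hXf : fderiv ℝ X = fun x => t⁻¹ • fderiv ℝ (χ : E → ℝ) (t⁻¹ • (x - q)) :=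
    funext fun x => (g3 hχd q t⁻¹ x).fderiv
  have hti : 0 < t⁻¹ := inv_pos.2 htp
  have hXdd : Differentiable ℝ (fderiv ℝ X) := by
    rw [hXf]
    exact g6 hχdd q
  have hX0 : ∀ x, |X x| ≤ 1 := fun x => by
    rw [abs_of_nonneg χ.nonneg]
    exact χ.le_one
  have hX1 : ∀ x, ‖fderiv ℝ X x‖ ≤ t⁻¹ * M := by
    intro x
    rw [hXf]
    show ‖t⁻¹ • fderiv ℝ (χ : E → ℝ) (t⁻¹ • (x - q))‖ ≤ _
    rw [norm_smul, Real.norm_of_nonneg hti.le]
    exact mul_le_mul_of_nonneg_left (hMa _) hti.le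
  have hX2 : ∀ x, ‖fderiv ℝ (fderiv ℝ X) x‖ ≤ t⁻¹ * (t⁻¹ * M) := by
    intro x
    rw [hXf]
    exact g5 hχdd q hti hMb x
  have hXz : ∀ x, t / 2 ≤ dist x q → X x = 0 := by
    intro x hx
    refine χ.zero_of_le_dist ?_
    show (1 / 2 : ℝ) ≤ dist (t⁻¹ • (x - q)) 0
    rw [dist_zero_right, norm_smul, Real.norm_of_nonneg hti.le, ← dist_eq_norm]
    have h3 : t⁻¹ * (t / 2) ≤ t⁻¹ * dist x q := mul_le_mul_of_nonneg_left hx hti.le
    have h4 : t⁻¹ * (t / 2) = 1 / 2 := by field_simp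
    linarith
  have hloc : ∀ x, x ∉ ball q t → (fun x => X x * g x) =ᶠ[𝓝 x] fun _ => (0 : ℝ) := by
    intro x hx
    have h3 : t ≤ dist x q := not_lt.1 hx
    have h4 : {y | t / 2 < dist y q} ∈ 𝓝 x :=
      (isOpen_lt continuous_const (continuous_id.dist continuous_const)).mem_nhds
        (by show t / 2 < dist x q; linarith)
    filter_upwards [h4] with y hy
    rw [hXz y (le_of_lt hy), zero_mul]
  have hfd : ∀ x ∈ ball q t, HasFDerivAt (fun x => X x * g x)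
      (X x • fderiv ℝ g x + g x • fderiv ℝ X x) x := by
    intro x hx
    exact (hXd x).hasFDerivAt.mul (hgd0 x hx).hasFDerivAt
  have hfe : ∀ x ∈ ball q t, fderiv ℝ (fun x => X x * g x) =ᶠ[𝓝 x]
      fun y => X y • fderiv ℝ g y + g y • fderiv ℝ X y := by
    intro x hx
    filter_upwards [isOpen_ball.mem_nhds hx] with y hy
    exact (hfd y hy).fderiv
  refine ⟨fun x => X x * g x, ?_, ?_, ?_, ?_⟩
  · rw [contDiff_iff_contDiffAt]
    intro x
    by_cases hx : x ∈ ball q t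
    · exact hXs.contDiffAt.mul (hg.contDiffAt (hW.mem_nhds (hbt x hx).1))
    · exact contDiffAt_const.congr_of_eventuallyEq (hloc x hx)
  · intro x
    by_cases hx : x ∈ ball q t
    · have b0 := hD0 x hx
      have b1 := hD1 x hx
      have b2 := (hbt x hx).2
      have c0 := hX0 x
      have c1 := hX1 x
      have c2 := hX2 x
      have hηt : η * t ≤ η := by nlinarith
      rw [Real.norm_eq_abs] at b0
      refine ⟨?_, ?_, ?_⟩
      · show |X x * g x| ≤ ε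
        rw [abs_mul]
        have h3 : |X x| * |g x| ≤ 1 * (η * t * t) := mul_le_mul c0 b0 (abs_nonneg _) zero_le_one
        have h4 : η * t * t ≤ η * t := by nlinarith [mul_pos hη0 htp]
        nlinarith [mul_nonneg hη0.le hM0]
      · rw [(hfd x hx).fderiv]
        refine (norm_add_le _ _).trans ?_
        rw [norm_smul, norm_smul, Real.norm_eq_abs, Real.norm_eq_abs]
        have h3 : |X x| * ‖fderiv ℝ g x‖ ≤ 1 * (η * t) := mul_le_mul c0 b1 (norm_nonneg _) zero_le_one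
        have h4 : |g x| * ‖fderiv ℝ X x‖ ≤ (η * t * t) * (t⁻¹ * M) :=
          mul_le_mul b0 c1 (norm_nonneg _) (by positivity)
        have h5 : (η * t * t) * (t⁻¹ * M) = η * t * M := by field_simp
        rw [h5] at h4
        have h6 : η * t * M ≤ η * M := mul_le_mul_of_nonneg_right hηt hM0
        nlinarith [mul_nonneg hη0.le hM0]
      · rw [(hfe x hx).fderiv_eq]
        have d1 : DifferentiableAt ℝ (fun y => X y • fderiv ℝ g y) x := (hXd x).smul (hgd1 x hx)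
        have d2 : DifferentiableAt ℝ (fun y => g y • fderiv ℝ X y) x := (hgd0 x hx).smul (hXdd x)
        have e1 := g4 d1 d2
        have e2 := g2 (hXd x) (hgd1 x hx)
        have e3 := g2 (hgd0 x hx) (hXdd x)
        have f1 : |X x| * ‖fderiv ℝ (fderiv ℝ g) x‖ ≤ 1 * η :=
          mul_le_mul c0 b2 g0 zero_le_one
        have f2 : ‖fderiv ℝ X x‖ * ‖fderiv ℝ g x‖ ≤ (t⁻¹ * M) * (η * t) :=
          mul_le_mul c1 b1 (norm_nonneg _) (by positivity)
        have f3 : |g x| * ‖fderiv ℝ (fderiv ℝ X) x‖ ≤ (η * t * t) * (t⁻¹ * (t⁻¹ * M)) :=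
          mul_le_mul b0 c2 g0 (by positivity)
        have f4 : ‖fderiv ℝ g x‖ * ‖fderiv ℝ X x‖ ≤ (η * t) * (t⁻¹ * M) :=
          mul_le_mul b1 c1 (norm_nonneg _) (by positivity)
        have k2 : (t⁻¹ * M) * (η * t) = η * M := by field_simp
        have k3 : (η * t * t) * (t⁻¹ * (t⁻¹ * M)) = η * M := by field_simp
        have k4 : (η * t) * (t⁻¹ * M) = η * M := by field_simp
        rw [k2] at f2
        rw [k3] at f3
        rw [k4] at f4
        refine e1.trans ?_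
        nlinarith
    · have h3 := hloc x hx
      refine ⟨?_, ?_, ?_⟩
      · have h4 : X x * g x = 0 := h3.eq_of_nhds
        show |X x * g x| ≤ ε
        rw [h4, abs_zero]
        exact hε.le
      · exact (g11 h3).le.trans hε.le
      · exact (g11 (g10 h3)).le.trans hε.le
  · intro x hx
    have h3 : ε ≤ dist x q := not_lt.1 hx
    show X x * g x = 0
    rw [hXz x (by linarith), zero_mul]
  · have h3 : ball q (t / 3) ∈ 𝓝 q := ball_mem_nhds q (by positivity)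
    filter_upwards [h3] with x hx
    have h4 : X x = 1 := by
      refine χ.one_of_mem_closedBall ?_
      show dist (t⁻¹ • (x - q)) 0 ≤ 1 / 3
      rw [dist_zero_right, norm_smul, Real.norm_of_nonneg hti.le, ← dist_eq_norm]
      have h5 : dist x q < t / 3 := hx
      have h6 : t⁻¹ * dist x q ≤ t⁻¹ * (t / 3) := mul_le_mul_of_nonneg_left h5.le hti.le
      have h7 : t⁻¹ * (t / 3) = 1 / 3 := by field_simp
      linarith
    rw [h4, one_mul]

end Pool.Agent.H191.Corona
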