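import Pool.Agent.H191.Corona.Core

/-!
Equivalent germs, the ball of `ℂ²`.
-/

set_option autoImplicit false

open MeasureTheory Metric Set Filter Topology Complex

namespace Pool.Agent.H191.Corona

open Pool.Agent.P157G

/-- the Bezout equations of the family `F` have solutions on `A` with a common bound -/
def Solv {I : Type} {N : ℕ} (A : Set (ℂ × ℂ)) (F : I → Fin N → ℂ × ℂ → ℂ) : Prop :=
  ∃ C : ℝ, ∀ i, ∃ g : Fin N → ℂ × ℂ → ℂ, (∀ j, HBd A C (g j)) ∧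
    ∀ x ∈ A, ∑ j, F i j x * g j x = 1

/-- corona data -/
def Dat {I : Type} {N : ℕ} (A : Set (ℂ × ℂ)) (δ : ℝ) (F : I → Fin N → ℂ × ℂ → ℂ) : Prop :=
  ∀ i, (∀ j, HBd A 1 (F i j)) ∧ ∀ x ∈ A, δ ≤ ∑ j, ‖F i j x‖

/-- the corona theorem for families indexed by `I` -/
def Cor (I : Type) (D : Set (ℂ × ℂ)) : Prop :=
  ∀ (N : ℕ) (δ : ℝ) (F : I → Fin N → ℂ × ℂ → ℂ), 0 < δ → Dat D δ F → Solv D F

/-- the local corona theorem at `p` for families indexed by `I` -/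
def LCor (I : Type) (D : Set (ℂ × ℂ)) (p : ℂ × ℂ) : Prop :=
  ∀ (N : ℕ) (δ r : ℝ) (F : I → Fin N → ℂ × ℂ → ℂ), 0 < δ → 0 < r → Dat (D ∩ ball p r) δ F →
    ∃ s : ℝ, 0 < s ∧ Solv (D ∩ ball p s) F

theorem Solv.mono {I : Type} {N : ℕ} {A B : Set (ℂ × ℂ)} (hAB : A ⊆ B)
    {F : I → Fin N → ℂ × ℂ → ℂ} (h : Solv B F) : Solv A F := by
  obtain ⟨C, hC⟩ := h
  refine ⟨C, fun i => ?_⟩
  obtain ⟨g, hg, he⟩ := hC i
  exact ⟨g, fun j => ⟨(hg j).1.mono hAB, fun x hx => (hg j).2 x (hAB hx)⟩,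
    fun x hx => he x (hAB hx)⟩

/-- equivalence of the germs of `D` at `p` and of `D'` at `q` -/
def GEq (D : Set (ℂ × ℂ)) (p : ℂ × ℂ) (D' : Set (ℂ × ℂ)) (q : ℂ × ℂ) : Prop :=
  ∃ (φ ψ : ℂ × ℂ → ℂ × ℂ) (U V : Set (ℂ × ℂ)), IsOpen U ∧ IsOpen V ∧ p ∈ U ∧ φ p = q ∧
    DifferentiableOn ℂ φ U ∧ DifferentiableOn ℂ ψ V ∧ MapsTo φ U V ∧ MapsTo ψ V U ∧
    (∀ z ∈ U, ψ (φ z) = z) ∧ (∀ w ∈ V, φ (ψ w) = w) ∧ ∀ z ∈ U, z ∈ D ↔ φ z ∈ D'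

theorem GEq.symm {D D' : Set (ℂ × ℂ)} {p q : ℂ × ℂ} (h : GEq D p D' q) : GEq D' q D p := by
  obtain ⟨φ, ψ, U, V, hU, hV, hp, hpq, hφ, hψ, h1, h2, h3, h4, h5⟩ := h
  refine ⟨ψ, φ, V, U, hV, hU, ?_, ?_, hψ, hφ, h2, h1, h4, h3, fun w hw => ?_⟩
  · rw [← hpq]; exact h1 hp
  · rw [← hpq]; exact h3 p hp
  · rw [h5 _ (h2 hw), h4 w hw]

theorem GEq.local {D D' : Set (ℂ × ℂ)} {p q : ℂ × ℂ} (h : GEq D p D' q) {I : Type}
    (hl : LCor I D' q) : LCor I D p := by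
  obtain ⟨φ, ψ, U, V, hU, hV, hp, hpq, hφ, hψ, h1, h2, h3, h4, h5⟩ := h
  intro N δ r F hδ hr hF
  have hq : q ∈ V := by rw [← hpq]; exact h1 hp
  have hψq : ψ q = p := by rw [← hpq]; exact h3 p hp
  -- a ball around `q`
  obtain ⟨t, ht, htV⟩ : ∃ t : ℝ, 0 < t ∧ ball q t ⊆ V ∩ ψ ⁻¹' ball p r := by
    have hc : ContinuousAt ψ q := (hψ.continuousOn.continuousAt (hV.mem_nhds hq))
    have h6 : ψ ⁻¹' ball p r ∈ 𝓝 q := hc.preimage_mem_nhds (by rw [hψq]; exact ball_mem_nhds p hr)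
    exact Metric.mem_nhds_iff.1 (inter_mem (hV.mem_nhds hq) h6)
  have hm : ∀ w ∈ D' ∩ ball q t, ψ w ∈ D ∩ ball p r := by
    intro w hw
    have hwV := (htV hw.2).1
    refine ⟨?_, (htV hw.2).2⟩
    rw [h5 _ (h2 hwV), h4 w hwV]
    exact hw.1
  obtain ⟨s, hs, C, hC⟩ := hl N δ t (fun i j w => F i j (ψ w)) hδ ht (fun i => ⟨fun j =>
    ⟨((hF i).1 j).1.comp (hψ.mono fun w hw => (htV hw.2).1) hm, fun w hw =>
      ((hF i).1 j).2 _ (hm w hw)⟩, fun w hw => (hF i).2 _ (hm w hw)⟩)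
  -- a ball around `p`
  obtain ⟨u, hu, huU⟩ : ∃ u : ℝ, 0 < u ∧ ball p u ⊆ U ∩ φ ⁻¹' ball q s := by
    have hc : ContinuousAt φ p := (hφ.continuousOn.continuousAt (hU.mem_nhds hp))
    have h6 : φ ⁻¹' ball q s ∈ 𝓝 p := hc.preimage_mem_nhds (by rw [hpq]; exact ball_mem_nhds q hs)
    exact Metric.mem_nhds_iff.1 (inter_mem (hU.mem_nhds hp) h6)
  have hm' : ∀ z ∈ D ∩ ball p u, φ z ∈ D' ∩ ball q s := fun z hz =>
    ⟨(h5 z (huU hz.2).1).1 hz.1, (huU hz.2).2⟩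
  refine ⟨u, hu, C, fun i => ?_⟩
  obtain ⟨g, hg, he⟩ := hC i
  refine ⟨fun j z => g j (φ z), fun j => ⟨(hg j).1.comp (hφ.mono fun z hz => (huU hz.2).1) hm',
    fun z hz => (hg j).2 _ (hm' z hz)⟩, fun z hz => ?_⟩
  have h6 := he _ (hm' z hz)
  rw [← h6]
  refine Finset.sum_congr rfl fun j _ => ?_
  show F i j z * g j (φ z) = F i j (ψ (φ z)) * g j (φ z)
  rw [h3 z (huU hz.2).1]

theorem GEq.iff {D D' : Set (ℂ × ℂ)} {p q : ℂ × ℂ} (h : GEq D p D' q) (I : Type) :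
    LCor I D p ↔ LCor I D' q := ⟨h.symm.local, h.local⟩

/-- local and global corona theorem -/
theorem cor_iff {ρ : ℂ × ℂ → ℝ} (h : NF ρ) (I : Type) :
    Cor I {x | ρ x < 0} ↔ ∀ p ∈ frontier {x | ρ x < 0}, LCor I {x | ρ x < 0} p := by
  have hcl : closure {x | ρ x < 0} ⊆ {x | ρ x ≤ 0} :=
    closure_minimal (fun x (hx : ρ x < 0) => hx.le) (isClosed_le h.smooth.continuous continuous_const)
  constructor
  · intro hc p hp N δ r F hδ hr hF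
    obtain ⟨s, hs, C, hC⟩ := local_of_global h (I := I) (fun N δ F hδ hF => hc N δ F hδ hF)
      (hcl (frontier_subset_closure hp)) hr hδ hF
    exact ⟨s, hs, C, hC⟩
  · intro hl N δ F hδ hF
    refine glueB h (fun i j => (hF i).1 j) hδ (fun i x hx => (hF i).2 x hx) (fun p hp => ?_)
    obtain ⟨s, hs, C, hC⟩ := hl p hp N δ 1 F hδ one_pos (fun i => ⟨fun j =>
      ⟨((hF i).1 j).1.mono inter_subset_left, fun x hx => ((hF i).1 j).2 x hx.1⟩,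
      fun x hx => (hF i).2 x hx.1⟩)
    exact ⟨C, s, hs, hC⟩

end Pool.Agent.H191.Corona
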