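import Pool.Agent.H191.Corona.Crd2

/-!
A positive hermitian form of `ℂ²` in adapted coordinates; cutting off a function with vanishing 2-jet.
-/

set_option autoImplicit false

open MeasureTheory Metric Set Filter Topology Complex

namespace Pool.Agent.H191.Corona

open Pool.Agent.P157G

theorem herm_form (H : ℂ × ℂ →L[ℝ] ℂ × ℂ →L[ℝ] ℝ) (hsym : ∀ x y, H x y = H y x)
    (hJ : ∀ x y, H (Complex.I • x) (Complex.I • y) = H x y) (x y : ℂ × ℂ) :
    H x y = H (1, 0) (1, 0) * (x.1.re * y.1.re + x.1.im * y.1.im) +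
      H (0, 1) (0, 1) * (x.2.re * y.2.re + x.2.im * y.2.im) +
      H (1, 0) (0, 1) * (x.1.re * y.2.re + x.1.im * y.2.im + y.1.re * x.2.re + y.1.im * x.2.im) +
      H (1, 0) (0, Complex.I) *
        (x.1.re * y.2.im - x.1.im * y.2.re + y.1.re * x.2.im - y.1.im * x.2.re) := by
  have i1 : Complex.I • ((1 : ℂ), (0 : ℂ)) = ((Complex.I : ℂ), (0 : ℂ)) := by simp
  have i2 : Complex.I • ((0 : ℂ), (1 : ℂ)) = ((0 : ℂ), (Complex.I : ℂ)) := by simp
  have i3 : Complex.I • ((Complex.I : ℂ), (0 : ℂ)) = - ((1 : ℂ), (0 : ℂ)) := by simp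
  have i4 : Complex.I • ((0 : ℂ), (Complex.I : ℂ)) = - ((0 : ℂ), (1 : ℂ)) := by simp
  have a1 : H (Complex.I, 0) (Complex.I, 0) = H (1, 0) (1, 0) := by
    have := hJ (1, 0) (1, 0)
    rwa [i1] at this
  have a2 : H (0, Complex.I) (0, Complex.I) = H (0, 1) (0, 1) := by
    have := hJ (0, 1) (0, 1)
    rwa [i2] at this
  have a3 : H (Complex.I, 0) (0, Complex.I) = H (1, 0) (0, 1) := by
    have := hJ (1, 0) (0, 1)
    rwa [i1, i2] at this
  have a4 : H (1, 0) (Complex.I, 0) = 0 := by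
    have := hJ (1, 0) (Complex.I, 0)
    rw [i1, i3, map_neg, hsym (Complex.I, 0) (1, 0)] at this
    linarith
  have a5 : H (0, 1) (0, Complex.I) = 0 := by
    have := hJ (0, 1) (0, Complex.I)
    rw [i2, i4, map_neg, hsym (0, Complex.I) (0, 1)] at this
    linarith
  have a6 : H (Complex.I, 0) (0, 1) = - H (1, 0) (0, Complex.I) := by
    have := hJ (1, 0) (0, Complex.I)
    rw [i1, i4, map_neg] at this
    linarith
  have b1 := hsym (0, 1) (1, 0)
  have b2 := hsym (Complex.I, 0) (1, 0)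
  have b3 := hsym (0, Complex.I) (0, 1)
  have b4 := hsym (0, Complex.I) (1, 0)
  have b5 := hsym (0, 1) (Complex.I, 0)
  have b6 := hsym (0, Complex.I) (Complex.I, 0)
  have h1 : H x y = H (x.1.re • ((1 : ℂ), (0 : ℂ)) + x.1.im • ((Complex.I : ℂ), (0 : ℂ)) +
    x.2.re • ((0 : ℂ), (1 : ℂ)) + x.2.im • ((0 : ℂ), (Complex.I : ℂ)))
    (y.1.re • ((1 : ℂ), (0 : ℂ)) + y.1.im • ((Complex.I : ℂ), (0 : ℂ)) +
    y.2.re • ((0 : ℂ), (1 : ℂ)) + y.2.im • ((0 : ℂ), (Complex.I : ℂ))) := by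
    rw [← G7b2_dec x, ← G7b2_dec y]
  rw [h1]
  simp only [map_add, map_smul, add_apply, smul_apply, smul_eq_mul]
  rw [b1, b2, b3, b4, b5, b6, a1, a2, a3, a4, a5, a6]
  ring

theorem lin_alg (H : ℂ × ℂ →L[ℝ] ℂ × ℂ →L[ℝ] ℝ) (hsym : ∀ x y, H x y = H y x)
    (hJ : ∀ x y, H (Complex.I • x) (Complex.I • y) = H x y) (hpos : ∀ x : ℂ × ℂ, x ≠ 0 → 0 < H x x) :
    ∃ (c s : ℝ) (b : ℂ), 0 < c ∧ 0 < s ∧ ∀ y w : ℂ × ℂ,
      H ((c : ℂ) * y.1, (c : ℂ) * b * y.1 + (s : ℂ) * y.2)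
        ((c : ℂ) * w.1, (c : ℂ) * b * w.1 + (s : ℂ) * w.2) = c * dm y w := by
  have hf := herm_form H hsym hJ
  set α := H (1, 0) (1, 0) with hα
  set γ := H (0, 1) (0, 1) with hγ
  set P := H (1, 0) (0, 1) with hP
  set R := H (1, 0) (0, Complex.I) with hR
  have hγ0 : 0 < γ := hpos (0, 1) (by
    intro h
    have := congrArg Prod.snd h
    simp at this)
  obtain ⟨br, hbr⟩ : ∃ br : ℝ, γ * br = - P := ⟨- P / γ, by field_simp⟩
  obtain ⟨bi, hbi⟩ : ∃ bi : ℝ, γ * bi = - R := ⟨- R / γ, by field_simp⟩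
  have hκ : 0 < α - γ * (br ^ 2 + bi ^ 2) := by
    have h1 := hpos (1, ⟨br, bi⟩) (by
      intro h
      have := congrArg Prod.fst h
      simp at this)
    rw [hf] at h1
    simp only [Complex.one_re, Complex.one_im] at h1
    have h2 : P = - (γ * br) := by linarith
    have h3 : R = - (γ * bi) := by linarith
    rw [h2, h3] at h1
    nlinarith [h1]
  obtain ⟨c, hc0, hc⟩ : ∃ c : ℝ, 0 < c ∧ c * (α - γ * (br ^ 2 + bi ^ 2)) = 2 :=
    ⟨2 / (α - γ * (br ^ 2 + bi ^ 2)), by positivity, by field_simp⟩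
  obtain ⟨s, hs0, hs⟩ : ∃ s : ℝ, 0 < s ∧ s * s * γ = 2 * c :=
    ⟨√(2 * c / γ), Real.sqrt_pos.2 (by positivity), by
      rw [Real.mul_self_sqrt (by positivity)]
      field_simp⟩
  have h2 : P = - (γ * br) := by linarith
  have h3 : R = - (γ * bi) := by linarith
  refine ⟨c, s, ⟨br, bi⟩, hc0, hs0, fun y w => ?_⟩
  rw [hf, dm_apply, h2, h3]
  simp only [Complex.mul_re, Complex.mul_im, Complex.add_re, Complex.add_im, Complex.ofReal_re,
    Complex.ofReal_im, Complex.conj_re, Complex.conj_im]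
  linear_combination (c * (y.1.re * w.1.re + y.1.im * w.1.im)) * hc +
    (y.2.re * w.2.re + y.2.im * w.2.im) * hs

end Pool.Agent.H191.Corona
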