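import Pool.Agent.H191.Corona.Ball

/-!
Functions of class `C²` on `ℂ²` which are `o(|z - p|²)` and majorise a given function of this kind.
-/

set_option autoImplicit false

open Metric Set Filter Topology MeasureTheory intervalIntegral

namespace Pool.Agent.H191.Corona

/-- a monotone majorant -/
theorem maj0 {ω : ℝ → ℝ} (hω : Tendsto ω (𝓝[>] 0) (𝓝 0)) :
    ∃ m : ℝ → ℝ, Monotone m ∧ (∀ t, t ≤ 0 → m t = 0) ∧ (∀ t, 0 ≤ m t) ∧
      Tendsto m (𝓝 0) (𝓝 0) ∧ ∃ r : ℝ, 0 < r ∧ ∀ t, 0 < t → t < r → ω t ≤ m t := by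
  obtain ⟨w, hw⟩ : ∃ w : ℝ → ℝ, w = fun t => min |ω t| 1 := ⟨_, rfl⟩
  have hw0 : ∀ t, 0 ≤ w t := fun t => by rw [hw]; positivity
  have hw1 : ∀ t, w t ≤ 1 := fun t => by rw [hw]; exact min_le_right _ _
  have hbd : ∀ t, BddAbove (w '' Ioc 0 t) := fun t => ⟨1, by rintro _ ⟨x, -, rfl⟩; exact hw1 x⟩
  have hsmall : ∀ ε : ℝ, 0 < ε → ∃ δ : ℝ, 0 < δ ∧ ∀ t, 0 < t → t < δ → |ω t| < ε := by
    intro ε hε
    have h1 := (Metric.tendsto_nhdsWithin_nhds.1 hω) ε hε
    obtain ⟨δ, hδ, h2⟩ := h1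
    refine ⟨δ, hδ, fun t ht htδ => ?_⟩
    have h3 := h2 (show t ∈ Ioi (0 : ℝ) from ht) (by
      rw [Real.dist_eq, sub_zero, abs_of_pos ht]; exact htδ)
    rwa [Real.dist_eq, sub_zero] at h3
  have hne : ∀ t, t ≤ 0 → sSup (w '' Ioc 0 t) = 0 := fun t ht => by
    rw [Ioc_eq_empty (not_lt.2 ht), image_empty, Real.sSup_empty]
  have h0 : ∀ t, 0 ≤ sSup (w '' Ioc 0 t) := fun t =>
    Real.sSup_nonneg (by rintro _ ⟨x, -, rfl⟩; exact hw0 x)
  refine ⟨fun t => sSup (w '' Ioc 0 t), ?_, hne, h0, ?_, ?_⟩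
  · intro s t hst
    show sSup (w '' Ioc 0 s) ≤ sSup (w '' Ioc 0 t)
    rcases le_or_gt s 0 with hs | hs
    · rw [hne s hs]; exact h0 t
    · exact csSup_le_csSup (hbd t) ⟨w s, s, ⟨hs, le_rfl⟩, rfl⟩ (image_mono (Ioc_subset_Ioc_right hst))
  · rw [Metric.tendsto_nhds_nhds]
    intro ε hε
    obtain ⟨δ, hδ, h2⟩ := hsmall (ε / 2) (by positivity)
    refine ⟨δ, hδ, fun {t} ht => ?_⟩
    rw [Real.dist_eq, sub_zero] at ht ⊢
    rw [abs_of_nonneg (h0 t)]
    refine lt_of_le_of_lt (Real.sSup_le ?_ (by positivity)) (half_lt_self hε)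
    rintro _ ⟨x, hx, rfl⟩
    rw [hw]
    exact (min_le_left _ _).trans (h2 x hx.1 (hx.2.trans_lt ((le_abs_self t).trans_lt ht))).le
  · obtain ⟨δ, hδ, h2⟩ := hsmall 1 one_pos
    refine ⟨δ, hδ, fun t ht htδ => ?_⟩
    have h3 := h2 t ht htδ
    have h4 : w t = |ω t| := by rw [hw]; exact min_eq_left h3.le
    refine (le_abs_self _).trans ?_
    rw [← h4]
    exact le_csSup (hbd t) ⟨t, ⟨ht, le_rfl⟩, rfl⟩

/-- averages over `[s, 2 s]` -/
theorem maj1 {m : ℝ → ℝ} (hm : Monotone m) (h0 : ∀ t, t ≤ 0 → m t = 0) (hn : ∀ t, 0 ≤ m t)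
    (ht : Tendsto m (𝓝 0) (𝓝 0)) :
    ∃ a : ℝ → ℝ, Continuous a ∧ Monotone a ∧ (∀ t, t ≤ 0 → a t = 0) ∧ ∀ t, 0 ≤ t → m t ≤ a t ∧
      a t ≤ m (2 * t) := by
  have hint : ∀ x y : ℝ, IntervalIntegrable m volume x y := fun x y => hm.intervalIntegrable
  obtain ⟨a, ha⟩ : ∃ a : ℝ → ℝ, a = fun s => ∫ x in (1 : ℝ)..2, m (s * x) := ⟨_, rfl⟩
  have hint' : ∀ s : ℝ, IntervalIntegrable (fun x => m (s * x)) volume 1 2 := by
    intro s
    rcases le_total 0 s with hs | hs
    · have h1 : Monotone fun x => m (s * x) := fun x y hxy => hm (mul_le_mul_of_nonneg_left hxy hs)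
      exact h1.intervalIntegrable
    · have h1 : Antitone fun x => m (s * x) := fun x y hxy => hm (mul_le_mul_of_nonpos_left hxy hs)
      exact h1.intervalIntegrable
  have ha0 : ∀ t, t ≤ 0 → a t = 0 := by
    intro t ht
    rw [ha]
    show ∫ x in (1 : ℝ)..2, m (t * x) = 0
    rw [intervalIntegral.integral_congr (g := fun _ => (0 : ℝ)) (fun x hx => ?_)]
    · simp
    · rw [uIcc_of_le (by norm_num)] at hx
      exact h0 _ (mul_nonpos_of_nonpos_of_nonneg ht (by linarith [hx.1]))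
  have hb : ∀ t, 0 ≤ t → m t ≤ a t ∧ a t ≤ m (2 * t) := by
    intro t ht
    rw [ha]
    have h1 : ∫ x in (1 : ℝ)..2, m t ≤ ∫ x in (1 : ℝ)..2, m (t * x) :=
      intervalIntegral.integral_mono_on (by norm_num) (by simp) (hint' t)
        fun x hx => hm (by nlinarith [hx.1])
    have h2 : ∫ x in (1 : ℝ)..2, m (t * x) ≤ ∫ x in (1 : ℝ)..2, m (2 * t) :=
      intervalIntegral.integral_mono_on (by norm_num) (hint' t) (by simp)
        fun x hx => hm (by nlinarith [hx.2])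
    rw [intervalIntegral.integral_const] at h1 h2
    norm_num at h1 h2
    exact ⟨h1, h2⟩
  have hmono : Monotone a := by
    intro s t hst
    rcases le_total s 0 with hs | hs
    · rw [ha0 s hs]
      rcases le_total t 0 with ht' | ht'
      · rw [ha0 t ht']
      · exact (hn t).trans (hb t ht').1
    · rw [ha]
      exact intervalIntegral.integral_mono_on (by norm_num) (hint' s) (hint' t)
        fun x hx => hm (mul_le_mul_of_nonneg_right hst (by linarith [hx.1]))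
  refine ⟨a, ?_, hmono, ha0, hb⟩
  have hP : Continuous fun x => ∫ t in (0 : ℝ)..x, m t := intervalIntegral.continuous_primitive hint 0
  rw [continuous_iff_continuousAt]
  intro s
  rcases lt_trichotomy s 0 with hs | hs | hs
  · have h1 : a =ᶠ[𝓝 s] fun _ => 0 := by
      filter_upwards [Iio_mem_nhds hs] with t ht
      exact ha0 t (le_of_lt ht)
    exact continuousAt_const.congr h1.symm
  · subst hs
    have h1 : a 0 = 0 := ha0 0 le_rfl
    have h2 : Tendsto (fun t : ℝ => m (2 * |t|)) (𝓝 0) (𝓝 0) := by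
      refine ht.comp ?_
      have : Tendsto (fun t : ℝ => 2 * |t|) (𝓝 0) (𝓝 (2 * |(0 : ℝ)|)) := by
        exact (continuous_const.mul continuous_abs).tendsto 0
      rwa [abs_zero, mul_zero] at this
    show Tendsto a (𝓝 0) (𝓝 (a 0))
    rw [h1]
    refine squeeze_zero (fun t => ?_) (fun t => ?_) h2
    · rcases le_total t 0 with ht' | ht'
      · rw [ha0 t ht']
      · exact (hn t).trans (hb t ht').1
    · rcases le_total t 0 with ht' | ht'
      · rw [ha0 t ht']; exact hn _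
      · rw [abs_of_nonneg ht']; exact (hb t ht').2
  · have h1 : a =ᶠ[𝓝 s] fun s => s⁻¹ * ((∫ t in (0 : ℝ)..(2 * s), m t) - ∫ t in (0 : ℝ)..s, m t) := by
      filter_upwards [Ioi_mem_nhds hs] with t ht
      have ht' : (0 : ℝ) < t := ht
      rw [ha]
      show ∫ x in (1 : ℝ)..2, m (t * x) = _
      rw [intervalIntegral.integral_comp_mul_left _ ht'.ne', mul_one, smul_eq_mul,
        intervalIntegral.integral_interval_sub_left (hint _ _) (hint _ _), mul_comm t 2]
    refine ContinuousAt.congr ?_ h1.symm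
    have h2 : Continuous fun s : ℝ => ∫ t in (0 : ℝ)..(2 * s), m t :=
      hP.comp (continuous_const.mul continuous_id)
    exact (continuousAt_inv₀ hs.ne').mul (h2.continuousAt.sub hP.continuousAt)

/-- averages of a continuous function -/
theorem maj2 {a : ℝ → ℝ} (hc : Continuous a) (hm : Monotone a) (h0 : ∀ t, t ≤ 0 → a t = 0) :
    ∃ b : ℝ → ℝ, Continuous b ∧ Monotone b ∧ (∀ t, t ≤ 0 → b t = 0) ∧
      (∀ t, 0 ≤ t → a (t / 2) / 2 ≤ b t ∧ b t ≤ a t) ∧
      ∀ t, 0 < t → HasDerivAt b ((a t - b t) / t) t := by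
  have hn : ∀ t, 0 ≤ a t := fun t => by
    rcases le_total t 0 with ht | ht
    · rw [h0 t ht]
    · rw [← h0 0 le_rfl]; exact hm ht
  obtain ⟨b, hb⟩ : ∃ b : ℝ → ℝ, b = fun s => ∫ x in (0 : ℝ)..1, a (s * x) := ⟨_, rfl⟩
  have hint : ∀ s x y : ℝ, IntervalIntegrable (fun x => a (s * x)) volume x y := fun s x y =>
    (hc.comp (continuous_const.mul continuous_id)).intervalIntegrable _ _
  have hb0 : ∀ t, t ≤ 0 → b t = 0 := by
    intro t ht
    rw [hb]
    show ∫ x in (0 : ℝ)..1, a (t * x) = 0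
    rw [intervalIntegral.integral_congr (g := fun _ => (0 : ℝ)) (fun x hx => ?_)]
    · simp
    · rw [uIcc_of_le (by norm_num)] at hx
      exact h0 _ (mul_nonpos_of_nonpos_of_nonneg ht hx.1)
  have hbm : Monotone b := by
    intro s t hst
    rw [hb]
    exact intervalIntegral.integral_mono_on (by norm_num) (hint _ _ _) (hint _ _ _)
      fun x hx => hm (mul_le_mul_of_nonneg_right hst hx.1)
  refine ⟨b, ?_, hbm, hb0, fun t ht => ⟨?_, ?_⟩, fun t ht => ?_⟩
  · rw [hb]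
    exact intervalIntegral.continuous_parametric_intervalIntegral_of_continuous'
      (f := fun s x => a (s * x)) (by
        exact hc.comp (continuous_fst.mul continuous_snd)) 0 1
  · rw [hb]
    show a (t / 2) / 2 ≤ ∫ x in (0 : ℝ)..1, a (t * x)
    rw [← intervalIntegral.integral_add_adjacent_intervals (hint t 0 (1 / 2)) (hint t (1 / 2) 1)]
    have h1 : 0 ≤ ∫ x in (0 : ℝ)..(1 / 2), a (t * x) :=
      intervalIntegral.integral_nonneg (by norm_num) fun x _ => hn _
    have h2 : ∫ x in (1 / 2 : ℝ)..1, a (t / 2) ≤ ∫ x in (1 / 2 : ℝ)..1, a (t * x) :=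
      intervalIntegral.integral_mono_on (by norm_num) (by simp) (hint _ _ _)
        fun x hx => hm (by nlinarith [hx.1])
    rw [intervalIntegral.integral_const, smul_eq_mul] at h2
    norm_num at h2
    linarith
  · rw [hb]
    have h2 : ∫ x in (0 : ℝ)..1, a (t * x) ≤ ∫ x in (0 : ℝ)..1, a t :=
      intervalIntegral.integral_mono_on (by norm_num) (hint _ _ _) (by simp)
        fun x hx => hm (by nlinarith [hx.2])
    rw [intervalIntegral.integral_const, smul_eq_mul] at h2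
    norm_num at h2
    exact h2
  · have h1 : b =ᶠ[𝓝 t] fun s => s⁻¹ * ∫ x in (0 : ℝ)..s, a x := by
      filter_upwards [Ioi_mem_nhds ht] with s hs
      have hs' : (0 : ℝ) < s := hs
      rw [hb]
      show ∫ x in (0 : ℝ)..1, a (s * x) = _
      rw [intervalIntegral.integral_comp_mul_left _ hs'.ne', mul_one, mul_zero, smul_eq_mul]
    have h2 : HasDerivAt (fun s => ∫ x in (0 : ℝ)..s, a x) (a t) t :=
      intervalIntegral.integral_hasDerivAt_right (hc.intervalIntegrable _ _)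
        hc.stronglyMeasurable.stronglyMeasurableAtFilter hc.continuousAt
    have h3 := (hasDerivAt_inv ht.ne').mul h2
    refine (h3.congr_of_eventuallyEq h1).congr_deriv ?_
    rw [h1.eq_of_nhds]
    field_simp
    ring


/-- the square of the Euclidean distance from `p` -/
noncomputable def uu (p z : ℂ × ℂ) : ℝ := mB (z - p) + 1

theorem uu_eq (p z : ℂ × ℂ) : uu p z = ‖z.1 - p.1‖ ^ 2 + ‖z.2 - p.2‖ ^ 2 := by
  unfold uu mB
  rw [Prod.fst_sub, Prod.snd_sub]
  ring

theorem uu_nonneg (p z : ℂ × ℂ) : 0 ≤ uu p z := by rw [uu_eq]; positivity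

theorem le_uu (p z : ℂ × ℂ) : ‖z - p‖ ^ 2 ≤ uu p z := by
  rw [uu_eq]
  have h : ‖z - p‖ = max ‖z.1 - p.1‖ ‖z.2 - p.2‖ := rfl
  rw [h]
  rcases le_total ‖z.1 - p.1‖ ‖z.2 - p.2‖ with h1 | h1
  · rw [max_eq_right h1]
    have := sq_nonneg ‖z.1 - p.1‖
    linarith
  · rw [max_eq_left h1]
    have := sq_nonneg ‖z.2 - p.2‖
    linarith

theorem uu_pos {p z : ℂ × ℂ} (h : z ≠ p) : 0 < uu p z := by
  have h1 : 0 < ‖z - p‖ := norm_pos_iff.2 (sub_ne_zero.2 h)
  exact lt_of_lt_of_le (by positivity) (le_uu p z)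

theorem uu_self (p : ℂ × ℂ) : uu p p = 0 := by rw [uu_eq]; simp

theorem uu_contDiff (p : ℂ × ℂ) (n : WithTop ℕ∞) : ContDiff ℝ n (uu p) :=
  ((mB_contDiff n).comp (contDiff_id.sub contDiff_const)).add contDiff_const

theorem uu_deriv (p z : ℂ × ℂ) : HasFDerivAt (uu p) (dm (z - p)) z := by
  have h1 : HasFDerivAt (fun z : ℂ × ℂ => z - p) (ContinuousLinearMap.id ℝ (ℂ × ℂ)) z :=
    (hasFDerivAt_id z).sub_const p
  have h2 := (mB_deriv (z - p)).comp z h1
  rw [ContinuousLinearMap.comp_id] at h2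
  exact h2.add_const 1

theorem maj3 {a b : ℝ → ℝ} (hb : Continuous b) (hb0 : b 0 = 0) (ha : Continuous a) (ha0 : a 0 = 0)
    (hd : ∀ t, 0 < t → HasDerivAt b ((a t - b t) / t) t) (p : ℂ × ℂ) :
    ContDiff ℝ 1 (fun z => b (uu p z) • dm (z - p)) := by
  have huc : Continuous (uu p) := (uu_contDiff p 0).continuous
  have hdm : ∀ z : ℂ × ℂ, HasFDerivAt (fun z => dm (z - p)) dmL z := fun z => by
    have h1 : HasFDerivAt (fun z : ℂ × ℂ => z - p) (ContinuousLinearMap.id ℝ (ℂ × ℂ)) z :=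
      (hasFDerivAt_id z).sub_const p
    have h2 := (dmL.hasFDerivAt (x := z - p)).comp z h1
    rw [ContinuousLinearMap.comp_id] at h2
    exact h2
  have hdmc : Continuous fun z => dm (z - p) := by
    rw [continuous_iff_continuousAt]
    exact fun z => (hdm z).continuousAt
  obtain ⟨K', hK'⟩ : ∃ K' : ℂ × ℂ → (ℂ × ℂ →L[ℝ] (ℂ × ℂ →L[ℝ] ℝ)), K' = fun z =>
      b (uu p z) • dmL + (((a (uu p z) - b (uu p z)) / uu p z) • dm (z - p)).smulRight
        (dm (z - p)) := ⟨_, rfl⟩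
  have hdm0 : dm (p - p) = 0 := by
    have := dmL_apply (p - p)
    rw [sub_self, map_zero] at this
    rw [sub_self]
    exact this.symm
  have hK'p : K' p = 0 := by
    rw [hK']
    show b (uu p p) • dmL + (((a (uu p p) - b (uu p p)) / uu p p) • dm (p - p)).smulRight
        (dm (p - p)) = 0
    rw [uu_self, hb0, hdm0]
    ext v w <;> simp
  have hder : ∀ z, HasFDerivAt (fun z => b (uu p z) • dm (z - p)) (K' z) z := by
    intro z
    by_cases hz : z = p
    · subst hz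
      rw [hK'p, hasFDerivAt_iff_isLittleO]
      have h1 : (fun x => b (uu z x)) =o[𝓝 z] fun _ => (1 : ℝ) := by
        rw [Asymptotics.isLittleO_one_iff]
        have : Tendsto (fun x => b (uu z x)) (𝓝 z) (𝓝 (b (uu z z))) :=
          (hb.comp huc).tendsto z
        rwa [uu_self, hb0] at this
      have h2 : (fun x => dm (x - z)) =O[𝓝 z] fun x => x - z :=
        dmL.isBigO_sub (𝓝 z) z |>.congr_left fun x => rfl
      have h3 := h1.smul_isBigO h2
      refine (h3.congr (fun x => ?_) (fun x => ?_))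
      · rw [hdm0]
        simp
      · simp
    · have hu := uu_pos hz
      have h1 : HasFDerivAt (fun z => b (uu p z))
          (((a (uu p z) - b (uu p z)) / uu p z) • dm (z - p)) z :=
        (hd _ hu).comp_hasFDerivAt z (uu_deriv p z)
      have h2 := h1.smul (hdm z)
      rw [hK']
      exact h2
  have hfd : fderiv ℝ (fun z => b (uu p z) • dm (z - p)) = K' := funext fun z => (hder z).fderiv
  rw [contDiff_one_iff_fderiv]
  refine ⟨fun z => (hder z).differentiableAt, ?_⟩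
  rw [hfd, continuous_iff_continuousAt]
  intro z
  by_cases hz : z = p
  · subst hz
    show Tendsto K' (𝓝 z) (𝓝 (K' z))
    rw [hK'p]
    have h1 : Tendsto (fun x => |b (uu z x)| * ‖dmL‖ +
        |a (uu z x) - b (uu z x)| * ‖dmL‖ ^ 2) (𝓝 z) (𝓝 0) := by
      have h2 : Continuous fun x => |b (uu z x)| * ‖dmL‖ +
          |a (uu z x) - b (uu z x)| * ‖dmL‖ ^ 2 := by fun_prop
      have h3 := h2.tendsto z
      simp only [uu_self, hb0, ha0, sub_zero, abs_zero, zero_mul, add_zero] at h3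
      exact h3
    suffices hbound : ∀ x, ‖K' x‖ ≤ |b (uu z x)| * ‖dmL‖ + |a (uu z x) - b (uu z x)| * ‖dmL‖ ^ 2 from
      @squeeze_zero_norm _ (ℂ × ℂ →L[ℝ] (ℂ × ℂ →L[ℝ] ℝ)) _ K' _ _ hbound h1
    intro x
    obtain ⟨X, hX⟩ : ∃ X : ℂ × ℂ →L[ℝ] (ℂ × ℂ →L[ℝ] ℝ), X = b (uu z x) • dmL := ⟨_, rfl⟩
    obtain ⟨Y, hY⟩ : ∃ Y : ℂ × ℂ →L[ℝ] (ℂ × ℂ →L[ℝ] ℝ), Y =
      (((a (uu z x) - b (uu z x)) / uu z x) • dm (x - z)).smulRight (dm (x - z)) := ⟨_, rfl⟩
    have hXY : K' x = X + Y := by rw [hK', hX, hY]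
    have h10 : ‖X + Y‖ ≤ ‖X‖ + ‖Y‖ := norm_add_le X Y
    rw [hXY]
    refine h10.trans (add_le_add ?_ ?_)
    · rw [hX]
      refine ContinuousLinearMap.opNorm_le_bound _ (by positivity) fun v => ?_
      have h11 : (b (uu z x) • dmL) v = b (uu z x) • dmL v := rfl
      rw [h11, norm_smul, Real.norm_eq_abs, mul_assoc]
      exact mul_le_mul_of_nonneg_left (dmL.le_opNorm v) (abs_nonneg _)
    · rw [hY, ContinuousLinearMap.norm_smulRight_apply, norm_smul, Real.norm_eq_abs, abs_div,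
        abs_of_nonneg (uu_nonneg z x)]
      by_cases hx : uu z x = 0
      · rw [hx, div_zero, zero_mul, zero_mul]
        positivity
      · have hxp : 0 < uu z x := lt_of_le_of_ne (uu_nonneg z x) (Ne.symm hx)
        have h4 : ‖dm (x - z)‖ ≤ ‖dmL‖ * ‖x - z‖ := dmL.le_opNorm (x - z)
        have h5 : ‖dm (x - z)‖ * ‖dm (x - z)‖ ≤ ‖dmL‖ ^ 2 * uu z x := by
          have h6 := mul_le_mul h4 h4 (norm_nonneg _) (by positivity)
          have h7 := mul_le_mul_of_nonneg_left (le_uu z x) (sq_nonneg ‖dmL‖)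
          have h8 : ‖dmL‖ * ‖x - z‖ * (‖dmL‖ * ‖x - z‖) = ‖dmL‖ ^ 2 * ‖x - z‖ ^ 2 := by ring
          linarith
        have h9 : |a (uu z x) - b (uu z x)| / uu z x * ‖dm (x - z)‖ * ‖dm (x - z)‖ =
            |a (uu z x) - b (uu z x)| / uu z x * (‖dm (x - z)‖ * ‖dm (x - z)‖) := by ring
        rw [h9]
        refine (mul_le_mul_of_nonneg_left h5 (by positivity)).trans (le_of_eq ?_)
        field_simp
  · have hu := (uu_pos hz).ne'
    rw [hK']
    have c1 : ContinuousAt (fun z => b (uu p z)) z := (hb.comp huc).continuousAt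
    have c2 : ContinuousAt (fun z => (a (uu p z) - b (uu p z)) / uu p z) z :=
      (((ha.comp huc).sub (hb.comp huc)).continuousAt).div huc.continuousAt hu
    have c3 : ContinuousAt (fun z => dm (z - p)) z := hdmc.continuousAt
    have c4 : ContinuousAt (fun z => ((a (uu p z) - b (uu p z)) / uu p z) • dm (z - p)) z :=
      c2.smul c3
    have c5 : ContinuousAt (fun z => (((a (uu p z) - b (uu p z)) / uu p z) • dm (z - p)).smulRight
        (dm (z - p))) z := by
      have h1 : Continuous fun w : (ℂ × ℂ →L[ℝ] ℝ) × (ℂ × ℂ →L[ℝ] ℝ) => w.1.smulRight w.2 := by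
        exact (ContinuousLinearMap.smulRightL ℝ (ℂ × ℂ) (ℂ × ℂ →L[ℝ] ℝ)).continuous₂
      exact h1.continuousAt.comp (f := fun z => (((a (uu p z) - b (uu p z)) / uu p z) • dm (z - p),
        dm (z - p))) (c4.prodMk c3)
    exact (c1.smul continuousAt_const).add c5

theorem majorant {ω : ℝ → ℝ} (hω : Tendsto ω (𝓝[>] 0) (𝓝 0)) (p : ℂ × ℂ) :
    ∃ (h : ℂ × ℂ → ℝ) (m : ℝ → ℝ), ContDiff ℝ 2 h ∧ (∀ z, z ≠ p → 0 < h z) ∧ h p = 0 ∧
      Monotone m ∧ (∀ t, 0 ≤ m t) ∧ Tendsto m (𝓝 0) (𝓝 0) ∧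
      (∀ z, h z ≤ m (2 * uu p z) * uu p z + uu p z ^ 2) ∧
      ∃ r : ℝ, 0 < r ∧ ∀ z, z ≠ p → uu p z < r → ω √(uu p z) * uu p z ≤ h z := by
  have hω' : Tendsto (fun t => 4 * ω √(4 * t)) (𝓝[>] 0) (𝓝 0) := by
    have h1 : Tendsto (fun t : ℝ => √(4 * t)) (𝓝[>] 0) (𝓝[>] 0) := by
      refine tendsto_nhdsWithin_iff.2 ⟨?_, ?_⟩
      · have h2 : Continuous fun t : ℝ => √(4 * t) := by fun_prop
        have h3 := h2.tendsto 0
        simp only [mul_zero, Real.sqrt_zero] at h3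
        exact h3.mono_left nhdsWithin_le_nhds
      · filter_upwards [self_mem_nhdsWithin] with t ht
        have ht' : (0 : ℝ) < t := ht
        exact Real.sqrt_pos.2 (by positivity)
    have h2 := (hω.comp h1).const_mul 4
    rwa [mul_zero] at h2
  obtain ⟨m, hm, hm0, hmn, hmt, r, hr, hmr⟩ := maj0 hω'
  obtain ⟨a, hac, ham, ha0, hab⟩ := maj1 hm hm0 hmn hmt
  obtain ⟨b, hbc, hbm, hb0, hbb, hbd⟩ := maj2 hac ham ha0
  obtain ⟨H, hH⟩ : ∃ H : ℝ → ℝ, H = fun s => ∫ x in (0 : ℝ)..s, b x := ⟨_, rfl⟩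
  have hHd : ∀ s, HasDerivAt H (b s) s := fun s => by
    rw [hH]
    exact intervalIntegral.integral_hasDerivAt_right (hbc.intervalIntegrable _ _)
      hbc.stronglyMeasurable.stronglyMeasurableAtFilter hbc.continuousAt
  have hbn : ∀ t, 0 ≤ b t := fun t => by
    rcases le_total t 0 with ht | ht
    · rw [hb0 t ht]
    · rw [← hb0 0 le_rfl]; exact hbm ht
  have hint : ∀ x y : ℝ, IntervalIntegrable b volume x y := fun x y => hbc.intervalIntegrable _ _
  have hHl : ∀ s, 0 ≤ s → s * m (s / 4) / 4 ≤ H s := by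
    intro s hs
    rw [hH]
    show s * m (s / 4) / 4 ≤ ∫ x in (0 : ℝ)..s, b x
    rw [← intervalIntegral.integral_add_adjacent_intervals (hint 0 (s / 2)) (hint (s / 2) s)]
    have h1 : 0 ≤ ∫ x in (0 : ℝ)..(s / 2), b x :=
      intervalIntegral.integral_nonneg (by linarith) fun x _ => hbn _
    have h2 : ∫ x in (s / 2)..s, b (s / 2) ≤ ∫ x in (s / 2)..s, b x :=
      intervalIntegral.integral_mono_on (by linarith) (by simp) (hint _ _) fun x hx => hbm hx.1
    rw [intervalIntegral.integral_const, smul_eq_mul] at h2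
    have h3 := (hbb (s / 2) (by linarith)).1
    have h4 := (hab (s / 2 / 2) (by linarith)).1
    have h5 : s / 2 / 2 = s / 4 := by ring
    rw [h5] at h3 h4
    have h6 : m (s / 4) / 2 ≤ b (s / 2) := by linarith
    have h7 := mul_le_mul_of_nonneg_left h6 (show 0 ≤ s / 2 by linarith)
    have h8 : (s - s / 2) * b (s / 2) = s / 2 * b (s / 2) := by ring
    rw [h8] at h2
    linarith
  have hHu : ∀ s, 0 ≤ s → H s ≤ m (2 * s) * s := by
    intro s hs
    rw [hH]
    show ∫ x in (0 : ℝ)..s, b x ≤ _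
    have h2 : ∫ x in (0 : ℝ)..s, b x ≤ ∫ x in (0 : ℝ)..s, b s :=
      intervalIntegral.integral_mono_on hs (hint _ _) (by simp) fun x hx => hbm hx.2
    rw [intervalIntegral.integral_const, smul_eq_mul, sub_zero] at h2
    have h3 := (hbb s hs).2
    have h4 := (hab s hs).2
    refine h2.trans ?_
    rw [mul_comm]
    exact mul_le_mul_of_nonneg_right (h3.trans h4) hs
  have hHn : ∀ s, 0 ≤ s → 0 ≤ H s := fun s hs => by
    have h1 := hHl s hs
    have h2 := hmn (s / 4)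
    have h3 : 0 ≤ s * m (s / 4) / 4 := by positivity
    linarith
  have hcd : ContDiff ℝ 2 (fun z => H (uu p z)) := by
    have hder : ∀ z, HasFDerivAt (fun z => H (uu p z)) (b (uu p z) • dm (z - p)) z := fun z =>
      (hHd _).comp_hasFDerivAt z (uu_deriv p z)
    have hfd : fderiv ℝ (fun z => H (uu p z)) = fun z => b (uu p z) • dm (z - p) :=
      funext fun z => (hder z).fderiv
    have h2 : ((2 : ℕ∞) : WithTop ℕ∞) = 1 + 1 := by norm_num
    rw [show (2 : WithTop ℕ∞) = 1 + 1 by norm_num, contDiff_succ_iff_fderiv]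
    refine ⟨fun z => (hder z).differentiableAt, fun h => ?_, ?_⟩
    · exact absurd h (by simp)
    · rw [hfd]
      exact maj3 hbc (hb0 0 le_rfl) hac (ha0 0 le_rfl) hbd p
  refine ⟨fun z => H (uu p z) + uu p z ^ 2, m, hcd.add ((uu_contDiff p 2).pow 2), fun z hz => ?_, ?_,
    hm, hmn, hmt, fun z => ?_, 4 * r, by positivity, fun z hz hzr => ?_⟩
  · have h1 := hHn _ (uu_nonneg p z)
    have h2 := uu_pos hz
    show 0 < H (uu p z) + uu p z ^ 2
    positivity
  · show H (uu p p) + uu p p ^ 2 = 0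
    rw [uu_self, hH]
    simp
  · exact add_le_add (hHu _ (uu_nonneg p z)) le_rfl
  · have h1 := uu_pos hz
    have h2 := hHl _ h1.le
    have h3 := hmr (uu p z / 4) (by positivity) (by linarith)
    have h4 : 4 * (uu p z / 4) = uu p z := by ring
    rw [h4] at h3
    have h5 := mul_le_mul_of_nonneg_right h3 h1.le
    show ω √(uu p z) * uu p z ≤ H (uu p z) + uu p z ^ 2
    nlinarith [sq_nonneg (uu p z)]

end Pool.Agent.H191.Corona
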