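import Pool.Agent.H191.Corona.Norm

/-!
Small perturbations of the ball are convex.
-/

set_option autoImplicit false

open MeasureTheory Metric Set Filter Topology Complex

namespace Pool.Agent.H191.Corona

open Pool.Agent.P157G

theorem nsr (f g : ℂ × ℂ →L[ℝ] ℂ × ℂ →L[ℝ] ℝ) : ‖f - g‖ = ‖g - f‖ := by
  have h : ∀ f g : ℂ × ℂ →L[ℝ] ℂ × ℂ →L[ℝ] ℝ, ‖f - g‖ ≤ ‖g - f‖ := by
    intro f g
    refine ContinuousLinearMap.opNorm_le_bound _ (ContinuousLinearMap.opNorm_nonneg _) fun v => ?_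
    have h1 : (f - g) v = - ((g - f) v) := by
      rw [_root_.sub_apply, _root_.sub_apply, neg_sub]
    rw [h1, norm_neg]
    exact (g - f).le_opNorm v
  exact le_antisymm (h f g) (h g f)

theorem line_convex {r : ℂ × ℂ → ℝ} (hr : ContDiff ℝ 2 r)
    (h : ∀ z v : ℂ × ℂ, 0 ≤ fderiv ℝ (fderiv ℝ r) z v v) (x v : ℂ × ℂ) :
    ConvexOn ℝ univ (fun t : ℝ => r (x + t • v)) := by
  have hA : ∀ t : ℝ, HasDerivAt (fun t : ℝ => x + t • v) v t := by
    intro t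
    have h1 : HasDerivAt (fun t : ℝ => t • v) ((1 : ℝ) • v) t := (hasDerivAt_id t).smul_const v
    rw [one_smul] at h1
    exact h1.const_add x
  have hd : Differentiable ℝ r := hr.differentiable (by norm_num)
  have hdd : Differentiable ℝ (fderiv ℝ r) :=
    (hr.fderiv_right (m := 1) (by norm_num)).differentiable (by norm_num)
  have h1 : ∀ t : ℝ, HasDerivAt (fun t : ℝ => r (x + t • v)) (fderiv ℝ r (x + t • v) v) t :=
    fun t => (hd _).hasFDerivAt.comp_hasDerivAt t (hA t)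
  have h2 : ∀ t : ℝ, HasDerivAt (fun t : ℝ => fderiv ℝ r (x + t • v) v)
      (fderiv ℝ (fderiv ℝ r) (x + t • v) v v) t := by
    intro t
    have h3 : HasDerivAt (fun t : ℝ => fderiv ℝ r (x + t • v))
        (fderiv ℝ (fderiv ℝ r) (x + t • v) v) t := (hdd _).hasFDerivAt.comp_hasDerivAt t (hA t)
    have h4 := h3.clm_apply (hasDerivAt_const t v)
    rwa [map_zero, add_zero] at h4
  have h3 : deriv (fun t : ℝ => r (x + t • v)) = fun t => fderiv ℝ r (x + t • v) v :=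
    funext fun t => (h1 t).deriv
  refine convexOn_univ_of_deriv2_nonneg (fun t => (h1 t).differentiableAt) ?_ ?_
  · rw [h3]
    exact fun t => (h2 t).differentiableAt
  · intro t
    show 0 ≤ deriv (deriv (fun t : ℝ => r (x + t • v))) t
    rw [h3, (h2 t).deriv]
    exact h _ _

theorem convex_lt {r : ℂ × ℂ → ℝ} (hr : ContDiff ℝ 2 r)
    (h : ∀ z v : ℂ × ℂ, 0 ≤ fderiv ℝ (fderiv ℝ r) z v v) : Convex ℝ {x | r x < 0} := by
  intro x hx y hy a b ha hb hab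
  have h1 := (line_convex hr h x (y - x)).2 (mem_univ 0) (mem_univ 1) ha hb hab
  have h2 : x + (a • (0 : ℝ) + b • (1 : ℝ)) • (y - x) = a • x + b • y := by
    have e : a = 1 - b := by linarith
    rw [e, smul_zero, zero_add, smul_eq_mul, mul_one, smul_sub, sub_smul, one_smul]
    abel
  have h3 : r (a • x + b • y) ≤ a * r x + b * r y := by
    have h4 : r (x + (a • (0 : ℝ) + b • (1 : ℝ)) • (y - x)) ≤
        a • r (x + (0 : ℝ) • (y - x)) + b • r (x + (1 : ℝ) • (y - x)) := h1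
    rw [h2, zero_smul, add_zero, one_smul, add_sub_cancel] at h4
    exact h4
  have hx' : r x < 0 := hx
  have hy' : r y < 0 := hy
  show r (a • x + b • y) < 0
  rcases ha.lt_or_eq with h5 | h5
  · nlinarith [mul_neg_of_pos_of_neg h5 hx', mul_nonneg hb (neg_nonneg.2 hy'.le)]
  · have e : b = 1 := by linarith
    rw [← h5, e] at h3
    rw [← h5, e]
    linarith

theorem convex_near {ε : ℝ} (hε : ε ≤ 1 / 4) {r : ℂ × ℂ → ℝ} (h : Cls ε mB r) :
    Convex ℝ {x | r x < 0} := by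
  refine convex_lt h.1 fun x v => ?_
  have hn : ‖v‖ ^ 2 ≤ ‖v.1‖ ^ 2 + ‖v.2‖ ^ 2 := by
    rw [Prod.norm_def]
    rcases le_total ‖v.1‖ ‖v.2‖ with h1 | h1
    · rw [max_eq_right h1]
      have := sq_nonneg ‖v.1‖
      linarith
    · rw [max_eq_left h1]
      have := sq_nonneg ‖v.2‖
      linarith
  have h1 := (h.2 x).2.2
  have h3 : ‖(fderiv ℝ (fderiv ℝ mB) x - fderiv ℝ (fderiv ℝ r) x) v v‖ ≤ ε * ‖v‖ * ‖v‖ := by
    refine ContinuousLinearMap.le_of_opNorm_le _ ?_ v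
    exact ContinuousLinearMap.le_of_opNorm_le _ h1 v
  rw [_root_.sub_apply, _root_.sub_apply, Real.norm_eq_abs, mB_fderiv2, dmL_apply, dm_apply] at h3
  have h4 := (abs_le.1 h3).2
  have h5 : 2 * (starRingEnd ℂ v.1 * v.1).re + 2 * (starRingEnd ℂ v.2 * v.2).re =
      2 * (‖v.1‖ ^ 2 + ‖v.2‖ ^ 2) := by
    simp only [Complex.sq_norm, Complex.normSq_apply, Complex.mul_re, Complex.conj_re,
      Complex.conj_im]
    ring
  rw [h5] at h4
  have h6 : ε * ‖v‖ * ‖v‖ ≤ 1 / 4 * ‖v‖ ^ 2 := by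
    have : ε * ‖v‖ * ‖v‖ = ε * ‖v‖ ^ 2 := by ring
    rw [this]
    exact mul_le_mul_of_nonneg_right hε (sq_nonneg _)
  nlinarith [sq_nonneg ‖v‖]

/-- functions with the same germ at `p` -/
theorem geq_of_eventually {D D' : Set (ℂ × ℂ)} {p : ℂ × ℂ} (h : ∀ᶠ z in 𝓝 p, z ∈ D ↔ z ∈ D') :
    GEq D p D' p := by
  obtain ⟨U, hU, hUo, hp⟩ := _root_.mem_nhds_iff.1 h
  exact ⟨id, id, U, U, hUo, hUo, hp, rfl, differentiableOn_id, differentiableOn_id, mapsTo_id _,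
    mapsTo_id _, fun _ _ => rfl, fun _ _ => rfl, fun z hz => hU hz⟩

theorem GEq.trans {D D' D'' : Set (ℂ × ℂ)} {p q u : ℂ × ℂ} (h : GEq D p D' q) (h' : GEq D' q D'' u) :
    GEq D p D'' u := by
  obtain ⟨φ, ψ, U, V, hU, hV, hp, hpq, hφ, hψ, h1, h2, h3, h4, h5⟩ := h
  obtain ⟨φ', ψ', U', V', hU', hV', hp', hpq', hφ', hψ', h1', h2', h3', h4', h5'⟩ := h'
  refine ⟨fun z => φ' (φ z), fun w => ψ (ψ' w), U ∩ φ ⁻¹' (V ∩ U'), V' ∩ ψ' ⁻¹' (U' ∩ V),
    hφ.continuousOn.isOpen_inter_preimage hU (hV.inter hU'),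
    hψ'.continuousOn.isOpen_inter_preimage hV' (hU'.inter hV), ⟨hp, ?_⟩, ?_, ?_, ?_, ?_, ?_, ?_, ?_, ?_⟩
  · exact ⟨h1 hp, by rw [hpq]; exact hp'⟩
  · show φ' (φ p) = u
    rw [hpq, hpq']
  · exact hφ'.comp (hφ.mono inter_subset_left) fun z hz => hz.2.2
  · exact hψ.comp (hψ'.mono inter_subset_left) fun z hz => hz.2.2
  · rintro z ⟨hz, hz1, hz2⟩
    refine ⟨h1' hz2, ?_⟩
    rw [mem_preimage, h3' _ hz2]
    exact ⟨hz2, hz1⟩
  · rintro w ⟨hw, hw1, hw2⟩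
    refine ⟨h2 hw2, ?_⟩
    rw [mem_preimage, h4 _ hw2]
    exact ⟨hw2, hw1⟩
  · rintro z ⟨hz, hz1, hz2⟩
    show ψ (ψ' (φ' (φ z))) = z
    rw [h3' _ hz2, h3 _ hz]
  · rintro w ⟨hw, hw1, hw2⟩
    show φ' (φ (ψ (ψ' w))) = w
    rw [h4 _ hw2, h4' _ hw]
  · rintro z ⟨hz, hz1, hz2⟩
    rw [h5 z hz, h5' _ hz2]

end Pool.Agent.H191.Corona
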