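import Pool.Agent.H191.Corona.LinA
import Pool.Agent.H191.Corona.Cut

/-!
All germs of strictly pseudoconvex domains of `ℂ²` are germs of small perturbations of the ball.
-/

set_option autoImplicit false

open MeasureTheory Metric Set Filter Topology Complex

namespace Pool.Agent.H191.Corona

section gen

variable {E : Type} [NormedAddCommGroup E] [NormedSpace ℝ E]

theorem jet2 {f : E → ℝ} {q a : E} {S : E →L[ℝ] E} {c d : ℝ} (hf : ContDiffAt ℝ 2 f (S (q - a))) :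
    (∀ v, fderiv ℝ (fun x => c * (f (S (x - a)) - d)) q v = c * fderiv ℝ f (S (q - a)) (S v)) ∧
    (∀ v w, fderiv ℝ (fderiv ℝ (fun x => c * (f (S (x - a)) - d))) q v w =
      c * fderiv ℝ (fderiv ℝ f) (S (q - a)) (S v) (S w)) := by
  have hA : ∀ x, HasFDerivAt (fun x : E => S (x - a)) S x := fun x => by
    have h1 : HasFDerivAt (fun x : E => x - a) (ContinuousLinearMap.id ℝ E) x :=
      (hasFDerivAt_id x).sub_const a
    have h2 := S.hasFDerivAt.comp x h1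
    rw [ContinuousLinearMap.comp_id] at h2
    exact h2
  have hcA : ContinuousAt (fun x : E => S (x - a)) q := (hA q).continuousAt
  have hfd : ∀ᶠ x in 𝓝 q, DifferentiableAt ℝ f (S (x - a)) := by
    have h1 : ∀ᶠ y in 𝓝 (S (q - a)), ContDiffAt ℝ 2 f y := hf.eventually (by decide)
    filter_upwards [hcA.eventually h1] with x hx
    exact hx.differentiableAt (by norm_num)
  have hG : ∀ᶠ x in 𝓝 q, HasFDerivAt (fun x => c * (f (S (x - a)) - d))
      (c • ((fderiv ℝ f (S (x - a))).comp S)) x := by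
    filter_upwards [hfd] with x hx
    exact ((hx.hasFDerivAt.comp x (hA x)).sub_const d).const_mul c
  have hF : ContDiffAt ℝ 1 (fderiv ℝ f) (S (q - a)) := hf.fderiv_right (by norm_num)
  have hFd : HasFDerivAt (fderiv ℝ f) (fderiv ℝ (fderiv ℝ f) (S (q - a))) (S (q - a)) :=
    (hF.differentiableAt (by norm_num)).hasFDerivAt
  refine ⟨fun v => ?_, fun v w => ?_⟩
  · rw [hG.self_of_nhds.fderiv]
    rfl
  · have h1 : fderiv ℝ (fun x => c * (f (S (x - a)) - d)) =ᶠ[𝓝 q]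
        fun x => c • ((fderiv ℝ f (S (x - a))).comp S) := by
      filter_upwards [hG] with x hx
      exact hx.fderiv
    have h2 : HasFDerivAt (fun x => (fderiv ℝ f (S (x - a))).comp S)
        ((((ContinuousLinearMap.compL ℝ E E ℝ).flip S).comp
          (fderiv ℝ (fderiv ℝ f) (S (q - a)))).comp S) q := by
      have h3 := hFd.comp q (hA q)
      exact (((ContinuousLinearMap.compL ℝ E E ℝ).flip S).hasFDerivAt.comp q h3)
    have h4 : HasFDerivAt (fun x => c • ((fderiv ℝ f (S (x - a))).comp S))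
        (c • ((((ContinuousLinearMap.compL ℝ E E ℝ).flip S).comp
          (fderiv ℝ (fderiv ℝ f) (S (q - a)))).comp S)) q := h2.const_smul c
    rw [h1.fderiv_eq, h4.fderiv]
    rfl

theorem sub2 {f g : E → ℝ} {q : E} (hf : ContDiffAt ℝ 2 f q) (hg : ContDiffAt ℝ 2 g q) :
    (∀ v, fderiv ℝ (fun x => f x - g x) q v = fderiv ℝ f q v - fderiv ℝ g q v) ∧
    (∀ v w, fderiv ℝ (fderiv ℝ (fun x => f x - g x)) q v w =
      fderiv ℝ (fderiv ℝ f) q v w - fderiv ℝ (fderiv ℝ g) q v w) := by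
  have h1 : ∀ᶠ x in 𝓝 q, HasFDerivAt (fun x => f x - g x) (fderiv ℝ f x - fderiv ℝ g x) x := by
    filter_upwards [hf.eventually (by decide), hg.eventually (by decide)] with x h2 h3
    exact (h2.differentiableAt (by norm_num)).hasFDerivAt.sub
      (h3.differentiableAt (by norm_num)).hasFDerivAt
  have hF : HasFDerivAt (fderiv ℝ f) (fderiv ℝ (fderiv ℝ f) q) q :=
    ((hf.fderiv_right (m := 1) (by norm_num)).differentiableAt (by norm_num)).hasFDerivAt
  have hF' : HasFDerivAt (fderiv ℝ g) (fderiv ℝ (fderiv ℝ g) q) q :=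
    ((hg.fderiv_right (m := 1) (by norm_num)).differentiableAt (by norm_num)).hasFDerivAt
  refine ⟨fun v => ?_, fun v w => ?_⟩
  · rw [h1.self_of_nhds.fderiv]
    rfl
  · have h2 : fderiv ℝ (fun x => f x - g x) =ᶠ[𝓝 q] fun x => fderiv ℝ f x - fderiv ℝ g x := by
      filter_upwards [h1] with x hx
      exact hx.fderiv
    have h3 : HasFDerivAt (fun x => fderiv ℝ f x - fderiv ℝ g x)
      (fderiv ℝ (fderiv ℝ f) q - fderiv ℝ (fderiv ℝ g) q) q := hF.sub hF'
    rw [h2.fderiv_eq, h3.fderiv]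
    rfl

end gen

open Pool.Agent.P157G
open Pool.Agent.P157D (d1 d2 CR Bo)

theorem to_ball {k : ℕ∞} (hk : 2 ≤ k) {ρ : ℂ × ℂ → ℝ} (hρ : ContDiff ℝ k ρ) {p : ℂ × ℂ}
    (hp : ρ p = 0) (hd : fderiv ℝ ρ p ≠ 0)
    (hL : ∀ v : ℂ × ℂ, v ≠ 0 → dd ρ p v = 0 → 0 < lv ρ p v) {ε : ℝ} (hε : 0 < ε) :
    ∃ r : ℂ × ℂ → ℝ, ContDiff ℝ k r ∧ Cls ε mB r ∧ (∀ x, x ∉ ball ((1 : ℂ), (0 : ℂ)) ε → r x = mB x) ∧
      r (1, 0) = 0 ∧ GEq {x | ρ x < 0} p {x | r x < 0} (1, 0) := by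
  have hk2 : (2 : WithTop ℕ∞) ≤ (k : WithTop ℕ∞) := WithTop.coe_le_coe.2 hk
  have hρ2 : ContDiff ℝ 2 ρ := hρ.of_le hk2
  obtain ⟨lam, hlam, hlv⟩ := lam_exists hρ2 hp hL
  obtain ⟨σ, hσdef⟩ : ∃ σ : ℂ × ℂ → ℝ, σ = fun x => Real.exp (lam * ρ x) := ⟨_, rfl⟩
  rw [← hσdef] at hlv
  have hσ : ContDiff ℝ k σ := by
    rw [hσdef]
    exact (contDiff_const.mul hρ).exp
  have hσ2 : ContDiff ℝ 2 σ := hσ.of_le hk2
  have hσp : σ p = 1 := by rw [hσdef]; simp [hp]
  have hσd : fderiv ℝ σ p ≠ 0 := by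
    have h1 : HasFDerivAt σ (Real.exp (lam * ρ p) • (lam • fderiv ℝ ρ p)) p := by
      rw [hσdef]
      exact ((((hρ2.differentiable (by norm_num)) p).hasFDerivAt).const_mul lam).exp
    rw [h1.fderiv]
    exact smul_ne_zero (Real.exp_pos _).ne' (smul_ne_zero hlam.ne' hd)
  have hσlt : ∀ x, σ x < 1 ↔ ρ x < 0 := by
    intro x
    rw [hσdef]
    show Real.exp (lam * ρ x) < 1 ↔ ρ x < 0
    rw [Real.exp_lt_one_iff]
    constructor
    · intro h
      by_contra hcon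
      have := mul_nonneg hlam.le (not_lt.1 hcon)
      linarith
    · intro h
      exact mul_neg_of_pos_of_neg hlam h
  obtain ⟨Θ, T, U, V, L, hU, hV, hpU, h0V, hΘp, hT0, hΘd, hTa, hΘm, hTm, hTΘ, hΘT, hD1, hinj, hD2⟩ :=
    crd2 hσ2 hσd
  -- the hermitian form
  have hsymB : ∀ u w, fderiv ℝ (fderiv ℝ σ) p u w = fderiv ℝ (fderiv ℝ σ) p w u := by
    have := (hσ2.contDiffAt (x := p)).isSymmSndFDerivAt (by simp)
    exact fun u w => this u w
  have hLI : ∀ x : ℂ × ℂ, L (Complex.I • x) = Complex.I • L x := fun x => L.map_smul _ _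
  have hII : ∀ x : ℂ × ℂ, Complex.I • Complex.I • x = -x := fun x => by
    rw [smul_smul, Complex.I_mul_I, neg_one_smul]
  have hCa : ∀ u w, (fderiv ℝ (fderiv ℝ σ) p - (2 : ℝ) • G7b2_C (fderiv ℝ (fderiv ℝ σ) p)) u w =
      (1 / 2) * (fderiv ℝ (fderiv ℝ σ) p u w +
        fderiv ℝ (fderiv ℝ σ) p (Complex.I • u) (Complex.I • w)) := by
    intro u w
    simp only [_root_.sub_apply, _root_.smul_apply, G7b2_C_apply, smul_eq_mul]
    ring
  obtain ⟨H, hH⟩ : ∃ H, H = fderiv ℝ (fderiv ℝ (fun x => σ (T x))) (0, 0) := ⟨_, rfl⟩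
  have hHf : ∀ x y, H x y = (1 / 2) * (fderiv ℝ (fderiv ℝ σ) p (L x) (L y) +
        fderiv ℝ (fderiv ℝ σ) p (Complex.I • L x) (Complex.I • L y)) := by
    intro x y
    rw [hH, hD2, hCa]
  have hHs : ∀ x y, H x y = H y x := by
    intro x y
    rw [hHf, hHf, hsymB (L x) (L y), hsymB (Complex.I • L x) (Complex.I • L y)]
  have hHJ : ∀ x y, H (Complex.I • x) (Complex.I • y) = H x y := by
    intro x y
    rw [hHf, hHf, hLI, hLI, hII, hII]
    simp only [map_neg, neg_apply, neg_neg]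
    ring
  have hHp : ∀ x : ℂ × ℂ, x ≠ 0 → 0 < H x x := by
    intro x hx
    rw [hH, hD2, G7b2_lv]
    exact half_pos (hlv _ (hinj x hx))
  obtain ⟨c, s, b, hc, hs, hlin⟩ := lin_alg H hHs hHJ hHp
  have hcc : (c : ℂ) ≠ 0 := by exact_mod_cast hc.ne'
  have hsc : (s : ℂ) ≠ 0 := by exact_mod_cast hs.ne'
  obtain ⟨S, hS⟩ : ∃ S : ℂ × ℂ →L[ℂ] ℂ × ℂ, ∀ y, S y = ((c : ℂ) * y.1, (c : ℂ) * b * y.1 + (s : ℂ) * y.2) :=
    ⟨((c : ℂ) • ContinuousLinearMap.fst ℂ ℂ ℂ).prod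
      (((c : ℂ) * b) • ContinuousLinearMap.fst ℂ ℂ ℂ + (s : ℂ) • ContinuousLinearMap.snd ℂ ℂ ℂ),
      fun y => rfl⟩
  obtain ⟨Si, hSi⟩ : ∃ Si : ℂ × ℂ →L[ℂ] ℂ × ℂ, ∀ y, Si y =
      ((c : ℂ)⁻¹ * y.1, (s : ℂ)⁻¹ * (y.2 - b * y.1)) :=
    ⟨((c : ℂ)⁻¹ • ContinuousLinearMap.fst ℂ ℂ ℂ).prod
      ((s : ℂ)⁻¹ • (ContinuousLinearMap.snd ℂ ℂ ℂ - b • ContinuousLinearMap.fst ℂ ℂ ℂ)),
      fun y => rfl⟩
  have hSSi : ∀ y, S (Si y) = y := by
    intro y
    rw [hS, hSi]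
    refine Prod.ext ?_ ?_
    · show (c : ℂ) * ((c : ℂ)⁻¹ * y.1) = y.1
      field_simp
    · show (c : ℂ) * b * ((c : ℂ)⁻¹ * y.1) + (s : ℂ) * ((s : ℂ)⁻¹ * (y.2 - b * y.1)) = y.2
      field_simp
      ring
  have hSiS : ∀ y, Si (S y) = y := by
    intro y
    rw [hS, hSi]
    refine Prod.ext ?_ ?_
    · show (c : ℂ)⁻¹ * ((c : ℂ) * y.1) = y.1
      field_simp
    · show (s : ℂ)⁻¹ * ((c : ℂ) * b * y.1 + (s : ℂ) * y.2 - b * ((c : ℂ) * y.1)) = y.2
      field_simp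
      ring
  obtain ⟨SR, hSR⟩ : ∃ SR : ℂ × ℂ →L[ℝ] ℂ × ℂ, SR = S.restrictScalars ℝ := ⟨_, rfl⟩
  have hSRa : ∀ y, SR y = S y := fun y => by rw [hSR]; rfl
  set q : ℂ × ℂ := (1, 0) with hq
  have hA0 : SR (q - q) = (0, 0) := by rw [sub_self, map_zero]; rfl
  have hTk : ∀ x ∈ V, ContDiffAt ℝ k T x := fun x hx =>
    ((hTa x hx).contDiffAt (n := k)).restrict_scalars ℝ
  have hσT : ContDiffAt ℝ 2 (fun x => σ (T x)) (SR (q - q)) := by
    rw [hA0]
    exact (hσ2.contDiffAt).comp _ ((hTk _ h0V).of_le hk2)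
  -- the function `G`
  obtain ⟨G, hG⟩ : ∃ G : ℂ × ℂ → ℝ, G = fun x => c⁻¹ * (σ (T (SR (x - q))) - 1) := ⟨_, rfl⟩
  have hjet := jet2 (f := fun x => σ (T x)) (q := q) (a := q) (S := SR) (c := c⁻¹) (d := 1) hσT
  rw [hA0] at hjet
  have hGe : (fun x => c⁻¹ * ((fun x => σ (T x)) (SR (x - q)) - 1)) = G := by rw [hG]
  rw [hGe] at hjet
  have hWo : IsOpen ((fun x => SR (x - q)) ⁻¹' V) :=
    hV.preimage (SR.continuous.comp (continuous_id.sub continuous_const))
  have hqW : q ∈ (fun x => SR (x - q)) ⁻¹' V := by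
    show SR (q - q) ∈ V
    rw [hA0]
    exact h0V
  have hGk : ∀ x ∈ (fun x => SR (x - q)) ⁻¹' V, ContDiffAt ℝ k G x := by
    intro x hx
    rw [hG]
    have h1 : ContDiffAt ℝ k (fun x => SR (x - q)) x :=
      (SR.contDiff.comp (contDiff_id.sub contDiff_const)).contDiffAt
    have h2 : ContDiffAt ℝ k (fun x => T (SR (x - q))) x := (hTk _ hx).comp x h1
    have h3 : ContDiffAt ℝ k (fun x => σ (T (SR (x - q)))) x := (hσ.contDiffAt).comp x h2
    exact contDiffAt_const.mul (h3.sub contDiffAt_const)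
  have hG2 : ContDiffAt ℝ 2 G q := (hGk q hqW).of_le hk2
  have hm2 : ContDiffAt ℝ 2 mB q := (mB_contDiff 2).contDiffAt
  have hsub := sub2 hG2 hm2
  have hg0 : G q - mB q = 0 := by
    rw [hG]
    show c⁻¹ * (σ (T (SR (q - q))) - 1) - mB q = 0
    rw [hA0, hT0, hσp, hq]
    simp [mB]
  have hg1 : fderiv ℝ (fun x => G x - mB x) q = 0 := by
    refine ContinuousLinearMap.ext fun v => ?_
    rw [hsub.1, hjet.1, hD1, mB_fderiv, dm_apply, hSRa, hS, hq]
    show c⁻¹ * (2 * ((c : ℂ) * v.1).re) - _ = (0 : ℝ)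
    rw [Complex.re_ofReal_mul]
    simp only [map_one, one_mul, map_zero, zero_mul, Complex.zero_re, mul_zero, add_zero]
    field_simp
    ring
  have hg2 : fderiv ℝ (fderiv ℝ (fun x => G x - mB x)) q = 0 := by
    refine ContinuousLinearMap.ext fun v => ContinuousLinearMap.ext fun w => ?_
    rw [hsub.2, hjet.2, mB_fderiv2, dmL_apply, ← hH, hSRa, hSRa, hS, hS, hlin]
    show c⁻¹ * (c * dm v w) - dm v w = (0 : ℝ)
    field_simp
    ring
  obtain ⟨h, hhk, hhb, hh0, hhe⟩ := cutoff hk hWo hqW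
    (g := fun x => G x - mB x) (fun x hx => ((hGk x hx).sub (mB_contDiff k).contDiffAt).contDiffWithinAt)
    hg0 hg1 hg2 hε
  have hhk2 : ContDiff ℝ 2 h := hhk.of_le hk2
  obtain ⟨W', hW's, hW'o, hqW'⟩ := _root_.mem_nhds_iff.1 (hhe.and (hWo.eventually_mem hqW))
  have hcl : Cls ε mB (fun x => mB x - (fun x => - h x) x) := by
    refine G8c_cls (mB_contDiff 2) (B := ε) ⟨hhk2.neg, fun x => ⟨?_, ?_, ?_⟩⟩ le_rfl
    · rw [abs_neg]
      exact (hhb x).1
    · rw [fderiv_fun_neg, norm_neg]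
      exact (hhb x).2.1
    · have h1 : fderiv ℝ (fun x => - h x) = fun x => - fderiv ℝ h x := funext fun x => fderiv_fun_neg
      have h2 : ‖fderiv ℝ (fun x => - fderiv ℝ h x) x‖ = ‖fderiv ℝ (fderiv ℝ h) x‖ := by
        rw [fderiv_fun_neg]
        exact ContinuousLinearMap.opNorm_neg _
      rw [h1, h2]
      exact (hhb x).2.2
  refine ⟨fun x => mB x - (fun x => - h x) x, (mB_contDiff k).sub hhk.neg, hcl, ?_, ?_, ?_⟩
  · intro x hx
    show mB x - - h x = mB x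
    rw [hh0 x hx, neg_zero, sub_zero]
  · show mB q - - h q = 0
    have h1 : h q = G q - mB q := (hW's hqW').1
    rw [h1, hg0, neg_zero, sub_zero, hq]
    simp [mB]
  · -- the equivalence of germs
    have hr : ∀ x ∈ W', mB x - - h x = c⁻¹ * (σ (T (SR (x - q))) - 1) := by
      intro x hx
      have h1 : h x = G x - mB x := (hW's hx).1
      rw [h1, hG]
      ring
    have hφc : ContinuousOn (fun z => q + Si (Θ z)) U :=
      continuousOn_const.add (Si.continuous.comp_continuousOn hΘd.continuousOn)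
    have hU'o : IsOpen (U ∩ (fun z => q + Si (Θ z)) ⁻¹' W') := hφc.isOpen_inter_preimage hU hW'o
    have hφp : q + Si (Θ p) = q := by
      rw [hΘp, show ((0 : ℂ), (0 : ℂ)) = 0 from rfl, map_zero, add_zero]
    have hAφ : ∀ z, SR (q + Si (Θ z) - q) = Θ z := by
      intro z
      rw [add_sub_cancel_left, hSRa, hSSi]
    refine ⟨fun z => q + Si (Θ z), fun x => T (SR (x - q)), U ∩ (fun z => q + Si (Θ z)) ⁻¹' W', W',
      hU'o, hW'o, ⟨hpU, ?_⟩, hφp, ?_, ?_, fun z hz => hz.2, ?_, ?_, ?_, ?_⟩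
    · show q + Si (Θ p) ∈ W'
      rw [hφp]
      exact hqW'
    · have h1 : DifferentiableOn ℂ (fun z => Si (Θ z)) U := Si.differentiable.comp_differentiableOn hΘd
      exact (h1.const_add q).mono inter_subset_left
    · intro x hx
      have h1 : SR (x - q) ∈ V := (hW's hx).2
      have h2 : DifferentiableAt ℂ T (S (x - q)) := by
        rw [← hSRa]
        exact (hTa _ h1).differentiableAt
      have h3 : DifferentiableAt ℂ (fun x => S (x - q)) x :=
        S.differentiableAt.comp x (differentiableAt_id.sub_const q)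
      have h4 : (fun x => T (SR (x - q))) = fun x => T (S (x - q)) := by
        funext y
        rw [hSRa]
      rw [h4]
      exact (h2.comp x h3).differentiableWithinAt
    · intro x hx
      have h1 : SR (x - q) ∈ V := (hW's hx).2
      refine ⟨hTm h1, ?_⟩
      show q + Si (Θ (T (SR (x - q)))) ∈ W'
      rw [hΘT _ h1, hSRa, hSiS, add_sub_cancel]
      exact hx
    · rintro z ⟨hz, -⟩
      show T (SR (q + Si (Θ z) - q)) = z
      rw [hAφ, hTΘ z hz]
    · intro x hx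
      have h1 : SR (x - q) ∈ V := (hW's hx).2
      show q + Si (Θ (T (SR (x - q)))) = x
      rw [hΘT _ h1, hSRa, hSiS, add_sub_cancel]
    · rintro z ⟨hz, hz'⟩
      show ρ z < 0 ↔ mB (q + Si (Θ z)) - - h (q + Si (Θ z)) < 0
      rw [hr _ hz', hAφ, hTΘ z hz, ← hσlt]
      have hci : 0 < c⁻¹ := inv_pos.2 hc
      constructor
      · intro h1
        exact mul_neg_of_pos_of_neg hci (by linarith)
      · intro h1
        by_contra hcon
        have := mul_nonneg hci.le (sub_nonneg.2 (not_lt.1 hcon))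
        linarith

end Pool.Agent.H191.Corona
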