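import Pool.Agent.H191.Corona.Core

/-!
From global to local data, for the corona problem on `A` for data on a larger domain.
-/

set_option autoImplicit false

open MeasureTheory Metric Set Filter Topology Complex

namespace Pool.Agent.H191.Corona

open Pool.Agent.P157G

/-- solutions on `A` for data on `{ρ < 0}`: from global to local data -/
theorem pair_local {ρ : ℂ × ℂ → ℝ} (h : NF ρ) {A : Set (ℂ × ℂ)} (hA : A ⊆ {x | ρ x < 0}) {I : Type}
    {p : ℂ × ℂ} (hc : ∀ (N : ℕ) (δ : ℝ) (F : I → Fin N → ℂ × ℂ → ℂ), 0 < δ →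
      (∀ i, (∀ j, HBd {x | ρ x < 0} 1 (F i j)) ∧ ∀ x ∈ {x | ρ x < 0}, δ ≤ ∑ j, ‖F i j x‖) →
      ∃ s : ℝ, 0 < s ∧ ∃ C : ℝ, ∀ i, ∃ g : Fin N → ℂ × ℂ → ℂ, (∀ j, HBd (A ∩ ball p s) C (g j)) ∧
        ∀ x ∈ A ∩ ball p s, ∑ j, F i j x * g j x = 1)
    (hp : ρ p ≤ 0) {r : ℝ} (hr : 0 < r) {N : ℕ} {δ : ℝ} (hδ : 0 < δ)
    {F : I → Fin N → ℂ × ℂ → ℂ}
    (hF : ∀ i, (∀ j, HBd ({x | ρ x < 0} ∩ ball p r) 1 (F i j)) ∧
      ∀ x ∈ {x | ρ x < 0} ∩ ball p r, δ ≤ ∑ j, ‖F i j x‖) :
    ∃ s : ℝ, 0 < s ∧ ∃ C : ℝ, ∀ i, ∃ g : Fin N → ℂ × ℂ → ℂ,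
      (∀ j, HBd (A ∩ ball p s) C (g j)) ∧
        ∀ x ∈ A ∩ ball p s, ∑ j, F i j x * g j x = 1 := by
  classical
  obtain ⟨r', C, hr', hr'r, hC, hl⟩ := loc_lem h hp hr
  choose G U1 U2 hG hU1 hU2 hid using fun i j => hl (F i j) 1 zero_le_one ((hF i).1 j)
  simp only [mul_one] at hG hU1 hU2
  have hbd : Bornology.IsBounded {x | ρ x < 0} := h.bdd.subset fun x (hx : ρ x < 0) => hx.le
  obtain ⟨R, hR⟩ := hbd.exists_norm_le
  -- the bound
  obtain ⟨B, hB⟩ : ∃ B : ℝ, B = C + |R| + ‖p‖ + 1 := ⟨_, rfl⟩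
  have hB1 : 1 ≤ B := by
    rw [hB]
    linarith [abs_nonneg R, norm_nonneg p]
  have hB0 : 0 < B := by linarith
  have hCB : C ≤ B := by
    rw [hB]
    linarith [abs_nonneg R, norm_nonneg p]
  have hxp : ∀ x ∈ {x | ρ x < 0}, ‖x - p‖ ≤ B := by
    intro x hx
    refine (norm_sub_le _ _).trans ?_
    rw [hB]
    linarith [hR x hx, le_abs_self R]
  have hc1 : ∀ x : ℂ × ℂ, ‖x.1 - p.1‖ ≤ ‖x - p‖ := fun x => norm_fst_le (x - p)
  have hc2 : ∀ x : ℂ × ℂ, ‖x.2 - p.2‖ ≤ ‖x - p‖ := fun x => norm_snd_le (x - p)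
  -- the radius for the lower bound
  obtain ⟨s₀, hs₀⟩ : ∃ s₀ : ℝ, s₀ = min r' (δ / (4 * (N * C + 1))) := ⟨_, rfl⟩
  have hNC : 0 ≤ (N : ℝ) * C := by positivity
  have hs₀0 : 0 < s₀ := by
    rw [hs₀]
    exact lt_min hr' (by positivity)
  have hs₀r : s₀ ≤ r' := by
    rw [hs₀]
    exact min_le_left _ _
  have hs₀δ : s₀ * (N * C) ≤ δ / 4 := by
    have h1 : s₀ ≤ δ / (4 * (N * C + 1)) := by
      rw [hs₀]
      exact min_le_right _ _
    rw [le_div_iff₀ (by positivity)] at h1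
    nlinarith
  -- the functions on `D`
  obtain ⟨F', hF'⟩ : ∃ F' : I → Fin (N + 1 + 1) → ℂ × ℂ → ℂ, ∀ i, F' i =
      Fin.cons (fun x => (x.1 - p.1) / B) (Fin.cons (fun x => (x.2 - p.2) / B)
        (fun j x => G i j x / B)) := ⟨_, fun i => rfl⟩
  have hn : ∀ (z : ℂ) (t : ℝ), ‖z‖ ≤ t → ‖z / (B : ℂ)‖ ≤ t / B := by
    intro z t hz
    rw [norm_div, Complex.norm_real, Real.norm_eq_abs, abs_of_pos hB0]
    gcongr
  have hdata : ∀ i, (∀ j, HBd {x | ρ x < 0} 1 (F' i j)) ∧
      ∀ x ∈ {x | ρ x < 0}, min (δ / 2) s₀ / B ≤ ∑ j, ‖F' i j x‖ := by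
    intro i
    constructor
    · intro j
      rw [hF']
      refine Fin.cases ?_ (fun j => Fin.cases ?_ (fun j => ?_) j) j
      · show HBd {x | ρ x < 0} 1 (fun x => (x.1 - p.1) / B)
        refine ⟨?_, fun x hx => ?_⟩
        · simp only [div_eq_mul_inv]
          exact ((differentiable_fst.sub_const _).mul_const _).differentiableOn
        · refine (hn _ _ ((hc1 x).trans (hxp x hx))).trans ?_
          rw [div_self hB0.ne']
      · show HBd {x | ρ x < 0} 1 (fun x => (x.2 - p.2) / B)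
        refine ⟨?_, fun x hx => ?_⟩
        · simp only [div_eq_mul_inv]
          exact ((differentiable_snd.sub_const _).mul_const _).differentiableOn
        · refine (hn _ _ ((hc2 x).trans (hxp x hx))).trans ?_
          rw [div_self hB0.ne']
      · show HBd {x | ρ x < 0} 1 (fun x => G i j x / B)
        refine ⟨?_, fun x hx => ?_⟩
        · simp only [div_eq_mul_inv]
          exact ((hG i j).1).mul_const _
        · refine (hn _ _ (((hG i j).2 x hx).trans hCB)).trans ?_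
          rw [div_self hB0.ne']
    · intro x hx
      rw [Fin.sum_univ_succ, Fin.sum_univ_succ, hF']
      simp only [Fin.cons_zero, Fin.cons_succ, norm_div, Complex.norm_real, Real.norm_eq_abs,
        abs_of_pos hB0]
      rw [← Finset.sum_div, ← add_div, ← add_div]
      refine div_le_div_of_nonneg_right ?_ hB0.le
      have hS0 : 0 ≤ ∑ j, ‖G i j x‖ := Finset.sum_nonneg fun j _ => norm_nonneg _
      by_cases hxs : x ∈ ball p s₀
      · -- near `p`
        have hxr' : x ∈ {x | ρ x < 0} ∩ ball p r' := ⟨hx, ball_subset_ball hs₀r hxs⟩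
        have hxr : x ∈ {x | ρ x < 0} ∩ ball p r := ⟨hx, ball_subset_ball hr'r hxr'.2⟩
        have h1 := (hF i).2 x hxr
        have hxs' : ‖x - p‖ ≤ s₀ := (mem_ball_iff_norm.1 hxs).le
        have h2 : ∑ j, ‖F i j x‖ ≤ ∑ j, (‖G i j x‖ + 2 * (s₀ * C)) := by
          refine Finset.sum_le_sum fun j _ => ?_
          have e : F i j x = G i j x + ((x.1 - p.1) * U1 i j x + (x.2 - p.2) * U2 i j x) := by
            rw [hid i j x hxr']
            ring
          rw [e]
          refine (norm_add_le _ _).trans ?_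
          refine add_le_add le_rfl ((norm_add_le _ _).trans ?_)
          rw [norm_mul, norm_mul]
          have a1 := mul_le_mul ((hc1 x).trans hxs') ((hU1 i j).2 x hxr'.2) (norm_nonneg _) hs₀0.le
          have a2 := mul_le_mul ((hc2 x).trans hxs') ((hU2 i j).2 x hxr'.2) (norm_nonneg _) hs₀0.le
          linarith
        rw [Finset.sum_add_distrib, Finset.sum_const, Finset.card_univ, Fintype.card_fin,
          nsmul_eq_mul] at h2
        have h3 : (N : ℝ) * (2 * (s₀ * C)) = 2 * (s₀ * (N * C)) := by ring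
        rw [h3] at h2
        refine (min_le_left _ _).trans ?_
        have n1 := norm_nonneg (x.1 - p.1)
        have n2 := norm_nonneg (x.2 - p.2)
        linarith
      · -- far from `p`
        rw [mem_ball_iff_norm, not_lt] at hxs
        have h1 : ‖x - p‖ = max ‖x.1 - p.1‖ ‖x.2 - p.2‖ := rfl
        refine (min_le_right _ _).trans (hxs.trans ?_)
        rw [h1]
        refine max_le ?_ ?_
        · linarith [norm_nonneg (x.2 - p.2)]
        · linarith [norm_nonneg (x.1 - p.1)]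
  obtain ⟨s₁, hs₁, C₂, hC₂⟩ := hc (N + 1 + 1) _ F' (div_pos (lt_min (half_pos hδ) hs₀0) hB0) hdata
  choose g hg hge using hC₂
  -- the bound may be taken nonnegative
  obtain ⟨K, hK⟩ : ∃ K : ℝ, K = |C₂| := ⟨_, rfl⟩
  have hK0 : 0 ≤ K := by rw [hK]; exact abs_nonneg _
  have hgK : ∀ i j, ∀ x ∈ A ∩ ball p s₁, ‖g i j x‖ ≤ K := fun i j x hx =>
    ((hg i j).2 x hx).trans (by rw [hK]; exact le_abs_self _)
  -- the functions which solve approximately
  obtain ⟨q, hq⟩ : ∃ q : I → Fin N → ℂ × ℂ → ℂ, ∀ i j x, q i j x = g i j.succ.succ x / B :=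
    ⟨_, fun i j x => rfl⟩
  have hqK : ∀ i j, ∀ x ∈ A ∩ ball p s₁, ‖q i j x‖ ≤ K := by
    intro i j x hx
    rw [hq]
    refine (hn _ _ (hgK i _ x hx)).trans (div_le_self hK0 hB1)
  obtain ⟨s, hs⟩ : ∃ s : ℝ, s = min (min r' s₁) (1 / (4 * (K + N * C * K) + 4)) := ⟨_, rfl⟩
  have hKK : 0 ≤ K + N * C * K := by positivity
  have hs0 : 0 < s := by
    rw [hs]
    exact lt_min (lt_min hr' hs₁) (by positivity)
  have hsr : s ≤ r' := by
    rw [hs]
    exact (min_le_left _ _).trans (min_le_left _ _)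
  have hss₁ : s ≤ s₁ := by
    rw [hs]
    exact (min_le_left _ _).trans (min_le_right _ _)
  have hmA : ∀ x ∈ A ∩ ball p s, x ∈ A ∩ ball p s₁ := fun x hx =>
    ⟨hx.1, ball_subset_ball hss₁ hx.2⟩
  have hsK : s * (2 * (K + N * C * K)) ≤ 1 / 2 := by
    have h1 : s ≤ 1 / (4 * (K + N * C * K) + 4) := by
      rw [hs]
      exact min_le_right _ _
    rw [le_div_iff₀ (by positivity)] at h1
    nlinarith
  refine ⟨s, hs0, 2 * K, fun i => ?_⟩
  -- the sum is close to one
  have key : ∀ x ∈ A ∩ ball p s, ‖∑ j, F i j x * q i j x - 1‖ ≤ 1 / 2 := by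
    intro x hx
    have hxr' : x ∈ {x | ρ x < 0} ∩ ball p r' := ⟨hA hx.1, ball_subset_ball hsr hx.2⟩
    have e := hge i x (hmA x hx)
    rw [Fin.sum_univ_succ, Fin.sum_univ_succ, hF'] at e
    simp only [Fin.cons_zero, Fin.cons_succ] at e
    have e' : (x.1 - p.1) * (g i 0 x / B) + ((x.2 - p.2) * (g i (Fin.succ 0) x / B) +
        ∑ j, G i j x * q i j x) = 1 := by
      rw [← e]
      congr 1
      · ring
      · congr 1
        · ring
        · refine Finset.sum_congr rfl fun j _ => ?_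
          rw [hq]
          ring
    have h1 := approx (F := fun j => F i j x) (G := fun j => G i j x) (U1 := fun j => U1 i j x)
      (U2 := fun j => U2 i j x) (g := fun j => q i j x) (fun j => hid i j x hxr') e'
    rw [h1]
    have hxs' : ‖x - p‖ ≤ s := (mem_ball_iff_norm.1 hx.2).le
    have hsum : ∀ U : I → Fin N → ℂ × ℂ → ℂ, (∀ i j, HBd (ball p r') C (U i j)) →
        ‖∑ j, U i j x * q i j x‖ ≤ N * C * K := by
      intro U hU
      refine (norm_sum_le _ _).trans ?_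
      have h2 : ∀ j ∈ (Finset.univ : Finset (Fin N)), ‖U i j x * q i j x‖ ≤ C * K := by
        intro j _
        rw [norm_mul]
        exact mul_le_mul ((hU i j).2 x hxr'.2) (hqK i j x (hmA x hx)) (norm_nonneg _) hC
      refine (Finset.sum_le_sum h2).trans ?_
      rw [Finset.sum_const, Finset.card_univ, Fintype.card_fin, nsmul_eq_mul]
      linarith [mul_assoc (N : ℝ) C K]
    have hgB : ∀ j, ‖g i j x / B‖ ≤ K := fun j =>
      (hn _ _ (hgK i j x (hmA x hx))).trans (div_le_self hK0 hB1)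
    have b1 : ‖g i 0 x / B - ∑ j, U1 i j x * q i j x‖ ≤ K + N * C * K :=
      (norm_sub_le _ _).trans (add_le_add (hgB 0) (hsum U1 hU1))
    have b2 : ‖g i (Fin.succ 0) x / B - ∑ j, U2 i j x * q i j x‖ ≤ K + N * C * K :=
      (norm_sub_le _ _).trans (add_le_add (hgB _) (hsum U2 hU2))
    rw [sub_sub_cancel_left, norm_neg]
    refine (norm_add_le _ _).trans ?_
    rw [norm_mul, norm_mul]
    have a1 := mul_le_mul ((hc1 x).trans hxs') b1 (norm_nonneg _) hs0.le
    have a2 := mul_le_mul ((hc2 x).trans hxs') b2 (norm_nonneg _) hs0.le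
    linarith
  have hlow : ∀ x ∈ A ∩ ball p s, 1 / 2 ≤ ‖∑ j, F i j x * q i j x‖ := by
    intro x hx
    have h1 := key x hx
    have h2 := norm_sub_norm_le (1 : ℂ) (∑ j, F i j x * q i j x)
    rw [norm_one, norm_sub_rev] at h2
    linarith
  have hne : ∀ x ∈ A ∩ ball p s, ∑ j, F i j x * q i j x ≠ 0 := by
    intro x hx h0
    have := hlow x hx
    rw [h0, norm_zero] at this
    linarith
  have hsub : A ∩ ball p s ⊆ {x | ρ x < 0} ∩ ball p r := fun x hx =>
    ⟨hA hx.1, ball_subset_ball (hsr.trans hr'r) hx.2⟩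
  have hqd : ∀ j, DifferentiableOn ℂ (q i j) (A ∩ ball p s) := by
    intro j
    have h1 : q i j = fun x => g i j.succ.succ x * (B : ℂ)⁻¹ := funext fun x => hq i j x
    rw [h1]
    exact ((hg i j.succ.succ).1.mono hmA).mul_const _
  have hSd : DifferentiableOn ℂ (fun x => ∑ j, F i j x * q i j x) (A ∩ ball p s) :=
    DifferentiableOn.fun_sum fun j _ => (((hF i).1 j).1.mono hsub).mul (hqd j)
  refine ⟨fun j x => q i j x / ∑ k, F i k x * q i k x, fun j => ⟨?_, ?_⟩, ?_⟩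
  · simp only [div_eq_mul_inv]
    exact (hqd j).mul (hSd.inv hne)
  · intro x hx
    rw [norm_div, div_le_iff₀ (by linarith [hlow x hx])]
    have h1 := hqK i j x (hmA x hx)
    have h2 := hlow x hx
    nlinarith
  · intro x hx
    have h1 : ∀ j ∈ (Finset.univ : Finset (Fin N)), F i j x * (q i j x / ∑ k, F i k x * q i k x) =
        F i j x * q i j x / ∑ k, F i k x * q i k x := fun j _ => by ring
    rw [Finset.sum_congr rfl h1, ← Finset.sum_div, div_self (hne x hx)]


end Pool.Agent.H191.Corona
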