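import Pool.Agent.H191.Corona.TouD
import Pool.Agent.H272.OSP.Uni

/-!
Transfer of the sharpness theorem of helper272 (`Pool.Agent.H272.OSP`) to `ℂ × ℂ`.
-/

set_option autoImplicit false

open Metric Set Filter Topology Complex

namespace Pool.Agent.H191.Corona

open Pool.Agent.P157G (HBd NF)
open Pool.Agent.H272.OSP (Surrounds Exposed SmoothDomain)

/-- the Euclidean norm -/
noncomputable def En (z : ℂ × ℂ) : ℝ := √(‖z.1‖ ^ 2 + ‖z.2‖ ^ 2)

theorem En_eq (z : ℂ × ℂ) : En z = ‖eC z‖ := by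
  unfold En
  rw [← eC_norm, Real.sqrt_sq (norm_nonneg _)]

/-- contact of `Ω` with `D` at `p` -/
def Cont (D Ω : Set (ℂ × ℂ)) (p : ℂ × ℂ) (κ : ℝ → ℝ) : Prop :=
  ∃ r : ℝ, 0 < r ∧ ∀ z, z ≠ p → En (z - p) < r → ∀ w ∈ D, En (z - w) < κ (En (z - p)) → z ∈ Ω

/-- the corona theorem on `D` for data on `Ω` -/
def Pair (Ω D : Set (ℂ × ℂ)) : Prop :=
  ∀ (N : ℕ) (f : Fin N → ℂ × ℂ → ℂ) (δ : ℝ), 0 < δ → (∀ j, ∃ M, HBd Ω M (f j)) →
    (∀ z ∈ Ω, δ < ∑ j, ‖f j z‖ ^ 2) →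
    ∃ h : Fin N → ℂ × ℂ → ℂ, (∀ j, ∃ C, HBd D C (h j)) ∧ ∀ z ∈ D, ∑ j, f j z * h j z = 1

theorem sharp {D : Set (ℂ × ℂ)} {p : ℂ × ℂ} (hD : IsOpen D) (hp : Exposed (eC '' D) (eC p))
    {κ : ℝ → ℝ} (hκ : Tendsto (fun t => κ t / t ^ 2) (𝓝[>] 0) (𝓝 0)) :
    ∃ Ω, IsOpen Ω ∧ D ⊆ Ω ∧ closure D \ {p} ⊆ Ω ∧ Cont D Ω p κ ∧ (Pair Ω D → UnifV) := by
  have hDo : IsOpen (eC '' D) := eC.toHomeomorph.isOpenMap D hD
  obtain ⟨O, ⟨hO1, hO2, hO3, r, hr, hO4⟩, -, hF⟩ := Pool.Agent.H272.OSP.main two_pos hDo hp hκ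
  refine ⟨eC ⁻¹' O, hO1.preimage eC.continuous, fun z hz => hO2 (mem_image_of_mem _ hz), ?_, ?_, ?_⟩
  · rintro z ⟨hz, hzp⟩
    refine hO3 ⟨image_closure_subset_closure_image eC.continuous (mem_image_of_mem _ hz), ?_⟩
    intro h
    exact hzp (eC.injective h)
  · refine ⟨r, hr, fun z hzp hzr w hw hzw => hO4 (eC z) (fun h => hzp (eC.injective h)) ?_ ?_⟩
    · rw [← map_sub, ← En_eq]
      exact hzr
    · refine lt_of_le_of_lt (infDist_le_dist_of_mem (mem_image_of_mem eC hw)) ?_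
      rw [dist_eq_norm, ← map_sub, ← map_sub, ← En_eq, ← En_eq]
      exact hzw
  · intro hP N δ hδ
    rcases Nat.eq_zero_or_pos N with rfl | hN
    · refine ⟨0, fun f hf => ?_⟩
      obtain ⟨-, -, h1⟩ := hf
      have h2 := h1 0 (mem_ball_self one_pos)
      simp only [Finset.univ_eq_empty, Finset.sum_empty] at h2
      exact absurd h2 (not_le.2 hδ)
    · have hN1 : (1 : ℝ) ≤ N := by exact_mod_cast hN
      obtain ⟨δ₀, hδ₀⟩ : ∃ δ₀ : ℝ, δ₀ = min (δ / 2) (1 / 2) := ⟨_, rfl⟩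
      have h0 : 0 < δ₀ := by rw [hδ₀]; positivity
      have h1 : δ₀ < δ := by
        rw [hδ₀]
        exact lt_of_le_of_lt (min_le_left _ _) (by linarith)
      have h2 : δ₀ < N := by
        rw [hδ₀]
        exact lt_of_le_of_lt (min_le_right _ _) (by linarith)
      obtain ⟨F, ⟨hF1, hF2, hF3⟩, hF4⟩ := hF N δ₀ h0 h2
      have hm : MapsTo eC (eC ⁻¹' O) O := fun z hz => hz
      obtain ⟨h, hh, he⟩ := hP N (fun j z => F j (eC z)) (δ₀ ^ 2 / (N + 1)) (by positivity)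
        (fun j => ⟨1, (hF1 j).comp eC.differentiable.differentiableOn hm,
          fun z hz => hF2 j _ hz⟩) (fun z hz => by
          have h3 := hF3 _ hz
          have h4 := sq_sum_le_card_mul_sum_sq (s := Finset.univ)
            (f := fun j : Fin N => ‖F j (eC z)‖)
          rw [Finset.card_univ, Fintype.card_fin] at h4
          have h5 : δ₀ ^ 2 ≤ (∑ j, ‖F j (eC z)‖) ^ 2 := pow_le_pow_left₀ h0.le h3 2
          have h6 : 0 < ∑ j, ‖F j (eC z)‖ ^ 2 := by
            have h7 : 0 ≤ ∑ j, ‖F j (eC z)‖ ^ 2 := Finset.sum_nonneg fun j _ => sq_nonneg _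
            rcases h7.lt_or_eq with h8 | h8
            · exact h8
            · rw [← h8] at h4
              nlinarith
          rw [div_lt_iff₀ (by positivity)]
          nlinarith)
      choose C hC using hh
      refine ⟨∑ j, |C j|, fun f hf => ?_⟩
      have hsol : Pool.Agent.H272.OSP.Solvable ((eC '' D) ∩ univ) (∑ j, |C j|) F := by
        refine ⟨fun j v => h j (eC.symm v), fun j => ?_, fun j v hv => ?_, fun v hv => ?_⟩
        · refine (hC j).1.comp eC.symm.differentiable.differentiableOn ?_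
          rintro v ⟨⟨z, hz, rfl⟩, -⟩
          simpa using hz
        · obtain ⟨⟨z, hz, rfl⟩, -⟩ := hv
          simp only [ContinuousLinearEquiv.symm_apply_apply]
          exact (((hC j).2 z hz).trans (le_abs_self _)).trans
            (Finset.single_le_sum (f := fun l => |C l|) (fun l _ => abs_nonneg _) (Finset.mem_univ j))
        · obtain ⟨⟨z, hz, rfl⟩, -⟩ := hv
          simp only [ContinuousLinearEquiv.symm_apply_apply]
          exact he z hz
      obtain ⟨hf1, hf2, hf3⟩ := hf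
      exact hF4 _ univ isOpen_univ (mem_univ _) hsol δ h1 2 le_rfl f ⟨hf1, hf2, hf3⟩

/-- the exposed points of the domains -/
theorem smooth_img {D O : Set (ℂ × ℂ)} {ρ : ℂ × ℂ → ℝ} (hb : Bornology.IsBounded D)
    (hne : D.Nonempty) (hO : IsOpen O) (hcl : closure D ⊆ O) (hρ : ContDiffOn ℝ 3 ρ O)
    (hD : D = {z | z ∈ O ∧ ρ z < 0}) (hd : ∀ p ∈ frontier D, fderiv ℝ ρ p ≠ 0) :
    SmoothDomain (eC '' D) := by
  have hDo : IsOpen D := by
    have : D = O ∩ ρ ⁻¹' (Set.Iio 0) := by rw [hD]; rfl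
    rw [this]
    exact hρ.continuousOn.isOpen_inter_preimage hO isOpen_Iio
  have hcl' : closure (eC '' D) = eC '' closure D := (eC.toHomeomorph.image_closure D).symm
  have hfr : frontier (eC '' D) = eC '' frontier D := (eC.toHomeomorph.image_frontier D).symm
  have heR : ContDiff ℝ 3 (fun v : Pool.Agent.H272.OSP.V 2 => eC.symm v) :=
    (eC.symm.contDiff (n := 3)).restrict_scalars ℝ
  refine ⟨eC.toHomeomorph.isOpenMap D hDo, hne.image _, ?_, eC '' O, fun v => ρ (eC.symm v),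
    ⟨eC.toHomeomorph.isOpenMap O hO, ?_, ?_, ?_, ?_⟩⟩
  · exact (eC.lipschitz.isBounded_image hb)
  · rw [hcl']
    exact image_mono hcl
  · refine hρ.comp heR.contDiffOn ?_
    rintro v ⟨z, hz, rfl⟩
    simpa using hz
  · ext v
    constructor
    · rintro ⟨z, hz, rfl⟩
      rw [hD] at hz
      exact ⟨⟨z, hz.1, rfl⟩, by simpa using hz.2⟩
    · rintro ⟨⟨z, hz, rfl⟩, hv⟩
      refine ⟨z, ?_, rfl⟩
      rw [hD]
      exact ⟨hz, by simpa using hv⟩
  · rw [hfr]
    rintro _ ⟨p, hp, rfl⟩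
    by_contra hc
    push_neg at hc
    refine hd p hp (ContinuousLinearMap.ext fun u => ?_)
    have hpO : p ∈ O := hcl (frontier_subset_closure hp)
    have hρd : DifferentiableAt ℝ ρ p :=
      (hρ.contDiffAt (hO.mem_nhds hpO)).differentiableAt (by norm_num)
    have h1 : HasFDerivAt (fun v : Pool.Agent.H272.OSP.V 2 => ρ (eC.symm v))
        ((fderiv ℝ ρ p).comp ((eC.symm : Pool.Agent.H272.OSP.V 2 →L[ℂ] ℂ × ℂ).restrictScalars ℝ))
        (eC p) := by
      have h2 : HasFDerivAt (fun v : Pool.Agent.H272.OSP.V 2 => eC.symm v)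
          ((eC.symm : Pool.Agent.H272.OSP.V 2 →L[ℂ] ℂ × ℂ).restrictScalars ℝ) (eC p) :=
        (eC.symm.hasFDerivAt (x := eC p)).restrictScalars ℝ
      have h3 : HasFDerivAt ρ (fderiv ℝ ρ p) (eC.symm (eC p)) := by
        rw [ContinuousLinearEquiv.symm_apply_apply]
        exact hρd.hasFDerivAt
      exact h3.comp (eC p) h2
    have h4 := hc (eC u)
    unfold Pool.Agent.H272.OSP.dr at h4
    rw [h1.fderiv] at h4
    simpa using h4

theorem ball_img : eC '' B2 = Pool.Agent.H272.OSP.Ball 2 := by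
  ext v
  constructor
  · rintro ⟨z, hz, rfl⟩
    exact (eC_ball z).2 hz
  · intro hv
    exact ⟨eC.symm v, eCs_ball hv, by simp⟩

/-- contact of order two contains the touching sets -/
theorem cont_touching {D Ω : Set (ℂ × ℂ)} {p : ℂ × ℂ} (hpD : p ∉ D) {c : ℝ} (hc : 0 < c)
    (h : Cont D Ω p (fun t => c * t ^ 2)) :
    ∃ r κ : ℝ, 0 < r ∧ 0 < κ ∧ Touching D p r κ ⊆ Ω := by
  obtain ⟨r, hr, h⟩ := h
  refine ⟨r / 2, c / 2, by positivity, by positivity, ?_⟩
  rintro z ⟨hzr, w, hw, hzw⟩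
  have hzr' : ‖z - p‖ < r / 2 := mem_ball_iff_norm.1 hzr
  have h1 : En (z - p) ≤ 2 * ‖z - p‖ := by rw [En_eq]; exact eC_le_norm _
  have h2 : En (z - w) ≤ 2 * ‖z - w‖ := by rw [En_eq]; exact eC_le_norm _
  have h3 : ‖z - p‖ ≤ En (z - p) := by rw [En_eq]; exact norm_le_eC _
  have h4 : ‖z - p‖ ^ 2 ≤ En (z - p) ^ 2 := pow_le_pow_left₀ (norm_nonneg _) h3 2
  have hzp : z ≠ p := by
    rintro rfl
    rw [sub_self, norm_zero] at hzw
    have := norm_nonneg (z - w)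
    simp only [ne_eq, OfNat.ofNat_ne_zero, not_false_eq_true, zero_pow, mul_zero] at hzw
    linarith
  refine h z hzp (by linarith) w hw ?_
  show En (z - w) < c * En (z - p) ^ 2
  have h5 := mul_le_mul_of_nonneg_left h4 hc.le
  linarith

end Pool.Agent.H191.Corona
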