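import Pool.Agent.H191.Corona.Maj
import Pool.Agent.H191.Corona.PairL
import Pool.Agent.H191.Corona.Shp

/-!
Strictly pseudoconvex domains near a boundary point: a descending direction, and the osculating ball.
-/

set_option autoImplicit false

open Metric Set Filter Topology Complex

namespace Pool.Agent.H191.Corona

open Pool.Agent.P157G (HBd NF)
open Pool.Agent.H272.OSP (Surrounds Exposed)

theorem descend {ρ : ℂ × ℂ → ℝ} (hρ : ContDiff ℝ 2 ρ) {p : ℂ × ℂ} (hd : fderiv ℝ ρ p ≠ 0) :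
    ∃ (u : ℂ × ℂ) (c r : ℝ), 0 < c ∧ 0 < r ∧ ∀ z ∈ ball p r, ∀ t : ℝ, 0 ≤ t → t < r →
      ρ (z + t • u) ≤ ρ z - c * t := by
  obtain ⟨v, hv⟩ : ∃ v, fderiv ℝ ρ p v ≠ 0 := by
    by_contra hc
    push Not at hc
    exact hd (ContinuousLinearMap.ext fun v => hc v)
  obtain ⟨u, hu⟩ : ∃ u, u = -((fderiv ℝ ρ p v)⁻¹ • v) := ⟨_, rfl⟩
  have hu1 : fderiv ℝ ρ p u = -1 := by
    rw [hu, map_neg, map_smul, smul_eq_mul, inv_mul_cancel₀ hv]
  have hcont : Continuous fun x => fderiv ℝ ρ x u :=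
    (hρ.continuous_fderiv (by norm_num)).clm_apply continuous_const
  have h1 : ∀ᶠ x in 𝓝 p, fderiv ℝ ρ x u < -(1 / 2) :=
    hcont.continuousAt.eventually_lt continuousAt_const (by rw [hu1]; norm_num)
  obtain ⟨s, hs, hb⟩ := Metric.eventually_nhds_iff_ball.1 h1
  have hpos : 0 < 1 + ‖u‖ := by positivity
  refine ⟨u, 1 / 2, s / (1 + ‖u‖), by norm_num, by positivity, fun z hz t ht0 htr => ?_⟩
  have hin : ∀ x ∈ Icc (0 : ℝ) t, z + x • u ∈ ball p s := by
    intro x hx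
    rw [mem_ball_iff_norm] at hz ⊢
    have h2 : ‖z + x • u - p‖ ≤ ‖z - p‖ + x * ‖u‖ := by
      have h3 : z + x • u - p = (z - p) + x • u := by abel
      rw [h3]
      refine (norm_add_le _ _).trans ?_
      rw [norm_smul, Real.norm_of_nonneg hx.1]
    have h4 : x * ‖u‖ ≤ s / (1 + ‖u‖) * ‖u‖ :=
      mul_le_mul_of_nonneg_right (hx.2.trans htr.le) (norm_nonneg _)
    have h5 : s / (1 + ‖u‖) + s / (1 + ‖u‖) * ‖u‖ = s := by field_simp
    linarith
  have hder : ∀ x : ℝ, HasDerivAt (fun x : ℝ => ρ (z + x • u)) (fderiv ℝ ρ (z + x • u) u) x := by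
    intro x
    have h2 : HasDerivAt (fun x : ℝ => z + x • u) u x := by
      have := ((hasDerivAt_id x).smul_const u).const_add z
      simpa using this
    exact ((hρ.differentiable (by norm_num)) (z + x • u)).hasFDerivAt.comp_hasDerivAt x h2
  have h6 := (convex_Icc (0 : ℝ) t).image_sub_le_mul_sub_of_deriv_le (C := -(1 / 2))
    (f := fun x : ℝ => ρ (z + x • u)) (fun x _ => (hder x).continuousAt.continuousWithinAt)
    (fun x _ => (hder x).differentiableAt.differentiableWithinAt)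
    (fun x hx => by
      rw [(hder x).deriv]
      exact (hb _ (hin x (interior_subset hx))).le)
    0 (left_mem_Icc.2 ht0) t (right_mem_Icc.2 ht0) ht0
  simp only [zero_smul, add_zero, sub_zero] at h6
  linarith

theorem exposed_loc {ρ : ℂ × ℂ → ℝ} {p : ℂ × ℂ} {φ ψ : ℂ × ℂ → ℂ × ℂ} {U V : Set (ℂ × ℂ)}
    {G : ℂ × ℂ → ℝ} (hU : IsOpen U) (hV : IsOpen V) (hpU : p ∈ U) (hφp : φ p = (1, 0))
    (hφ : DifferentiableOn ℂ φ U) (hψ : DifferentiableOn ℂ ψ V) (hm : MapsTo φ U V)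
    (hm' : MapsTo ψ V U) (hψφ : ∀ z ∈ U, ψ (φ z) = z) (hφψ : ∀ w ∈ V, φ (ψ w) = w)
    (hG : ∀ z ∈ U, ρ z < 0 ↔ G (φ z) < 0)
    (hT : ∀ η : ℝ, 0 < η → ∀ᶠ x in 𝓝 ((1 : ℂ), (0 : ℂ)), |G x - mB x| ≤ η * ‖x - (1, 0)‖ ^ 2)
    {O : Set (ℂ × ℂ)} {ρ₀ : ℂ × ℂ → ℝ} (hO : IsOpen O) (hpO : p ∈ O) (hρ₀ : ContDiffOn ℝ 3 ρ₀ O)
    (hD : ∀ z ∈ O, ρ z < 0 ↔ ρ₀ z < 0) (hd : fderiv ℝ ρ₀ p ≠ 0) :
    ∃ s₀ : ℝ, 0 < s₀ ∧ ∀ s : ℝ, 0 < s → s ≤ s₀ → ball ((1 : ℂ), (0 : ℂ)) s ⊆ V ∧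
      Exposed (eC '' {x | x ∈ ball ((1 : ℂ), (0 : ℂ)) s ∧ G x < 0}) (eC (1, 0)) := by
  set q : ℂ × ℂ := (1, 0) with hq
  have hqV : q ∈ V := by rw [← hφp]; exact hm hpU
  have hψq : ψ q = p := by rw [← hφp]; exact hψφ p hpU
  obtain ⟨s₀, hs₀, hb⟩ := Metric.eventually_nhds_iff_ball.1
    ((hT (1 / 2) (by norm_num)).and (hV.eventually_mem hqV))
  refine ⟨s₀, hs₀, fun s hs hss => ?_⟩
  have hsV : ball q s ⊆ V := fun x hx => (hb x (ball_subset_ball hss hx)).2
  have hGm : ∀ x ∈ ball q s, |G x - mB x| ≤ 1 / 2 * ‖x - q‖ ^ 2 := fun x hx =>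
    (hb x (ball_subset_ball hss hx)).1
  have hGq : G q = 0 := by
    have h1 := hGm q (mem_ball_self hs)
    rw [sub_self, norm_zero] at h1
    have h2 : mB q = 0 := by rw [hq]; simp [mB]
    rw [h2] at h1
    have h3 : |G q - 0| ≤ 0 := by linarith
    have h4 := abs_nonpos_iff.1 h3
    linarith
  have hfr : frontier (eC '' {x | x ∈ ball q s ∧ G x < 0}) =
      eC '' frontier {x | x ∈ ball q s ∧ G x < 0} := (eC.toHomeomorph.image_frontier _).symm
  refine ⟨hsV, ?_, ⟨eC (-1, 0), ?_⟩, ?_⟩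
  · rw [hfr]
    refine mem_image_of_mem _ ?_
    rw [frontier, Set.mem_sdiff]
    refine ⟨?_, fun h => ?_⟩
    · rw [Metric.mem_closure_iff]
      intro ε hε
      obtain ⟨t, ht⟩ : ∃ t : ℝ, t = min (min (ε / 2) (s / 2)) 1 := ⟨_, rfl⟩
      have ht0 : 0 < t := by rw [ht]; positivity
      have ht1 : t ≤ 1 := by rw [ht]; exact min_le_right _ _
      have htε : t ≤ ε / 2 := by rw [ht]; exact (min_le_left _ _).trans (min_le_left _ _)
      have hts : t ≤ s / 2 := by rw [ht]; exact (min_le_left _ _).trans (min_le_right _ _)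
      have hn : ‖(((1 - t : ℝ) : ℂ), (0 : ℂ)) - q‖ = t := by
        rw [hq, Prod.norm_def]
        have h1 : (((1 - t : ℝ) : ℂ), (0 : ℂ)).1 - ((1 : ℂ), (0 : ℂ)).1 = ((-t : ℝ) : ℂ) := by
          push_cast; ring
        simp only [Prod.fst_sub, Prod.snd_sub, sub_self, norm_zero]
        have h2 : ((1 - t : ℝ) : ℂ) - 1 = ((-t : ℝ) : ℂ) := by push_cast; ring
        rw [h2, Complex.norm_real, Real.norm_eq_abs, abs_neg, abs_of_pos ht0]
        exact max_eq_left ht0.le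
      have hball : (((1 - t : ℝ) : ℂ), (0 : ℂ)) ∈ ball q s := by
        rw [mem_ball_iff_norm, hn]
        linarith
      refine ⟨(((1 - t : ℝ) : ℂ), (0 : ℂ)), ⟨hball, ?_⟩, ?_⟩
      · have h1 := (abs_le.1 (hGm _ hball)).2
        rw [hn] at h1
        have h2 : mB (((1 - t : ℝ) : ℂ), (0 : ℂ)) = (1 - t) ^ 2 - 1 := by
          unfold mB
          simp only [Complex.norm_real, Real.norm_eq_abs, sq_abs, norm_zero]
          ring
        rw [h2] at h1
        nlinarith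
      · rw [dist_comm, dist_eq_norm, hn]
        linarith
    · have := (interior_subset h).2
      rw [hGq] at this
      exact lt_irrefl _ this
  · rintro _ ⟨x, ⟨hx, hGx⟩, rfl⟩
    rw [← map_sub, ← map_sub]
    have h1 := (abs_le.1 (hGm x hx)).1
    have h2 := le_n2 x
    have h3 : mB x < 1 / 2 * n2 x := by
      have : ‖x - q‖ ^ 2 ≤ n2 x := h2
      linarith
    have h4 : ‖eC (x - (-1, 0))‖ ^ 2 ≤ ‖eC (q - (-1, 0))‖ ^ 2 := by
      rw [eC_norm, eC_norm, hq]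
      have e1 : ((1 : ℂ), (0 : ℂ)) - (-1, 0) = (2, 0) := by
        ext <;> simp
        norm_num
      rw [e1]
      have e2 : ‖(x - ((-1 : ℂ), (0 : ℂ))).1‖ ^ 2 = ‖x.1‖ ^ 2 + 2 * x.1.re + 1 := by
        rw [Prod.fst_sub, sub_neg_eq_add]
        simp only [Complex.sq_norm, Complex.normSq_apply, Complex.add_re, Complex.add_im,
          Complex.one_re, Complex.one_im]
        ring
      have e3 : (x - ((-1 : ℂ), (0 : ℂ))).2 = x.2 := by simp
      have e4 : ‖x.1 - 1‖ ^ 2 = ‖x.1‖ ^ 2 - 2 * x.1.re + 1 := by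
        simp only [Complex.sq_norm, Complex.normSq_apply, Complex.sub_re, Complex.sub_im,
          Complex.one_re, Complex.one_im]
        ring
      rw [e2, e3]
      unfold mB n2 at h3
      rw [e4] at h3
      have e5 : ‖((2 : ℂ), (0 : ℂ)).1‖ ^ 2 + ‖((2 : ℂ), (0 : ℂ)).2‖ ^ 2 = 4 := by norm_num
      rw [e5]
      linarith
    exact (sq_le_sq₀ (norm_nonneg _) (norm_nonneg _)).1 h4
  · have hψc : ContinuousOn ψ (ball q s) := hψ.continuousOn.mono hsV
    have hWo : IsOpen (ball q s ∩ ψ ⁻¹' O) := hψc.isOpen_inter_preimage isOpen_ball hO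
    refine ⟨eC.symm ⁻¹' (ball q s ∩ ψ ⁻¹' O), fun v => ρ₀ (ψ (eC.symm v)),
      hWo.preimage eC.symm.continuous, ?_, ?_, fun v hv => ?_, ?_⟩
    · show eC.symm (eC q) ∈ ball q s ∩ ψ ⁻¹' O
      rw [ContinuousLinearEquiv.symm_apply_apply]
      refine ⟨mem_ball_self hs, ?_⟩
      show ψ q ∈ O
      rw [hψq]
      exact hpO
    · have h1 : ContDiffOn ℝ 3 ψ V :=
        (Pool.Agent.P157G.G7a_smooth hV hψ 3).restrict_scalars ℝ
      have h2 : ContDiff ℝ 3 (fun v : Pool.Agent.H272.OSP.V 2 => eC.symm v) :=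
        (eC.symm.contDiff (n := 3)).restrict_scalars ℝ
      have h3 : ContDiffOn ℝ 3 (fun v : Pool.Agent.H272.OSP.V 2 => ψ (eC.symm v))
          (eC.symm ⁻¹' (ball q s ∩ ψ ⁻¹' O)) := h1.comp h2.contDiffOn fun v hv => hsV hv.1
      exact hρ₀.comp h3 fun v hv => hv.2
    · obtain ⟨y, hy⟩ : ∃ y, y = eC.symm v := ⟨_, rfl⟩
      have hyv : v = eC y := by rw [hy]; simp
      have hy1 : y ∈ ball q s := by rw [hy]; exact hv.1
      have hy2 : ψ y ∈ O := by rw [hy]; exact hv.2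
      have h1 : v ∈ eC '' {x | x ∈ ball q s ∧ G x < 0} ↔ G y < 0 := by
        constructor
        · rintro ⟨x, hx, hxv⟩
          rw [hyv] at hxv
          rw [← eC.injective hxv]
          exact hx.2
        · intro h
          exact ⟨y, ⟨hy1, h⟩, hyv.symm⟩
      rw [h1]
      show G y < 0 ↔ ρ₀ (ψ (eC.symm v)) < 0
      rw [← hy]
      have h2 := hG (ψ y) (hm' (hsV hy1))
      rw [hφψ y (hsV hy1)] at h2
      rw [← h2, hD (ψ y) hy2]
    · by_contra hc
      push Not at hc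
      have hg0 : fderiv ℝ (fun v : Pool.Agent.H272.OSP.V 2 => ρ₀ (ψ (eC.symm v))) (eC q) = 0 :=
        ContinuousLinearMap.ext fun v => hc v
      have hρd : DifferentiableAt ℝ ρ₀ p :=
        (hρ₀.contDiffAt (hO.mem_nhds hpO)).differentiableAt (by norm_num)
      have hψd : DifferentiableAt ℝ ψ q := (hψ.differentiableAt (hV.mem_nhds hqV)).restrictScalars ℝ
      have hed : DifferentiableAt ℝ (fun v : Pool.Agent.H272.OSP.V 2 => eC.symm v) (eC q) :=
        ((eC.symm.differentiable (eC q)).restrictScalars ℝ)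
      have hgd : DifferentiableAt ℝ (fun v : Pool.Agent.H272.OSP.V 2 => ρ₀ (ψ (eC.symm v))) (eC q) := by
        have h1 : DifferentiableAt ℝ ψ (eC.symm (eC q)) := by
          rw [ContinuousLinearEquiv.symm_apply_apply]; exact hψd
        have h2 : DifferentiableAt ℝ ρ₀ (ψ (eC.symm (eC q))) := by
          rw [ContinuousLinearEquiv.symm_apply_apply, hψq]; exact hρd
        exact DifferentiableAt.comp (g := ρ₀) (eC q) h2 (DifferentiableAt.comp (g := ψ) (eC q) h1 hed)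
      have h3 := hgd.hasFDerivAt
      rw [hg0] at h3
      have hφd : DifferentiableAt ℝ φ p := (hφ.differentiableAt (hU.mem_nhds hpU)).restrictScalars ℝ
      have hφe : DifferentiableAt ℝ (fun z => eC (φ z)) p := by
        have h4 : DifferentiableAt ℝ (fun x : ℂ × ℂ => eC x) (φ p) :=
          (eC.differentiable (φ p)).restrictScalars ℝ
        exact DifferentiableAt.comp (g := fun x : ℂ × ℂ => eC x) p h4 hφd
      have h5 : HasFDerivAt (fun v : Pool.Agent.H272.OSP.V 2 => ρ₀ (ψ (eC.symm v))) 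
          (0 : Pool.Agent.H272.OSP.V 2 →L[ℝ] ℝ) (eC (φ p)) := by
        rw [hφp]; exact h3
      have h6 := h5.comp p hφe.hasFDerivAt
      have h7 : ((fun v : Pool.Agent.H272.OSP.V 2 => ρ₀ (ψ (eC.symm v))) ∘ fun z => eC (φ z)) =ᶠ[𝓝 p]
          ρ₀ := by
        filter_upwards [hU.mem_nhds hpU] with z hz
        show ρ₀ (ψ (eC.symm (eC (φ z)))) = ρ₀ z
        rw [ContinuousLinearEquiv.symm_apply_apply, hψφ z hz]
      refine hd ?_
      rw [← h7.fderiv_eq, h6.fderiv, ContinuousLinearMap.zero_comp]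

end Pool.Agent.H191.Corona
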