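import Pool.Agent.H191.Corona.OscA

/-!
Sharpness of the order of contact two at every boundary point, with strictly pseudoconvex larger
domains.
-/

set_option autoImplicit false

open Metric Set Filter Topology Complex

namespace Pool.Agent.H191.Corona

open Pool.Agent.P157G (HBd NF)
open Pool.Agent.H272.OSP (Surrounds Exposed)

theorem uu_le (p z : ℂ × ℂ) : uu p z ≤ 2 * ‖z - p‖ ^ 2 := by
  rw [uu_eq]
  have h1 : ‖z.1 - p.1‖ ≤ ‖z - p‖ := norm_fst_le (z - p)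
  have h2 : ‖z.2 - p.2‖ ≤ ‖z - p‖ := norm_snd_le (z - p)
  have h3 := pow_le_pow_left₀ (norm_nonneg _) h1 2
  have h4 := pow_le_pow_left₀ (norm_nonneg _) h2 2
  linarith

theorem En_sq (p z : ℂ × ℂ) : En (z - p) = √(uu p z) := by
  rw [uu_eq]
  rfl

/-- the corona theorem on `A` near `p` for data on `Ω` -/
def PairAt (Ω A : Set (ℂ × ℂ)) (p : ℂ × ℂ) : Prop :=
  ∀ (N : ℕ) (f : Fin N → ℂ × ℂ → ℂ) (δ : ℝ), 0 < δ → (∀ j, ∃ M, HBd Ω M (f j)) →
    (∀ z ∈ Ω, δ < ∑ j, ‖f j z‖ ^ 2) → ∃ s : ℝ, 0 < s ∧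
    ∃ h : Fin N → ℂ × ℂ → ℂ, (∀ j, ∃ C, HBd (A ∩ ball p s) C (h j)) ∧
      ∀ z ∈ A ∩ ball p s, ∑ j, f j z * h j z = 1

/-- from `PairAt` to families with one element -/
theorem pair_unit {Ω A : Set (ℂ × ℂ)} {p : ℂ × ℂ} (hP : PairAt Ω A p) (N : ℕ) (δ : ℝ)
    (F : Unit → Fin N → ℂ × ℂ → ℂ) (hδ : 0 < δ)
    (hF : ∀ i, (∀ j, HBd Ω 1 (F i j)) ∧ ∀ x ∈ Ω, δ ≤ ∑ j, ‖F i j x‖) :
    ∃ s : ℝ, 0 < s ∧ ∃ C : ℝ, ∀ i, ∃ g : Fin N → ℂ × ℂ → ℂ, (∀ j, HBd (A ∩ ball p s) C (g j)) ∧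
      ∀ x ∈ A ∩ ball p s, ∑ j, F i j x * g j x = 1 := by
  obtain ⟨s, hs, h, hh, he⟩ := hP N (F ()) (δ ^ 2 / (N + 1)) (by positivity)
    (fun j => ⟨1, (hF ()).1 j⟩) (fun z hz => by
      have h1 := (hF ()).2 z hz
      have h2 := sq_sum_le_card_mul_sum_sq (s := Finset.univ) (f := fun j : Fin N => ‖F () j z‖)
      rw [Finset.card_univ, Fintype.card_fin] at h2
      have h3 : δ ^ 2 ≤ (∑ j, ‖F () j z‖) ^ 2 := pow_le_pow_left₀ hδ.le h1 2
      have h4 : 0 < ∑ j, ‖F () j z‖ ^ 2 := by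
        have h5 : 0 ≤ ∑ j, ‖F () j z‖ ^ 2 := Finset.sum_nonneg fun j _ => sq_nonneg _
        rcases h5.lt_or_eq with h6 | h6
        · exact h6
        · rw [← h6] at h2
          nlinarith
      rw [div_lt_iff₀ (by positivity)]
      nlinarith)
  choose C hC using hh
  refine ⟨s, hs, ∑ j, |C j|, fun i => ⟨h, fun j => ⟨(hC j).1, fun z hz => ?_⟩, he⟩⟩
  exact (((hC j).2 z hz).trans (le_abs_self _)).trans
    (Finset.single_le_sum (f := fun l => |C l|) (fun l _ => abs_nonneg _) (Finset.mem_univ j))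

/-- the comparison function -/
theorem kap {m : ℝ → ℝ} (hm : Tendsto m (𝓝 0) (𝓝 0)) (C₁ L : ℝ) :
    Tendsto (fun t => (C₁ * (m (4 * L ^ 2 * t ^ 2) * (2 * L ^ 2 * t ^ 2) + 4 * L ^ 4 * t ^ 4) + t ^ 3) /
      t ^ 2) (𝓝[>] 0) (𝓝 0) := by
  have h1 : Tendsto (fun t : ℝ => m (4 * L ^ 2 * t ^ 2)) (𝓝 0) (𝓝 0) := by
    refine hm.comp ?_
    have h2 : Continuous fun t : ℝ => 4 * L ^ 2 * t ^ 2 := by fun_prop
    have h3 := h2.tendsto 0
    simpa using h3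
  have h2 : Tendsto (fun t : ℝ => C₁ * (m (4 * L ^ 2 * t ^ 2) * (2 * L ^ 2) + 4 * L ^ 4 * t ^ 2) + t)
      (𝓝 0) (𝓝 (C₁ * (0 * (2 * L ^ 2) + 4 * L ^ 4 * 0 ^ 2) + 0)) := by
    refine Tendsto.add (Tendsto.const_mul _ (Tendsto.add (h1.mul_const _) ?_)) tendsto_id
    have h3 : Continuous fun t : ℝ => 4 * L ^ 4 * t ^ 2 := by fun_prop
    exact h3.tendsto 0
  have h3 : C₁ * (0 * (2 * L ^ 2) + 4 * L ^ 4 * 0 ^ 2) + 0 = 0 := by ring
  rw [h3] at h2
  refine (h2.mono_left nhdsWithin_le_nhds).congr' ?_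
  filter_upwards [self_mem_nhdsWithin] with t ht
  have ht' : (0 : ℝ) < t := ht
  field_simp

/-- small perturbations are contained in small neighbourhoods -/
theorem close_eps {ρ h' : ℂ × ℂ → ℝ} (hρ : NF ρ) (hh : Continuous h') (hc : HasCompactSupport h')
    {e : ℝ} (he : 0 < e) : ∀ᶠ ε in 𝓝 (0 : ℝ), ∀ z, ρ z - ε * h' z < 0 →
      ∃ w, ρ w < 0 ∧ ‖z - w‖ < e := by
  have hK : IsCompact (tsupport h' \ thickening e {z | ρ z < 0}) := by
    have h1 : IsCompact (tsupport h') := hc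
    exact h1.diff isOpen_thickening
  have hcρ : Continuous ρ := hρ.smooth.continuous
  have c0 : Continuous fun z : ℝ × (ℂ × ℂ) => ρ z.2 - z.1 * h' z.2 := by fun_prop
  have hpos : ∀ y ∈ tsupport h' \ thickening e {z | ρ z < 0}, 0 < ρ y := by
    rintro y ⟨-, hy⟩
    by_contra hcon
    refine hy (mem_thickening_iff.2 ?_)
    rcases (not_lt.1 hcon).lt_or_eq with h1 | h1
    · exact ⟨y, h1, by rw [dist_self]; exact he⟩
    · obtain ⟨u, c, r, hc0, hr, hdes⟩ := descend hρ.smooth (hρ.nd y h1)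
      obtain ⟨t, ht⟩ : ∃ t : ℝ, t = min (r / 2) (e / (2 * (‖u‖ + 1))) := ⟨_, rfl⟩
      have ht0 : 0 < t := by rw [ht]; positivity
      have htr : t < r := by rw [ht]; exact lt_of_le_of_lt (min_le_left _ _) (by linarith)
      have hte : t * (‖u‖ + 1) ≤ e / 2 := by
        have h2 : t ≤ e / (2 * (‖u‖ + 1)) := by rw [ht]; exact min_le_right _ _
        rw [le_div_iff₀ (by positivity)] at h2
        linarith
      refine ⟨y + t • u, ?_, ?_⟩
      · have h2 := hdes y (mem_ball_self hr) t ht0.le htr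
        rw [h1] at h2
        show ρ (y + t • u) < 0
        nlinarith
      · rw [dist_eq_norm, sub_add_cancel_left, norm_neg, norm_smul, Real.norm_of_nonneg ht0.le]
        linarith
  have e1 : ∀ᶠ ε in 𝓝 (0 : ℝ), ∀ x ∈ tsupport h' \ thickening e {z | ρ z < 0},
      0 < ρ x - ε * h' x := by
    refine hK.eventually_forall_of_forall_eventually (fun y hy => ?_)
    have h1 : 0 < ρ y - (0 : ℝ) * h' y := by rw [zero_mul, sub_zero]; exact hpos y hy
    exact (continuousAt_const (y := (0 : ℝ))).eventually_lt (c0.continuousAt (x := ((0 : ℝ), y))) h1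
  filter_upwards [e1] with ε h1 z hz
  by_cases hz1 : z ∈ tsupport h'
  · by_cases hz2 : z ∈ thickening e {z | ρ z < 0}
    · obtain ⟨w, hw, hzw⟩ := mem_thickening_iff.1 hz2
      exact ⟨w, hw, by rwa [dist_eq_norm] at hzw⟩
    · exact absurd (h1 z ⟨hz1, hz2⟩) (not_lt.2 hz.le)
  · have h2 : h' z = 0 := image_eq_zero_of_notMem_tsupport hz1
    rw [h2, mul_zero, sub_zero] at hz
    exact ⟨z, hz, by rw [sub_self, norm_zero]; exact he⟩

theorem sharp_at {ρ : ℂ × ℂ → ℝ} (hρ : NF ρ) {p : ℂ × ℂ} (hp : ρ p = 0)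
    {O : Set (ℂ × ℂ)} {ρ₀ : ℂ × ℂ → ℝ} (hO : IsOpen O) (hpO : p ∈ O) (hρ₀ : ContDiffOn ℝ 3 ρ₀ O)
    (hD : ∀ z ∈ O, ρ z < 0 ↔ ρ₀ z < 0) (hd : fderiv ℝ ρ₀ p ≠ 0)
    {κ : ℝ → ℝ} (hκ : Tendsto (fun t => κ t / t ^ 2) (𝓝[>] 0) (𝓝 0)) {e : ℝ} (he : 0 < e) :
    ∃ ρ' : ℂ × ℂ → ℝ, NF ρ' ∧ ρ' p = 0 ∧ (∀ z, ρ z ≤ 0 → z ≠ p → ρ' z < 0) ∧
      (∀ z, ρ' z < 0 → ∃ w, ρ w < 0 ∧ ‖z - w‖ < e) ∧
      Cont {x | ρ x < 0} {x | ρ' x < 0} p κ ∧ (PairAt {x | ρ' x < 0} {x | ρ x < 0} p → UnifV) := by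
  obtain ⟨φ, ψ, U, V, G, hU, hV, hpU, hφp, hφ, hψ, hm, hm', hψφ, hφψ, hG, hT⟩ :=
    to_ball2 hρ.smooth hp (hρ.nd p hp) (fun v hv hdd => hρ.levi p hp v hv hdd)
  obtain ⟨s₀, hs₀, hexp⟩ := exposed_loc hU hV hpU hφp hφ hψ hm hm' hψφ hφψ hG hT hO hpO hρ₀ hD hd
  obtain ⟨hsV, hEx⟩ := hexp s₀ hs₀ le_rfl
  set q : ℂ × ℂ := (1, 0) with hq
  have hqV : q ∈ V := by rw [← hφp]; exact hm hpU
  have hψq : ψ q = p := by rw [← hφp]; exact hψφ p hpU
  obtain ⟨L, t1, hL, ht1, ht1V, hLip⟩ := lip hV hψ hqV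
  obtain ⟨L', t2, hL', ht2, ht2U, hLip'⟩ := lip hU hφ hpU
  obtain ⟨u, c, rd, hc, hrd, hdes⟩ := descend hρ.smooth (hρ.nd p hp)
  -- the majorant
  have hω : Tendsto (fun t => √(κ t / t ^ 2)) (𝓝[>] 0) (𝓝 0) := by
    have h1 := (Real.continuous_sqrt.tendsto 0).comp hκ
    rwa [Real.sqrt_zero] at h1
  obtain ⟨h, m, hh2, hhpos, hhp, hmm, hmn, hmt, hhu, rh, hrh, hhl⟩ := majorant hω p
  have hh0 : ∀ z, 0 ≤ h z := fun z => by
    by_cases hz : z = p
    · rw [hz, hhp]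
    · exact (hhpos z hz).le
  -- the cut off
  obtain ⟨R, hR⟩ := hρ.bdd.subset_ball p
  obtain ⟨R', hR'⟩ : ∃ R' : ℝ, R' = max R 1 := ⟨_, rfl⟩
  have hR'1 : 1 ≤ R' := by rw [hR']; exact le_max_right _ _
  have hRR' : R ≤ R' := by rw [hR']; exact le_max_left _ _
  let χ : ContDiffBump p := ⟨R', R' + 1, by linarith, by linarith⟩
  have hχ1 : ∀ z ∈ ball p R', χ z = 1 := fun z hz =>
    χ.one_of_mem_closedBall (ball_subset_closedBall hz)
  have hχ2 : ContDiff ℝ 2 (χ : ℂ × ℂ → ℝ) := χ.contDiff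
  obtain ⟨h', hh'⟩ : ∃ h' : ℂ × ℂ → ℝ, h' = fun z => χ z * h z := ⟨_, rfl⟩
  have hh'2 : ContDiff ℝ 2 h' := by rw [hh']; exact hχ2.mul hh2
  have hh'c : HasCompactSupport h' := by
    rw [hh']
    exact χ.hasCompactSupport.mul_right
  have hh'1 : ∀ z ∈ ball p R', h' z = h z := fun z hz => by
    rw [hh']
    show χ z * h z = h z
    rw [hχ1 z hz, one_mul]
  obtain ⟨ε, hNF, hclose, hε0, hε1⟩ : ∃ ε : ℝ, NF (fun x => ρ x - ε * h' x) ∧
      (∀ z, ρ z - ε * h' z < 0 → ∃ w, ρ w < 0 ∧ ‖z - w‖ < e) ∧ 0 < ε ∧ ε < 1 := by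
    have h1 : ∀ᶠ ε in 𝓝[>] (0 : ℝ), NF (fun x => ρ x - ε * h' x) :=
      (Pool.Agent.P157G.nf_stable hρ hh'2 hh'c).filter_mono nhdsWithin_le_nhds
    have h3 : ∀ᶠ ε in 𝓝[>] (0 : ℝ), ∀ z, ρ z - ε * h' z < 0 → ∃ w, ρ w < 0 ∧ ‖z - w‖ < e :=
      (close_eps hρ hh'2.continuous hh'c he).filter_mono nhdsWithin_le_nhds
    have h2 : ∀ᶠ ε in 𝓝[>] (0 : ℝ), 0 < ε ∧ ε < 1 := Ioo_mem_nhdsGT one_pos
    exact (h1.and (h3.and h2)).exists
  obtain ⟨ρ', hρ'⟩ : ∃ ρ' : ℂ × ℂ → ℝ, ρ' = fun x => ρ x - ε * h' x := ⟨_, rfl⟩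
  rw [← hρ'] at hNF
  have hρ'p : ρ' p = 0 := by
    rw [hρ']
    show ρ p - ε * h' p = 0
    rw [hh'1 p (mem_ball_self (by linarith)), hhp, hp]
    ring
  have hρ'n : ∀ z ∈ ball p R', ρ' z = ρ z - ε * h z := fun z hz => by
    rw [hρ']
    show ρ z - ε * h' z = _
    rw [hh'1 z hz]
  have hsub0 : ∀ z, ρ z ≤ 0 → z ≠ p → ρ' z < 0 := by
    intro z hz hzp
    rw [hρ'n z (ball_subset_ball hRR' (hR hz))]
    have h1 := mul_pos hε0 (hhpos z hzp)
    linarith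
  -- the germ of `D`
  obtain ⟨C₁, hC₁⟩ : ∃ C₁ : ℝ, C₁ = 2 * L' * ‖u‖ / c := ⟨_, rfl⟩
  have hC₁0 : 0 ≤ C₁ := by rw [hC₁]; positivity
  have hDo : IsOpen {x | x ∈ ball q s₀ ∧ G x < 0} := by
    have h1 : {x | x ∈ ball q s₀ ∧ G x < 0} = ball q s₀ ∩ ψ ⁻¹' {z | ρ z < 0} := by
      ext x
      constructor
      · rintro ⟨h1, h2⟩
        have h3 := hG (ψ x) (hm' (hsV h1))
        rw [hφψ x (hsV h1)] at h3
        exact ⟨h1, h3.2 h2⟩
      · rintro ⟨h1, h2⟩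
        have h3 := hG (ψ x) (hm' (hsV h1))
        rw [hφψ x (hsV h1)] at h3
        exact ⟨h1, h3.1 h2⟩
    rw [h1]
    exact (hψ.continuousOn.mono hsV).isOpen_inter_preimage isOpen_ball
      (isOpen_lt hρ.smooth.continuous continuous_const)
  have hDo' : IsOpen (eC '' {x | x ∈ ball q s₀ ∧ G x < 0}) := eC.toHomeomorph.isOpenMap _ hDo
  obtain ⟨O₁, ⟨hO1, hO2, hO3, rO, hrO, hO4⟩, -, hF⟩ :=
    Pool.Agent.H272.OSP.main two_pos hDo' hEx (kap hmt C₁ L)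
  -- the larger domain is mapped to `O₁`
  have hin : ∃ r₁ : ℝ, 0 < r₁ ∧ ball p r₁ ⊆ U ∧ ∀ z ∈ {x | ρ' x < 0} ∩ ball p r₁,
      eC (φ z) ∈ O₁ := by
    have hhc : Continuous h := hh2.continuous
    have hφc : ContinuousAt φ p := hφ.continuousOn.continuousAt (hU.mem_nhds hpU)
    have k0 : ball p t2 ∩ φ ⁻¹' ball q s₀ ∈ 𝓝 p :=
      inter_mem (ball_mem_nhds p ht2) (hφc.preimage_mem_nhds (by
        rw [hφp]; exact ball_mem_nhds q hs₀))
    have k1 : ∀ᶠ z in 𝓝 p, z + (ε * h z / c) • u ∈ ball p t2 ∩ φ ⁻¹' ball q s₀ := by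
      have h1 : Continuous fun z => z + (ε * h z / c) • u := by fun_prop
      have h2 := h1.tendsto p
      simp only [hhp, mul_zero, zero_div, zero_smul, add_zero] at h2
      exact h2 k0
    have k2 : ∀ᶠ z in 𝓝 p, ε * h z / c < rd := by
      have h1 : Continuous fun z => ε * h z / c := by fun_prop
      refine h1.continuousAt.eventually_lt continuousAt_const ?_
      rw [hhp]
      simpa using hrd
    have k3 : ∀ᶠ z in 𝓝 p, φ z ∈ ball q t1 := hφc.preimage_mem_nhds (by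
      rw [hφp]; exact ball_mem_nhds q ht1)
    have k4 : ∀ᶠ z in 𝓝 p, ‖eC (φ z) - eC q‖ < rO := by
      have h1 : ContinuousAt (fun z => ‖eC (φ z) - eC q‖) p :=
        ((eC.continuous.continuousAt.comp hφc).sub continuousAt_const).norm
      refine h1.eventually_lt continuousAt_const ?_
      rw [hφp, sub_self, norm_zero]
      exact hrO
    have k5 : ∀ᶠ z in 𝓝 p, z ∈ ball p rd := ball_mem_nhds p hrd
    have k6 : ∀ᶠ z in 𝓝 p, z ∈ ball p t2 := ball_mem_nhds p ht2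
    have k7 : ∀ᶠ z in 𝓝 p, z ∈ ball p R' := ball_mem_nhds p (by linarith)
    have k8 : ∀ᶠ z in 𝓝 p, z ∈ U := hU.mem_nhds hpU
    obtain ⟨r₁, hr₁, hb⟩ := Metric.eventually_nhds_iff_ball.1 (k1.and (k2.and (k3.and (k4.and
      (k5.and (k6.and (k7.and k8)))))))
    refine ⟨r₁, hr₁, fun z hz => (hb z hz).2.2.2.2.2.2.2, ?_⟩
    rintro z ⟨hz, hzr⟩
    obtain ⟨h1, h2, h3, h4, h5, h6, h7, h8⟩ := hb z hzr
    have hzp : z ≠ p := by
      rintro rfl
      have h9 : ρ' z < 0 := hz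
      rw [hρ'p] at h9
      exact lt_irrefl _ h9
    have hxq : φ z ≠ q := by
      intro h9
      rw [← hφp] at h9
      exact hzp (by rw [← hψφ z h8, h9, hψφ p hpU])
    have hτ : 0 < ‖eC (φ z) - eC q‖ := by
      rw [norm_pos_iff, sub_ne_zero]
      exact fun h9 => hxq (eC.injective h9)
    refine hO4 (eC (φ z)) (fun h9 => hxq (eC.injective h9)) h4 ?_
    have hρz : ρ z < ε * h z := by
      have h9 : ρ' z < 0 := hz
      rw [hρ'n z h7] at h9
      linarith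
    obtain ⟨w, hw⟩ : ∃ w, w = z + (ε * h z / c) • u := ⟨_, rfl⟩
    have ht0 : 0 ≤ ε * h z / c := div_nonneg (mul_nonneg hε0.le (hh0 z)) hc.le
    have hρw : ρ w < 0 := by
      have h9 := hdes z h5 _ ht0 h2
      rw [← hw] at h9
      have h10 : c * (ε * h z / c) = ε * h z := by field_simp
      rw [h10] at h9
      linarith
    rw [← hw] at h1
    have hwD : φ w ∈ {x | x ∈ ball q s₀ ∧ G x < 0} := ⟨h1.2, (hG w (ht2U h1.1)).1 hρw⟩
    refine lt_of_le_of_lt (infDist_le_dist_of_mem (mem_image_of_mem eC hwD)) ?_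
    rw [dist_eq_norm, ← map_sub]
    have h11 : ‖eC (φ z - φ w)‖ ≤ C₁ * h z := by
      refine (eC_le_norm _).trans ?_
      have h12 := hLip' z h6 w h1.1
      have h13 : ‖z - w‖ = ε * h z / c * ‖u‖ := by
        rw [hw, sub_add_cancel_left, norm_neg, norm_smul, Real.norm_of_nonneg ht0]
      rw [h13] at h12
      have h14 : ε * h z / c ≤ h z / c := by
        refine div_le_div_of_nonneg_right ?_ hc.le
        have := mul_le_mul_of_nonneg_right hε1.le (hh0 z)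
        linarith
      have h15 : L' * (ε * h z / c * ‖u‖) ≤ L' * (h z / c * ‖u‖) :=
        mul_le_mul_of_nonneg_left (mul_le_mul_of_nonneg_right h14 (norm_nonneg _)) hL'.le
      have h16 : C₁ * h z = 2 * (L' * (h z / c * ‖u‖)) := by
        rw [hC₁]; ring
      rw [h16]
      linarith
    obtain ⟨τ, hτ'⟩ : ∃ τ : ℝ, τ = ‖eC (φ z) - eC q‖ := ⟨_, rfl⟩
    rw [← hτ'] at hτ ⊢
    have h17 : ‖z - p‖ ≤ L * τ := by
      have h18 := hLip (φ z) h3 q (mem_ball_self ht1)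
      rw [hψφ z h8, hψq] at h18
      refine h18.trans (mul_le_mul_of_nonneg_left ?_ hL.le)
      rw [hτ', ← map_sub]
      exact norm_le_eC _
    have h19 : uu p z ≤ 2 * L ^ 2 * τ ^ 2 := by
      refine (uu_le p z).trans ?_
      have h20 := pow_le_pow_left₀ (norm_nonneg _) h17 2
      have h21 : (L * τ) ^ 2 = L ^ 2 * τ ^ 2 := by ring
      rw [h21] at h20
      linarith
    have hu0 := uu_nonneg p z
    have h22 : h z ≤ m (4 * L ^ 2 * τ ^ 2) * (2 * L ^ 2 * τ ^ 2) + 4 * L ^ 4 * τ ^ 4 := by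
      refine (hhu z).trans (add_le_add ?_ ?_)
      · refine mul_le_mul (hmm (by linarith)) h19 hu0 (hmn _)
      · have h23 := pow_le_pow_left₀ hu0 h19 2
        refine h23.trans (le_of_eq (by ring))
    have h24 := mul_le_mul_of_nonneg_left h22 hC₁0
    have h25 : 0 < τ ^ 3 := by positivity
    linarith
  obtain ⟨r₁, hr₁, hr₁U, hin⟩ := hin
  have hcl : ∀ z, ρ' z < 0 → ∃ w, ρ w < 0 ∧ ‖z - w‖ < e := fun z hz => by
    rw [hρ'] at hz
    exact hclose z hz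
  refine ⟨ρ', hNF, hρ'p, hsub0, hcl, ?_, fun hP => ?_⟩
  · -- contact
    obtain ⟨K, T, hT', hK⟩ := ((hρ.smooth.of_le (by norm_num : (1 : WithTop ℕ∞) ≤ 2)).contDiffAt
      (x := p)).exists_lipschitzOnWith
    obtain ⟨d₁, hd₁, hd₁T⟩ := Metric.mem_nhds_iff.1 hT'
    have hκs : ∀ᶠ t in 𝓝[>] (0 : ℝ), κ t / t ^ 2 < min 1 ((ε / (K + 1)) ^ 2) :=
      hκ.eventually_lt_const (by positivity)
    obtain ⟨d₂, hd₂, hd₂'⟩ := mem_nhdsGT_iff_exists_Ioo_subset.1 hκs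
    have hd₂0 : (0 : ℝ) < d₂ := hd₂
    refine ⟨min (min d₂ (d₁ / 3)) (min (√rh) (min R' 1)), ?_, fun z hzp hz w hw hzw => ?_⟩
    · have : 0 < √rh := Real.sqrt_pos.2 hrh
      have : 0 < R' := by linarith
      positivity
    · obtain ⟨τ, hτ⟩ : ∃ τ : ℝ, τ = En (z - p) := ⟨_, rfl⟩
      rw [← hτ] at hz hzw
      have hτu : τ = √(uu p z) := by rw [hτ, En_sq]
      have hu0 := uu_pos hzp
      have hτ0 : 0 < τ := by rw [hτu]; exact Real.sqrt_pos.2 hu0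
      have hτ2 : τ ^ 2 = uu p z := by rw [hτu]; exact Real.sq_sqrt hu0.le
      have hz1 : τ < d₂ := hz.trans_le ((min_le_left _ _).trans (min_le_left _ _))
      have hz2 : τ < d₁ / 3 := hz.trans_le ((min_le_left _ _).trans (min_le_right _ _))
      have hz3 : τ < √rh := hz.trans_le ((min_le_right _ _).trans (min_le_left _ _))
      have hz4 : τ < R' := hz.trans_le ((min_le_right _ _).trans ((min_le_right _ _).trans
        (min_le_left _ _)))
      have hz5 : τ < 1 := hz.trans_le ((min_le_right _ _).trans ((min_le_right _ _).trans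
        (min_le_right _ _)))
      have hnz : ‖z - p‖ ≤ τ := by rw [hτ, En_eq]; exact norm_le_eC _
      have hnw : ‖z - w‖ ≤ En (z - w) := by rw [En_eq]; exact norm_le_eC _
      have hrat : κ τ / τ ^ 2 < min 1 ((ε / (K + 1)) ^ 2) := hd₂' ⟨hτ0, hz1⟩
      have hκ0 : 0 < κ τ := lt_of_le_of_lt ((norm_nonneg _).trans hnw) hzw
      have hr0 : 0 < κ τ / τ ^ 2 := by positivity
      obtain ⟨y, hy⟩ : ∃ y : ℝ, y = √(κ τ / τ ^ 2) := ⟨_, rfl⟩
      have hy0 : 0 < y := by rw [hy]; exact Real.sqrt_pos.2 hr0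
      have hy2 : y ^ 2 = κ τ / τ ^ 2 := by rw [hy]; exact Real.sq_sqrt hr0.le
      have hyκ : κ τ = y ^ 2 * τ ^ 2 := by rw [hy2]; field_simp
      have hK0 : (0 : ℝ) ≤ K := K.2
      have hyε : y ≤ ε / (K + 1) := by
        have h1 : y ^ 2 ≤ (ε / (K + 1)) ^ 2 := by rw [hy2]; exact (hrat.trans_le (min_le_right _ _)).le
        exact (sq_le_sq₀ hy0.le (by positivity)).1 h1
      have hy1 : y ^ 2 ≤ 1 := by rw [hy2]; exact (hrat.trans_le (min_le_left _ _)).le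
      have hκτ : κ τ ≤ τ := by
        rw [hyκ]
        nlinarith
      have hzT : z ∈ T := hd₁T (by rw [mem_ball_iff_norm]; linarith)
      have hwT : w ∈ T := hd₁T (by
        rw [mem_ball_iff_norm]
        have h1 : ‖w - p‖ ≤ ‖z - p‖ + ‖z - w‖ := by
          have h2 : w - p = (z - p) - (z - w) := by abel
          rw [h2]
          exact norm_sub_le _ _
        linarith)
      have h1 := hK.dist_le_mul z hzT w hwT
      rw [Real.dist_eq, dist_eq_norm] at h1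
      have h2 := (abs_le.1 h1).2
      have h3 : ρ w < 0 := hw
      have h4 : (K : ℝ) * ‖z - w‖ ≤ K * κ τ := mul_le_mul_of_nonneg_left (by linarith) hK0
      have h5 : y * τ ^ 2 ≤ h z := by
        have h6 := hhl z hzp (by
          rw [← hτ2]
          have h7 := (sq_lt_sq₀ hτ0.le (Real.sqrt_nonneg rh)).2 hz3
          rwa [Real.sq_sqrt hrh.le] at h7)
        rw [← hτu, ← hτ2, ← hy] at h6
        exact h6
      have h6 : (K : ℝ) * κ τ ≤ ε * h z := by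
        have h7 : (K : ℝ) * y ≤ ε := by
          have h8 : (K + 1 : ℝ) * y ≤ ε := by
            have := mul_le_mul_of_nonneg_left hyε (show (0 : ℝ) ≤ K + 1 by linarith)
            rwa [mul_div_cancel₀ _ (show (K + 1 : ℝ) ≠ 0 by positivity)] at this
          linarith
        have h9 : (K : ℝ) * κ τ = (K * y) * (y * τ ^ 2) := by rw [hyκ]; ring
        rw [h9]
        exact mul_le_mul h7 h5 (by positivity) hε0.le
      have h10 : z ∈ ball p R' := by rw [mem_ball_iff_norm]; linarith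
      show ρ' z < 0
      rw [hρ'n z h10]
      linarith
  · -- from `D` to the ball
    intro N δ hδ
    rcases Nat.eq_zero_or_pos N with rfl | hN
    · refine ⟨0, fun f hf => ?_⟩
      obtain ⟨-, -, h1⟩ := hf
      have h2 := h1 0 (mem_ball_self one_pos)
      simp only [Finset.univ_eq_empty, Finset.sum_empty] at h2
      exact absurd h2 (not_le.2 hδ)
    have hN1 : (1 : ℝ) ≤ N := by exact_mod_cast hN
    obtain ⟨δ₀, hδ₀⟩ : ∃ δ₀ : ℝ, δ₀ = min (δ / 2) (1 / 2) := ⟨_, rfl⟩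
    have h0 : 0 < δ₀ := by rw [hδ₀]; positivity
    have h1 : δ₀ < δ := by
      rw [hδ₀]
      exact lt_of_le_of_lt (min_le_left _ _) (by linarith)
    have h2 : δ₀ < N := by
      rw [hδ₀]
      exact lt_of_le_of_lt (min_le_right _ _) (by linarith)
    obtain ⟨F, ⟨hF1, hF2, hF3⟩, hF4⟩ := hF N δ₀ h0 h2
    have hA : {x | ρ x < 0} ⊆ {x | ρ' x < 0} := by
      intro z hz
      refine hsub0 z (le_of_lt hz) ?_
      rintro rfl
      have h3 : ρ z < 0 := hz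
      rw [hp] at h3
      exact lt_irrefl _ h3
    have hφe : DifferentiableOn ℂ (fun z => eC (φ z)) ({x | ρ' x < 0} ∩ ball p r₁) :=
      eC.differentiable.comp_differentiableOn (hφ.mono fun z hz => hr₁U hz.2)
    obtain ⟨s, hs, C, hC⟩ := pair_local hNF hA (I := Unit)
      (fun N' δ' F' hδ' hF' => pair_unit hP N' δ' F' hδ' hF') (p := p) hρ'p.le hr₁ (N := N) h0
      (F := fun _ j z => F j (eC (φ z))) (fun _ => ⟨fun j =>
        ⟨(hF1 j).comp hφe hin, fun z hz => hF2 j _ (hin z hz)⟩, fun z hz => hF3 _ (hin z hz)⟩)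
    obtain ⟨g, hg, he⟩ := hC ()
    have hψc : ContinuousAt ψ q := hψ.continuousOn.continuousAt (hV.mem_nhds hqV)
    have hn1 : ∀ᶠ x in 𝓝 q, ψ x ∈ ball p s :=
      hψc.preimage_mem_nhds (by rw [hψq]; exact ball_mem_nhds p hs)
    obtain ⟨s', hs', hb'⟩ := Metric.eventually_nhds_iff_ball.1 hn1
    refine ⟨C, fun f hf => ?_⟩
    have hback : ∀ x, x ∈ ball q s₀ → G x < 0 → x ∈ ball q s' →
        ψ x ∈ {x | ρ x < 0} ∩ ball p s := by
      intro x hx hGx hx'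
      have h3 := hG (ψ x) (hm' (hsV hx))
      rw [hφψ x (hsV hx)] at h3
      exact ⟨h3.2 hGx, hb' x hx'⟩
    have hsol : Pool.Agent.H272.OSP.Solvable
        ((eC '' {x | x ∈ ball q s₀ ∧ G x < 0}) ∩ eC '' ball q s') C F := by
      refine ⟨fun j v => g j (ψ (eC.symm v)), fun j => ?_, fun j v hv => ?_, fun v hv => ?_⟩
      · have h3 : DifferentiableOn ℂ (fun v => ψ (eC.symm v))
            ((eC '' {x | x ∈ ball q s₀ ∧ G x < 0}) ∩ eC '' ball q s') := by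
          refine hψ.comp eC.symm.differentiable.differentiableOn ?_
          rintro v ⟨⟨x, hx, rfl⟩, -⟩
          rw [ContinuousLinearEquiv.symm_apply_apply]
          exact hsV hx.1
        refine (hg j).1.comp h3 ?_
        rintro v ⟨⟨x, hx, rfl⟩, ⟨y, hy, hyx⟩⟩
        simp only [ContinuousLinearEquiv.symm_apply_apply]
        rw [eC.injective hyx] at hy
        exact hback x hx.1 hx.2 hy
      · obtain ⟨⟨x, hx, rfl⟩, ⟨y, hy, hyx⟩⟩ := hv
        simp only [ContinuousLinearEquiv.symm_apply_apply]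
        rw [eC.injective hyx] at hy
        exact (hg j).2 _ (hback x hx.1 hx.2 hy)
      · obtain ⟨⟨x, hx, rfl⟩, ⟨y, hy, hyx⟩⟩ := hv
        simp only [ContinuousLinearEquiv.symm_apply_apply]
        rw [eC.injective hyx] at hy
        have h3 := he _ (hback x hx.1 hx.2 hy)
        simp only [hφψ x (hsV hx.1)] at h3
        exact h3
    obtain ⟨hf1, hf2, hf3⟩ := hf
    exact hF4 C (eC '' ball q s') (eC.toHomeomorph.isOpenMap _ isOpen_ball)
      (mem_image_of_mem _ (mem_ball_self hs')) hsol δ h1 2 le_rfl f ⟨hf1, hf2, hf3⟩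

end Pool.Agent.H191.Corona
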