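import Pool.Agent.H191.Corona.Trans
import Pool.Graph.R_pool_sql_team_seeded_64922ed1.X27.Cor.Touch

/-!
Data near a boundary point of the ball of which all but one extend to an ellipsoid touching the ball.
-/

set_option autoImplicit false

open Metric Set Filter Topology Complex

namespace Pool.Agent.H191.Corona

section V

open Pool.Agent.W732.Cor (mv S_mv S_ball)
open Pool.Agent.TH310.Cor Pool.Agent.X27.Cor

variable {m : ℕ}

/-- `Pool.Agent.X27.Cor.near` with a local lower bound -/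
theorem near' {N : ℕ} {p : V m} (hp : ‖p‖ = 1) (j₀ : Fin N) {r κ : ℝ} (hr : 0 < r) (hκ : 0 < κ)
    {I : Type} {F : I → Fin N → V m → ℂ} (hF : ∀ i j, HB (F i j)) {δ : ℝ} (hδ : 0 < δ)
    (hlow : ∀ i, ∀ z ∈ ball (0 : V m) 1 ∩ ball p r, δ ≤ ∑ j, ‖F i j z‖)
    (hext : ∀ i, ∀ j, j ≠ j₀ → ∃ h : V m → ℂ, DifferentiableOn ℂ h (Ell p r κ) ∧
      (∀ z ∈ Ell p r κ, ‖h z‖ ≤ 1) ∧ ∀ z ∈ ball (0 : V m) 1, ‖z - p‖ < r → F i j z = h z) :
    SolvL F p := by
  have hmv := Pool.Agent.W732.Cor.t_mv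
  have hball := Pool.Agent.W732.Cor.t_ball
  obtain ⟨ε, hε⟩ : ∃ ε : ℝ, ε = δ / (4 * (N + 1)) := ⟨_, rfl⟩
  have hN0 : (0 : ℝ) ≤ N := Nat.cast_nonneg N
  have hε0 : 0 < ε := by rw [hε]; positivity
  have hNε : 4 * (N + 1) * ε = δ := by rw [hε]; field_simp
  refine whit2 hmv hball hp hF hδ hr (fun i z hz => hlow i z hz) ?_
  intro q hq hpq
  obtain ⟨κ', ρ, hκ', hρ, hosc⟩ := osc hp hq hpq hr hκ hε0
  refine ⟨κ', hκ', 1 / ε, ρ, hρ, ?_⟩
  rintro ⟨i, c, hc, hcκ⟩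
  have A := aut_mv hmv hp hc
  have hm := (hosc (fun _ => 0) (differentiableOn_const 0) (fun z _ => by simp) c hc hcκ).1
  refine cell ?_ (fun j => ((hF i j).1.comp A.d1 A.m1).mono inter_subset_left) hε0 hNε
    (fun z hz => hlow i _ ⟨A.m1 hz.1, by rw [mem_ball, dist_eq_norm]; exact (hm hz.2).1⟩) j₀ ?_
  · obtain ⟨s, hs⟩ : ∃ s : ℝ, s = min ρ 1 := ⟨_, rfl⟩
    have hs0 : 0 < s := by rw [hs]; exact lt_min hρ one_pos
    have hsr : s ≤ ρ := by rw [hs]; exact min_le_left _ _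
    have hs1 : s ≤ 1 := by rw [hs]; exact min_le_right _ _
    refine ⟨((1 - s / 2 : ℝ) : ℂ) • q, ?_, ?_⟩
    · rw [mem_ball_zero_iff, norm_smul, hq, Complex.norm_real,
        Real.norm_of_nonneg (by linarith)]
      linarith
    · rw [mem_ball, dist_eq_norm]
      have h3 : ((1 - s / 2 : ℝ) : ℂ) • q - q = (-(s / 2 : ℝ) : ℂ) • q := by
        push_cast
        module
      rw [h3, norm_smul, hq, norm_neg, Complex.norm_real, Real.norm_of_nonneg (by linarith)]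
      linarith
  · intro j hj z hz w hw
    obtain ⟨h, h1, h2, h3⟩ := hext i j hj
    obtain ⟨h4, h5⟩ := hosc h h1 h2 c hc hcκ
    have h6 := h3 _ (A.m1 hz.1) (h4 hz.2).1
    have h7 := h3 _ (A.m1 hw.1) (h4 hw.2).1
    change ‖F i j (mv p c z) - F i j (mv p c w)‖ ≤ ε
    rw [h6, h7]
    exact h5 z hz.2 w hw.2

end V

open Pool.Agent.P157G
open Pool.Agent.X27.Cor (Ell)

/-- the ellipsoid touching the ball along the circle `|x.1| = 1`, `x.2 = 0` -/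
def El (κ : ℝ) : Set (ℂ × ℂ) := {x | mB x < κ * ‖x.2‖ ^ 2}

theorem El_open (κ : ℝ) : IsOpen (El κ) :=
  isOpen_lt (mB_contDiff 0).continuous (by fun_prop)

theorem B2_open : IsOpen B2 := isOpen_lt (mB_contDiff 0).continuous continuous_const

theorem norm_le_eC (x : ℂ × ℂ) : ‖x‖ ≤ ‖eC x‖ := by
  have h1 := eC_norm x
  have h2 : ‖x‖ ^ 2 ≤ ‖x.1‖ ^ 2 + ‖x.2‖ ^ 2 := by
    rw [Prod.norm_def]
    rcases le_total ‖x.1‖ ‖x.2‖ with h | h
    · rw [max_eq_right h]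
      have := sq_nonneg ‖x.1‖
      linarith
    · rw [max_eq_left h]
      have := sq_nonneg ‖x.2‖
      linarith
  rw [← h1] at h2
  exact (sq_le_sq₀ (norm_nonneg _) (norm_nonneg _)).1 h2

theorem eC_le_norm (x : ℂ × ℂ) : ‖eC x‖ ≤ 2 * ‖x‖ := by
  have h1 := eC_norm x
  have h2 : ‖x.1‖ ≤ ‖x‖ := norm_fst_le x
  have h3 : ‖x.2‖ ≤ ‖x‖ := norm_snd_le x
  have h4 : ‖eC x‖ ^ 2 ≤ (2 * ‖x‖) ^ 2 := by
    rw [h1]
    nlinarith [norm_nonneg x.1, norm_nonneg x.2, norm_nonneg x, mul_self_nonneg ‖x‖,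
      mul_le_mul h2 h2 (norm_nonneg _) (norm_nonneg _), mul_le_mul h3 h3 (norm_nonneg _) (norm_nonneg _)]
  exact (sq_le_sq₀ (norm_nonneg _) (by positivity)).1 h4

theorem eC_inner (x : ℂ × ℂ) : (inner ℂ (eC (1, 0)) (eC x) : ℂ) = x.1 := by
  have h : (inner ℂ (eC (1, 0)) (eC x) : ℂ) = ∑ i : Fin 2, inner ℂ ((eC (1, 0)) i) ((eC x) i) :=
    PiLp.inner_apply _ _
  rw [h, Fin.sum_univ_two]
  have e1 : (eC (1, 0)) 0 = (1 : ℂ) := rfl
  have e2 : (eC (1, 0)) 1 = (0 : ℂ) := rfl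
  have e3 : (eC x) 0 = x.1 := rfl
  rw [e1, e2, e3]
  simp

theorem Ell_sub {r κ : ℝ} {v : EuclideanSpace ℂ (Fin 2)} (hv : v ∈ Ell (eC (1, 0)) r κ) :
    eC.symm v ∈ El κ ∩ ball (1, 0) r := by
  obtain ⟨x, rfl⟩ : ∃ x, v = eC x := ⟨eC.symm v, by simp⟩
  rw [ContinuousLinearEquiv.symm_apply_apply]
  obtain ⟨h1, h2⟩ := hv
  rw [eC_inner] at h2
  have h3 : eC x - x.1 • eC (1, 0) = eC (0, x.2) := by
    rw [← map_smul, ← map_sub]
    congr 1
    refine Prod.ext ?_ ?_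
    · show x.1 - x.1 * 1 = 0
      ring
    · show x.2 - x.1 * 0 = x.2
      ring
  rw [h3, eC_norm, eC_norm] at h2
  refine ⟨?_, ?_⟩
  · show ‖x.1‖ ^ 2 + ‖x.2‖ ^ 2 - 1 < κ * ‖x.2‖ ^ 2
    have h4 : ‖((0 : ℂ), x.2).1‖ ^ 2 + ‖((0 : ℂ), x.2).2‖ ^ 2 = ‖x.2‖ ^ 2 := by simp
    rw [h4] at h2
    linarith
  · rw [mem_ball, dist_eq_norm]
    refine (norm_le_eC _).trans_lt ?_
    rw [map_sub]
    exact h1

/-- **Local theorem at a boundary point of the ball.** -/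
theorem near_ball {I : Type} {N : ℕ} (j₀ : Fin N) {r κ δ : ℝ} (hr : 0 < r) (hκ : 0 < κ)
    (hδ : 0 < δ) {F : I → Fin N → ℂ × ℂ → ℂ}
    (hF : ∀ i j, HBd (B2 ∩ ball (1, 0) r) 1 (F i j))
    (hlow : ∀ i, ∀ x ∈ B2 ∩ ball (1, 0) r, δ ≤ ∑ j, ‖F i j x‖)
    (hext : ∀ i j, j ≠ j₀ → ∃ h, HBd (El κ ∩ ball (1, 0) r) 1 h ∧
      ∀ x ∈ B2 ∩ ball (1, 0) r, F i j x = h x) :
    ∃ s : ℝ, 0 < s ∧ Solv (B2 ∩ ball (1, 0) s) F := by
  set q : ℂ × ℂ := (1, 0) with hq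
  have hN0 : (0 : ℝ) ≤ N := Nat.cast_nonneg N
  obtain ⟨r', C, hr', hr'r, hC, hl⟩ := loc_lem nf_mB (p := q) (by rw [hq]; simp [mB]) hr
  have hB2 : {x | mB x < 0} = B2 := rfl
  rw [hB2] at hl
  choose G U1 U2 hG hU1 hU2 hid using fun i j => hl (F i j) 1 zero_le_one (hF i j)
  simp only [mul_one] at hG hU1 hU2
  obtain ⟨K, hK⟩ : ∃ K : ℝ, K = 1 + C + 2 * (r' * C) := ⟨_, rfl⟩
  have hK0 : 0 < K := by rw [hK]; positivity
  have hKc : (K : ℂ) ≠ 0 := by exact_mod_cast hK0.ne'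
  have hKn : ∀ w : ℂ, ‖(K : ℂ)⁻¹ * w‖ = K⁻¹ * ‖w‖ := fun w => by
    rw [norm_mul, norm_inv, Complex.norm_real, Real.norm_of_nonneg hK0.le]
  -- the error term
  have herr : ∀ i j (t : ℝ), t ≤ r' → ∀ x ∈ ball q t,
      ‖(x.1 - q.1) * U1 i j x + (x.2 - q.2) * U2 i j x‖ ≤ 2 * (t * C) := by
    intro i j t ht x hx
    have h1 : ‖x - q‖ < t := mem_ball_iff_norm.1 hx
    have h2 : ‖x.1 - q.1‖ ≤ t := (norm_fst_le (x - q)).trans h1.le
    have h3 : ‖x.2 - q.2‖ ≤ t := (norm_snd_le (x - q)).trans h1.le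
    have ht0 : 0 ≤ t := (norm_nonneg _).trans h2
    have hx' : x ∈ ball q r' := ball_subset_ball ht hx
    refine (norm_add_le _ _).trans ?_
    rw [norm_mul, norm_mul]
    have h4 := mul_le_mul h2 ((hU1 i j).2 x hx') (norm_nonneg _) ht0
    have h5 := mul_le_mul h3 ((hU2 i j).2 x hx') (norm_nonneg _) ht0
    linarith
  obtain ⟨t, ht⟩ : ∃ t : ℝ, t = min r' (δ / (4 * (N + 1) * (C + 1))) := ⟨_, rfl⟩
  have ht0 : 0 < t := by rw [ht]; positivity
  have htr : t ≤ r' := by rw [ht]; exact min_le_left _ _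
  have htδ : N * (2 * (t * C)) ≤ δ / 2 := by
    have h1 : t ≤ δ / (4 * (N + 1) * (C + 1)) := by rw [ht]; exact min_le_right _ _
    rw [le_div_iff₀ (by positivity)] at h1
    nlinarith [mul_nonneg ht0.le hN0, mul_nonneg ht0.le hC, mul_nonneg (mul_nonneg ht0.le hN0) hC]
  -- the transported data
  have hsym : ∀ {v : EuclideanSpace ℂ (Fin 2)} {ρ : ℝ}, v ∈ ball (eC q) ρ → eC.symm v ∈ ball q ρ := by
    intro v ρ hv
    rw [mem_ball, dist_eq_norm] at hv ⊢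
    refine (norm_le_eC _).trans_lt ?_
    rw [map_sub, ContinuousLinearEquiv.apply_symm_apply]
    exact hv
  have hp1 : ‖eC q‖ = 1 := by
    have h1 := eC_norm q
    rw [hq] at h1 ⊢
    simp only [norm_one, norm_zero] at h1
    nlinarith [norm_nonneg (eC ((1 : ℂ), (0 : ℂ)))]
  obtain ⟨C₂, ρ₂, hρ₂, hg⟩ := near' (F := fun i j v => (K : ℂ)⁻¹ * G i j (eC.symm v)) hp1 j₀ ht0 hκ
    (fun i j => ⟨(((hG i j).1.comp eC.symm.differentiable.differentiableOn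
      fun v hv => eCs_ball hv)).const_mul _, fun v hv => by
        rw [hKn, inv_mul_le_iff₀ hK0, mul_one]
        refine ((hG i j).2 _ (eCs_ball hv)).trans ?_
        rw [hK]
        nlinarith [mul_nonneg hr'.le hC]⟩) (δ := δ / (2 * K)) (by positivity)
    (fun i v hv => by
      have hx : eC.symm v ∈ B2 ∩ ball q t := ⟨eCs_ball hv.1, hsym hv.2⟩
      have h1 := hlow i _ ⟨hx.1, ball_subset_ball (htr.trans hr'r) hx.2⟩
      have h2 : ∑ j, ‖F i j (eC.symm v)‖ ≤ ∑ j, (‖G i j (eC.symm v)‖ + 2 * (t * C)) := by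
        refine Finset.sum_le_sum fun j _ => ?_
        have h3 := hid i j _ ⟨hx.1, ball_subset_ball htr hx.2⟩
        have h4 : F i j (eC.symm v) = G i j (eC.symm v) + (((eC.symm v).1 - q.1) * U1 i j (eC.symm v) +
          ((eC.symm v).2 - q.2) * U2 i j (eC.symm v)) := by rw [h3]; ring
        rw [h4]
        exact (norm_add_le _ _).trans (add_le_add le_rfl (herr i j t htr _ hx.2))
      rw [Finset.sum_add_distrib, Finset.sum_const, Finset.card_univ, Fintype.card_fin,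
        nsmul_eq_mul] at h2
      have h5 : ∑ j, ‖(K : ℂ)⁻¹ * G i j (eC.symm v)‖ = K⁻¹ * ∑ j, ‖G i j (eC.symm v)‖ := by
        rw [Finset.mul_sum]
        exact Finset.sum_congr rfl fun j _ => hKn _
      rw [h5]
      have h6 : δ / 2 ≤ ∑ j, ‖G i j (eC.symm v)‖ := by linarith
      have h7 : δ / (2 * K) = K⁻¹ * (δ / 2) := by field_simp
      rw [h7]
      exact mul_le_mul_of_nonneg_left h6 (inv_nonneg.2 hK0.le))
    (fun i j hj => by
      obtain ⟨h, hh, he⟩ := hext i j hj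
      have hsub : ∀ v ∈ Ell (eC q) t κ, eC.symm v ∈ El κ ∩ ball q t := fun v hv => Ell_sub hv
      have hd : DifferentiableOn ℂ (fun x : ℂ × ℂ => (K : ℂ)⁻¹ * (h x - ((x.1 - q.1) * U1 i j x +
          (x.2 - q.2) * U2 i j x))) (El κ ∩ ball q t) := by
        have d1 : DifferentiableOn ℂ h (El κ ∩ ball q t) :=
          hh.1.mono fun x hx => ⟨hx.1, ball_subset_ball (htr.trans hr'r) hx.2⟩
        have d2 : DifferentiableOn ℂ (U1 i j) (El κ ∩ ball q t) :=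
          (hU1 i j).1.mono fun x hx => ball_subset_ball htr hx.2
        have d3 : DifferentiableOn ℂ (U2 i j) (El κ ∩ ball q t) :=
          (hU2 i j).1.mono fun x hx => ball_subset_ball htr hx.2
        fun_prop
      refine ⟨fun v => (K : ℂ)⁻¹ * (h (eC.symm v) - (((eC.symm v).1 - q.1) * U1 i j (eC.symm v) +
          ((eC.symm v).2 - q.2) * U2 i j (eC.symm v))),
        hd.comp eC.symm.differentiable.differentiableOn hsub, fun v hv => ?_, fun v hv hvt => ?_⟩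
      · have hx := hsub v hv
        rw [hKn, inv_mul_le_iff₀ hK0, mul_one]
        refine (norm_sub_le _ _).trans ?_
        have h3 := hh.2 _ ⟨hx.1, ball_subset_ball (htr.trans hr'r) hx.2⟩
        have h4 := herr i j t htr _ hx.2
        rw [hK]
        nlinarith [mul_le_mul_of_nonneg_right htr hC]
      · have hx : eC.symm v ∈ B2 ∩ ball q t := ⟨eCs_ball hv, hsym (by
          rw [mem_ball, dist_eq_norm]; exact hvt)⟩
        show (K : ℂ)⁻¹ * G i j (eC.symm v) = _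
        rw [hid i j _ ⟨hx.1, ball_subset_ball htr hx.2⟩,
          he _ ⟨hx.1, ball_subset_ball (htr.trans hr'r) hx.2⟩])
  -- the solutions
  obtain ⟨A, hA⟩ : ∃ A : ℝ, A = K⁻¹ * |C₂| := ⟨_, rfl⟩
  have hA0 : 0 ≤ A := by rw [hA]; positivity
  obtain ⟨s, hs⟩ : ∃ s : ℝ, s = min (min t (ρ₂ / 2)) (1 / (4 * (N + 1) * (C + 1) * (A + 1))) :=
    ⟨_, rfl⟩
  have hs0 : 0 < s := by rw [hs]; positivity
  have hst : s ≤ t := by rw [hs]; exact (min_le_left _ _).trans (min_le_left _ _)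
  have hsρ : s ≤ ρ₂ / 2 := by rw [hs]; exact (min_le_left _ _).trans (min_le_right _ _)
  have hsA : N * (2 * (s * C) * A) ≤ 1 / 2 := by
    have h1 : s ≤ 1 / (4 * (N + 1) * (C + 1) * (A + 1)) := by rw [hs]; exact min_le_right _ _
    rw [le_div_iff₀ (by positivity)] at h1
    have e1 : 0 ≤ s * N := mul_nonneg hs0.le hN0
    have e2 : 0 ≤ s * C := mul_nonneg hs0.le hC
    have e3 : 0 ≤ s * A := mul_nonneg hs0.le hA0
    have e4 : 0 ≤ s * N * C := mul_nonneg e1 hC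
    have e5 : 0 ≤ s * N * A := mul_nonneg e1 hA0
    have e6 : 0 ≤ s * C * A := mul_nonneg e2 hA0
    have e7 : 0 ≤ s * N * C * A := mul_nonneg e4 hA0
    nlinarith
  refine ⟨s, hs0, 2 * A, fun i => ?_⟩
  obtain ⟨g, hg1, hg2, hg3⟩ := hg i
  have hmem : ∀ x ∈ B2 ∩ ball q s, eC x ∈ ball (0 : EuclideanSpace ℂ (Fin 2)) 1 ∩ ball (eC q) ρ₂ := by
    intro x hx
    refine ⟨(eC_ball x).2 hx.1, ?_⟩
    rw [mem_ball, dist_eq_norm, ← map_sub]
    have h1 : ‖x - q‖ < s := mem_ball_iff_norm.1 hx.2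
    have h2 := eC_le_norm (x - q)
    linarith
  obtain ⟨γ, hγ⟩ : ∃ γ : Fin N → ℂ × ℂ → ℂ, γ = fun j x => (K : ℂ)⁻¹ * g j (eC x) := ⟨_, rfl⟩
  have hγd : ∀ j, DifferentiableOn ℂ (γ j) (B2 ∩ ball q s) := fun j => by
    rw [hγ]
    exact ((hg1 j).comp eC.differentiable.differentiableOn hmem).const_mul _
  have hγb : ∀ j, ∀ x ∈ B2 ∩ ball q s, ‖γ j x‖ ≤ A := fun j x hx => by
    rw [hγ]
    show ‖(K : ℂ)⁻¹ * g j (eC x)‖ ≤ A
    rw [hKn, hA]
    exact mul_le_mul_of_nonneg_left ((hg2 j _ (hmem x hx)).trans (le_abs_self _)) (inv_nonneg.2 hK0.le)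
  have hγe : ∀ x ∈ B2 ∩ ball q s, ∑ j, G i j x * γ j x = 1 := fun x hx => by
    have h1 := hg3 _ (hmem x hx)
    rw [hγ]
    simp only [ContinuousLinearEquiv.symm_apply_apply] at h1
    rw [← h1]
    refine Finset.sum_congr rfl fun j _ => ?_
    show G i j x * ((K : ℂ)⁻¹ * g j (eC x)) = (K : ℂ)⁻¹ * G i j x * g j (eC x)
    ring
  have hFd : ∀ j, DifferentiableOn ℂ (F i j) (B2 ∩ ball q s) := fun j =>
    (hF i j).1.mono fun x hx => ⟨hx.1, ball_subset_ball (hst.trans (htr.trans hr'r)) hx.2⟩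
  have hHd : DifferentiableOn ℂ (fun x => ∑ j, F i j x * γ j x) (B2 ∩ ball q s) :=
    DifferentiableOn.fun_sum fun j _ => (hFd j).mul (hγd j)
  have hHlow : ∀ x ∈ B2 ∩ ball q s, 1 / 2 ≤ ‖∑ j, F i j x * γ j x‖ := by
    intro x hx
    have h1 : ∑ j, F i j x * γ j x = 1 + ∑ j, ((x.1 - q.1) * U1 i j x + (x.2 - q.2) * U2 i j x) * γ j x := by
      rw [← hγe x hx, ← Finset.sum_add_distrib]
      refine Finset.sum_congr rfl fun j _ => ?_
      rw [hid i j x ⟨hx.1, ball_subset_ball (hst.trans htr) hx.2⟩]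
      ring
    have h2 : ‖∑ j, ((x.1 - q.1) * U1 i j x + (x.2 - q.2) * U2 i j x) * γ j x‖ ≤ 1 / 2 := by
      refine (norm_sum_le _ _).trans (le_trans ?_ hsA)
      have h3 : ∀ j ∈ (Finset.univ : Finset (Fin N)),
          ‖((x.1 - q.1) * U1 i j x + (x.2 - q.2) * U2 i j x) * γ j x‖ ≤ 2 * (s * C) * A := by
        intro j _
        rw [norm_mul]
        exact mul_le_mul (herr i j s (hst.trans htr) x hx.2) (hγb j x hx) (norm_nonneg _)
          (by positivity)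
      refine (Finset.sum_le_sum h3).trans ?_
      rw [Finset.sum_const, Finset.card_univ, Fintype.card_fin, nsmul_eq_mul]
    rw [h1]
    have h3 := norm_sub_norm_le (1 : ℂ) (-(∑ j, ((x.1 - q.1) * U1 i j x + (x.2 - q.2) * U2 i j x) * γ j x))
    rw [norm_one, norm_neg, sub_neg_eq_add] at h3
    linarith
  have hHne : ∀ x ∈ B2 ∩ ball q s, ∑ j, F i j x * γ j x ≠ 0 := fun x hx h0 => by
    have h1 := hHlow x hx
    rw [h0, norm_zero] at h1
    linarith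
  refine ⟨fun j x => γ j x * (∑ l, F i l x * γ l x)⁻¹, fun j =>
    ⟨(hγd j).mul (DifferentiableOn.inv hHd hHne), fun x hx => ?_⟩, fun x hx => ?_⟩
  · show ‖γ j x * (∑ l, F i l x * γ l x)⁻¹‖ ≤ 2 * A
    rw [norm_mul, norm_inv, ← div_eq_mul_inv, div_le_iff₀ (by linarith [hHlow x hx])]
    have h1 := hγb j x hx
    have h2 := hHlow x hx
    nlinarith
  · have h1 : ∑ j, F i j x * (γ j x * (∑ l, F i l x * γ l x)⁻¹) =
        (∑ j, F i j x * γ j x) * (∑ l, F i l x * γ l x)⁻¹ := by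
      rw [Finset.sum_mul]
      exact Finset.sum_congr rfl fun j _ => by ring
    show ∑ j, F i j x * (γ j x * (∑ l, F i l x * γ l x)⁻¹) = 1
    rw [h1]
    exact mul_inv_cancel₀ (hHne x hx)

end Pool.Agent.H191.Corona
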