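import Pool.Agent.H191.Corona.TouA

/-!
Data which extend to a tangent ball.
-/

set_option autoImplicit false

open Metric Set Filter Topology Complex

namespace Pool.Agent.H191.Corona

open Pool.Agent.P157G

/-- the square of the Euclidean distance to `(1, 0)` -/
noncomputable def n2 (x : ℂ × ℂ) : ℝ := ‖x.1 - 1‖ ^ 2 + ‖x.2‖ ^ 2

/-- the ball of radius `1 / (1 - κ)` which is internally tangent to the unit sphere at `(1, 0)` -/
def TB (κ : ℝ) : Set (ℂ × ℂ) := {x | mB x < κ * n2 x}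

theorem n2_nonneg (x : ℂ × ℂ) : 0 ≤ n2 x := by unfold n2; positivity

theorem n2_cont : Continuous n2 := by unfold n2; fun_prop

theorem TB_open (κ : ℝ) : IsOpen (TB κ) :=
  isOpen_lt (mB_contDiff 0).continuous (continuous_const.mul n2_cont)

theorem El_TB {κ : ℝ} (hκ : 0 ≤ κ) : El κ ⊆ TB κ := by
  intro x hx
  have h1 : mB x < κ * ‖x.2‖ ^ 2 := hx
  show mB x < κ * n2 x
  unfold n2
  nlinarith [sq_nonneg ‖x.1 - 1‖, mul_nonneg hκ (sq_nonneg ‖x.1 - 1‖)]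

theorem B2_ball_nonempty {r : ℝ} (hr : 0 < r) : (B2 ∩ ball (1, 0) r).Nonempty := by
  refine ⟨(((1 - min (r / 2) 1 : ℝ) : ℂ), 0), ?_, ?_⟩
  · show ‖((1 - min (r / 2) 1 : ℝ) : ℂ)‖ ^ 2 + ‖(0 : ℂ)‖ ^ 2 - 1 < 0
    have h1 : 0 < min (r / 2) 1 := lt_min (by linarith) one_pos
    have h2 : min (r / 2) 1 ≤ 1 := min_le_right _ _
    rw [Complex.norm_real, Real.norm_eq_abs, sq_abs, norm_zero]
    nlinarith
  · rw [mem_ball, Prod.dist_eq, max_lt_iff]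
    have h1 : 0 < min (r / 2) 1 := lt_min (by linarith) one_pos
    have h2 : min (r / 2) 1 ≤ r / 2 := min_le_left _ _
    constructor
    · show dist ((1 - min (r / 2) 1 : ℝ) : ℂ) 1 < r
      rw [Complex.dist_eq]
      have h3 : ((1 - min (r / 2) 1 : ℝ) : ℂ) - 1 = -((min (r / 2) 1 : ℝ) : ℂ) := by
        push_cast; ring
      rw [h3, norm_neg, Complex.norm_real, Real.norm_of_nonneg h1.le]
      linarith
    · show dist (0 : ℂ) 0 < r
      rw [dist_self]; exact hr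

theorem near_tb0 {I : Type} {N : ℕ} {r κ δ : ℝ} (hr : 0 < r) (hκ : 0 < κ)
    (hδ : 0 < δ) {F : I → Fin N → ℂ × ℂ → ℂ}
    (hF : ∀ i j, HBd (TB κ ∩ ball (1, 0) r) 1 (F i j))
    (hlow : ∀ i, ∀ x ∈ B2 ∩ ball (1, 0) r, δ ≤ ∑ j, ‖F i j x‖) :
    ∃ s : ℝ, 0 < s ∧ Solv (B2 ∩ ball (1, 0) s) F := by
  have hsub : B2 ∩ ball (1, 0) r ⊆ TB κ ∩ ball (1, 0) r := by
    rintro x ⟨h1, h2⟩
    refine ⟨?_, h2⟩
    have h3 : mB x < 0 := h1
    show mB x < κ * n2 x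
    nlinarith [mul_nonneg hκ.le (n2_nonneg x)]
  rcases Nat.eq_zero_or_pos N with h0 | h0
  · subst h0
    refine ⟨1, one_pos, 0, fun i => ?_⟩
    obtain ⟨x, hx⟩ := B2_ball_nonempty hr
    have h1 := hlow i x hx
    simp at h1
    exact absurd hδ (not_lt.2 h1)
  · refine near_ball (⟨0, h0⟩ : Fin N) hr hκ hδ (fun i j => ⟨(hF i j).1.mono hsub, fun x hx =>
      (hF i j).2 x (hsub hx)⟩) hlow (fun i j _ => ⟨F i j, ⟨(hF i j).1.mono fun x hx =>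
        ⟨El_TB hκ.le hx.1, hx.2⟩, fun x hx => (hF i j).2 x ⟨El_TB hκ.le hx.1, hx.2⟩⟩,
        fun x _ => rfl⟩)

/-- scaling around `(1, 0)` -/
noncomputable def sc (a : ℝ) (x : ℂ × ℂ) : ℂ × ℂ := (1 + (a : ℂ) * (x.1 - 1), (a : ℂ) * x.2)

theorem sc_n2 (a : ℝ) (x : ℂ × ℂ) : n2 (sc a x) = a ^ 2 * n2 x := by
  unfold n2 sc
  simp only
  rw [add_sub_cancel_left, norm_mul, norm_mul, Complex.norm_real, mul_pow, mul_pow, Real.norm_eq_abs,
    sq_abs]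
  ring

theorem sc_mB (a : ℝ) (x : ℂ × ℂ) : mB (sc a x) = a * (mB x - (1 - a) * n2 x) := by
  unfold n2 sc mB
  simp only [Complex.sq_norm, Complex.normSq_apply, Complex.add_re, Complex.add_im,
    Complex.mul_re, Complex.mul_im, Complex.sub_re, Complex.sub_im, Complex.one_re, Complex.one_im,
    Complex.ofReal_re, Complex.ofReal_im]
  ring

theorem sc_sc {a b : ℝ} (h : a * b = 1) (x : ℂ × ℂ) : sc a (sc b x) = x := by
  have hc : (a : ℂ) * (b : ℂ) = 1 := by exact_mod_cast h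
  unfold sc
  refine Prod.ext ?_ ?_
  · show 1 + (a : ℂ) * (1 + (b : ℂ) * (x.1 - 1) - 1) = x.1
    linear_combination (x.1 - 1) * hc
  · show (a : ℂ) * ((b : ℂ) * x.2) = x.2
    linear_combination x.2 * hc

theorem sc_diff (a : ℝ) : Differentiable ℂ (sc a) := by
  unfold sc
  fun_prop

theorem sc_dist {a : ℝ} (ha : 0 ≤ a) (x : ℂ × ℂ) : ‖sc a x - (1, 0)‖ = a * ‖x - (1, 0)‖ := by
  have h : sc a x - (1, 0) = (a : ℂ) • (x - (1, 0)) := by
    refine Prod.ext ?_ ?_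
    · show 1 + (a : ℂ) * (x.1 - 1) - 1 = (a : ℂ) * (x.1 - 1)
      ring
    · show (a : ℂ) * x.2 - 0 = (a : ℂ) * (x.2 - 0)
      ring
  rw [h, norm_smul, Complex.norm_real, Real.norm_of_nonneg ha]

theorem sc_ball {a : ℝ} (ha : 0 < a) {x : ℂ × ℂ} {r : ℝ} (hx : x ∈ ball ((1 : ℂ), (0 : ℂ)) r) :
    sc a x ∈ ball ((1 : ℂ), (0 : ℂ)) (a * r) := by
  rw [mem_ball_iff_norm] at hx ⊢
  rw [sc_dist ha.le]
  exact mul_lt_mul_of_pos_left hx ha

theorem near_tb {I : Type} {N : ℕ} {r κ η δ : ℝ} (hr : 0 < r) (hη : 0 ≤ η) (hηκ : η < κ)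
    (hκ : κ < 1) (hδ : 0 < δ) {F : I → Fin N → ℂ × ℂ → ℂ}
    (hF : ∀ i j, HBd (TB κ ∩ ball (1, 0) r) 1 (F i j))
    (hlow : ∀ i, ∀ x ∈ TB η ∩ ball (1, 0) r, δ ≤ ∑ j, ‖F i j x‖) :
    ∃ s : ℝ, 0 < s ∧ Solv (TB η ∩ ball (1, 0) s) F := by
  obtain ⟨a, ha⟩ : ∃ a : ℝ, a = 1 - η := ⟨_, rfl⟩
  have ha0 : 0 < a := by rw [ha]; linarith
  have ha1 : a ≤ 1 := by rw [ha]; linarith
  have hai : 0 < a⁻¹ := inv_pos.2 ha0
  have hm1 : ∀ x ∈ B2, sc a⁻¹ x ∈ TB η := by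
    intro x hx
    have h1 := sc_mB a (sc a⁻¹ x)
    rw [sc_sc (mul_inv_cancel₀ ha0.ne')] at h1
    have h2 : mB x < 0 := hx
    rw [h1, ha] at h2
    show mB (sc a⁻¹ x) < η * n2 (sc a⁻¹ x)
    rw [← ha] at h2
    have h3 : mB (sc a⁻¹ x) - (1 - a) * n2 (sc a⁻¹ x) < 0 := by
      by_contra hcon
      have := mul_nonneg ha0.le (not_lt.1 hcon)
      linarith
    have h4 : 1 - a = η := by rw [ha]; ring
    rw [h4] at h3
    linarith
  have hm2 : ∀ x ∈ TB ((κ - η) / a), sc a⁻¹ x ∈ TB κ := by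
    intro x hx
    have h1 := sc_mB a (sc a⁻¹ x)
    have h1' := sc_n2 a (sc a⁻¹ x)
    rw [sc_sc (mul_inv_cancel₀ ha0.ne')] at h1 h1'
    have h2 : mB x < (κ - η) / a * n2 x := hx
    have h4 : 1 - a = η := by rw [ha]; ring
    rw [h1, h1', h4] at h2
    show mB (sc a⁻¹ x) < κ * n2 (sc a⁻¹ x)
    have h5 : (κ - η) / a * (a ^ 2 * n2 (sc a⁻¹ x)) = a * ((κ - η) * n2 (sc a⁻¹ x)) := by
      field_simp
    rw [h5] at h2
    have h6 := lt_of_mul_lt_mul_left h2 ha0.le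
    linarith
  have hm3 : ∀ x ∈ TB η, sc a x ∈ B2 := by
    intro x hx
    have h2 : mB x < η * n2 x := hx
    show mB (sc a x) < 0
    have h4 : 1 - a = η := by rw [ha]; ring
    rw [sc_mB, h4]
    exact mul_neg_of_pos_of_neg ha0 (by linarith)
  have hb : ∀ {x : ℂ × ℂ}, x ∈ ball ((1 : ℂ), (0 : ℂ)) (a * r) → sc a⁻¹ x ∈ ball ((1 : ℂ), (0 : ℂ)) r := by
    intro x hx
    have h1 := sc_ball hai hx
    rwa [← mul_assoc, inv_mul_cancel₀ ha0.ne', one_mul] at h1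
  obtain ⟨s, hs, C, hC⟩ := near_tb0 (F := fun i j x => F i j (sc a⁻¹ x)) (r := a * r)
    (κ := (κ - η) / a) (by positivity) (div_pos (by linarith) ha0) hδ
    (fun i j => ⟨(hF i j).1.comp (sc_diff _).differentiableOn fun x hx => ⟨hm2 x hx.1, hb hx.2⟩,
      fun x hx => (hF i j).2 _ ⟨hm2 x hx.1, hb hx.2⟩⟩)
    (fun i x hx => hlow i _ ⟨hm1 x hx.1, hb hx.2⟩)
  have hsb : ∀ x ∈ TB η ∩ ball ((1 : ℂ), (0 : ℂ)) s, sc a x ∈ B2 ∩ ball ((1 : ℂ), (0 : ℂ)) s := by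
    intro x hx
    refine ⟨hm3 x hx.1, ball_subset_ball ?_ (sc_ball ha0 hx.2)⟩
    nlinarith
  refine ⟨s, hs, C, fun i => ?_⟩
  obtain ⟨g, hg, he⟩ := hC i
  refine ⟨fun j x => g j (sc a x), fun j => ⟨(hg j).1.comp (sc_diff _).differentiableOn hsb,
    fun x hx => (hg j).2 _ (hsb x hx)⟩, fun x hx => ?_⟩
  have h1 := he _ (hsb x hx)
  simp only [sc_sc (inv_mul_cancel₀ ha0.ne')] at h1
  exact h1

/-- shrinking towards the origin -/
noncomputable def sh (τ : ℝ) (x : ℂ × ℂ) : ℂ × ℂ := ((1 - τ : ℝ) : ℂ) • x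

theorem sh_mB (τ : ℝ) (x : ℂ × ℂ) : mB (sh τ x) = (1 - τ) ^ 2 * (mB x + 1) - 1 := by
  unfold sh mB
  simp only [Prod.smul_fst, Prod.smul_snd, smul_eq_mul, norm_mul, Complex.norm_real, mul_pow,
    Real.norm_eq_abs, sq_abs]
  ring

theorem sh_sub {τ : ℝ} (hτ : 0 ≤ τ) (x : ℂ × ℂ) : ‖x - sh τ x‖ = τ * ‖x‖ := by
  have h : x - sh τ x = (τ : ℂ) • x := by
    unfold sh
    push_cast
    module
  rw [h, norm_smul, Complex.norm_real, Real.norm_of_nonneg hτ]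

theorem n2_le (x : ℂ × ℂ) : n2 x ≤ 2 * ‖x - (1, 0)‖ ^ 2 := by
  have h1 : ‖x.1 - 1‖ ≤ ‖x - (1, 0)‖ := norm_fst_le (x - (1, 0))
  have h2 : ‖x.2‖ ≤ ‖x - (1, 0)‖ := by
    have := norm_snd_le (x - ((1 : ℂ), (0 : ℂ)))
    rwa [Prod.snd_sub, sub_zero] at this
  unfold n2
  have h3 := mul_le_mul h1 h1 (norm_nonneg _) (norm_nonneg _)
  have h4 := mul_le_mul h2 h2 (norm_nonneg _) (norm_nonneg _)
  nlinarith

theorem le_n2 (x : ℂ × ℂ) : ‖x - (1, 0)‖ ^ 2 ≤ n2 x := by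
  have h : ‖x - (1, 0)‖ = max ‖x.1 - 1‖ ‖x.2‖ := by
    rw [Prod.norm_def, Prod.fst_sub, Prod.snd_sub, sub_zero]
  rw [h]
  unfold n2
  rcases le_total ‖x.1 - 1‖ ‖x.2‖ with h1 | h1
  · rw [max_eq_right h1]
    have := sq_nonneg ‖x.1 - 1‖
    linarith
  · rw [max_eq_left h1]
    have := sq_nonneg ‖x.2‖
    linarith

/-- points of the tangent ball are close to points inside -/
theorem shrink {η : ℝ} (hη : 0 < η) (hη1 : η ≤ 1) {x : ℂ × ℂ} (hx : x ∈ TB η)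
    (hxq : ‖x - (1, 0)‖ ≤ 1 / 48) :
    mB (sh (3 * η * n2 x) x) < -η * n2 (sh (3 * η * n2 x) x) ∧
      ‖x - sh (3 * η * n2 x) x‖ ≤ 6 * (η * n2 x) := by
  have hn0 := n2_nonneg x
  have hn1 := n2_le x
  have hn2 : n2 x ≤ 1 / 1152 := by nlinarith [norm_nonneg (x - ((1 : ℂ), (0 : ℂ)))]
  obtain ⟨τ, hτ⟩ : ∃ τ : ℝ, τ = 3 * η * n2 x := ⟨_, rfl⟩
  rw [← hτ]
  have hτ0 : 0 ≤ τ := by rw [hτ]; positivity
  have hτ1 : τ ≤ 1 / 384 := by
    rw [hτ]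
    nlinarith
  have hnx : ‖x‖ ≤ 2 := by
    have h1 := norm_sub_norm_le x ((1 : ℂ), (0 : ℂ))
    have h2 : ‖((1 : ℂ), (0 : ℂ))‖ = 1 := by rw [Prod.norm_def]; simp
    rw [h2] at h1
    linarith
  have h1 : mB x < η * n2 x := hx
  have h2 : mB (sh τ x) < - 2 * (η * n2 x) := by
    rw [sh_mB]
    have h3 : (1 - τ) ^ 2 * mB x ≤ (1 - τ) ^ 2 * (η * n2 x) :=
      mul_le_mul_of_nonneg_left h1.le (sq_nonneg _)
    have h4 : (1 - τ) ^ 2 * (η * n2 x) ≤ 1 * (η * n2 x) :=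
      mul_le_mul_of_nonneg_right (by nlinarith) (by positivity)
    have h5 : 0 < τ ∨ τ = 0 := hτ0.lt_or_eq.imp id Eq.symm
    rcases h5 with h5 | h5
    · nlinarith
    · have h6 : η * n2 x = 0 := by
        have : 3 * (η * n2 x) = 0 := by rw [← mul_assoc, ← hτ]; exact h5
        linarith
      rw [h5, h6]
      rw [h6] at h1
      nlinarith
  have hd : ‖x - sh τ x‖ ≤ 6 * (η * n2 x) := by
    rw [sh_sub hτ0, hτ]
    have h3 : 0 ≤ 3 * η * n2 x := by positivity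
    nlinarith
  refine ⟨?_, hd⟩
  -- `n2` of the shrunk point
  have h3 : n2 (sh τ x) ≤ 2 * n2 x := by
    have e1 : (sh τ x).1 - 1 = (x.1 - 1) - (τ : ℂ) * x.1 := by
      unfold sh
      simp only [Prod.smul_fst, smul_eq_mul]
      push_cast
      ring
    have e2 : (sh τ x).2 = x.2 - (τ : ℂ) * x.2 := by
      unfold sh
      simp only [Prod.smul_snd, smul_eq_mul]
      push_cast
      ring
    have a1 : ‖(sh τ x).1 - 1‖ ≤ ‖x.1 - 1‖ + τ * 2 := by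
      rw [e1]
      refine (norm_sub_le _ _).trans ?_
      rw [norm_mul, Complex.norm_real, Real.norm_of_nonneg hτ0]
      have := (norm_fst_le x).trans hnx
      nlinarith
    have a2 : ‖(sh τ x).2‖ ≤ ‖x.2‖ + τ * 2 := by
      rw [e2]
      refine (norm_sub_le _ _).trans ?_
      rw [norm_mul, Complex.norm_real, Real.norm_of_nonneg hτ0]
      have := (norm_snd_le x).trans hnx
      nlinarith
    -- `τ ≤ n2 x / 4 * ...`
    have b1 : ‖x.1 - 1‖ ≤ 1 / 48 := (norm_fst_le (x - ((1 : ℂ), (0 : ℂ)))).trans hxq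
    have b2 : ‖x.2‖ ≤ 1 / 48 := by
      have := (norm_snd_le (x - ((1 : ℂ), (0 : ℂ)))).trans hxq
      rwa [Prod.snd_sub, sub_zero] at this
    have c1 : ‖(sh τ x).1 - 1‖ ^ 2 ≤ (‖x.1 - 1‖ + τ * 2) ^ 2 :=
      pow_le_pow_left₀ (norm_nonneg _) a1 2
    have c2 : ‖(sh τ x).2‖ ^ 2 ≤ (‖x.2‖ + τ * 2) ^ 2 := pow_le_pow_left₀ (norm_nonneg _) a2 2
    have d : τ ≤ 3 * n2 x := by
      rw [hτ]
      nlinarith
    show ‖(sh τ x).1 - 1‖ ^ 2 + ‖(sh τ x).2‖ ^ 2 ≤ 2 * n2 x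
    have hn : n2 x = ‖x.1 - 1‖ ^ 2 + ‖x.2‖ ^ 2 := rfl
    have f1 : τ * ‖x.1 - 1‖ ≤ 3 * n2 x * (1 / 48) := mul_le_mul d b1 (norm_nonneg _) (by positivity)
    have f2 : τ * ‖x.2‖ ≤ 3 * n2 x * (1 / 48) := mul_le_mul d b2 (norm_nonneg _) (by positivity)
    have f3 : τ * τ ≤ 3 * n2 x * (1 / 384) := mul_le_mul d hτ1 hτ0 (by positivity)
    have g1 : (‖x.1 - 1‖ + τ * 2) ^ 2 = ‖x.1 - 1‖ ^ 2 + 4 * (τ * ‖x.1 - 1‖) + 4 * (τ * τ) := by ring
    have g2 : (‖x.2‖ + τ * 2) ^ 2 = ‖x.2‖ ^ 2 + 4 * (τ * ‖x.2‖) + 4 * (τ * τ) := by ring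
    rw [g1] at c1
    rw [g2] at c2
    linarith
  nlinarith [mul_le_mul_of_nonneg_left h3 hη.le]

/-- **Local theorem**: `E` is tangent to the ball at `(1, 0)` to second order, the data extend to a tangent
ball. -/
theorem near_osc {I : Type} {N : ℕ} {r κ δ : ℝ} (hr : 0 < r) (hκ0 : 0 < κ)
    (hκ : κ < 1) (hδ : 0 < δ) {E : Set (ℂ × ℂ)}
    (hE1 : ∀ η : ℝ, 0 < η → ∃ t : ℝ, 0 < t ∧ (∀ x ∈ ball ((1 : ℂ), (0 : ℂ)) t,
      mB x < -η * n2 x → x ∈ E) ∧ E ∩ ball ((1 : ℂ), (0 : ℂ)) t ⊆ TB η)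
    {F : I → Fin N → ℂ × ℂ → ℂ}
    (hF : ∀ i j, HBd (TB κ ∩ ball (1, 0) r) 1 (F i j))
    (hlow : ∀ i, ∀ x ∈ E ∩ ball (1, 0) r, δ ≤ ∑ j, ‖F i j x‖) :
    ∃ s : ℝ, 0 < s ∧ Solv (E ∩ ball (1, 0) s) F := by
  have hN0 : (0 : ℝ) ≤ N := Nat.cast_nonneg N
  obtain ⟨c, hc⟩ : ∃ c : ℝ, c = κ / 96 := ⟨_, rfl⟩
  have hc0 : 0 < c := by rw [hc]; positivity
  have hc1 : c ≤ 1 / 96 := by rw [hc]; linarith
  obtain ⟨η, hη⟩ : ∃ η : ℝ, η = min (κ / 24) (min (c / 12) (δ * c / (24 * (N + 1)))) := ⟨_, rfl⟩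
  have hη0 : 0 < η := by rw [hη]; positivity
  have hηκ : η ≤ κ / 24 := by rw [hη]; exact min_le_left _ _
  have hηc : η ≤ c / 12 := by rw [hη]; exact (min_le_right _ _).trans (min_le_left _ _)
  have hηδ : N * (12 * η / c) ≤ δ / 2 := by
    have h1 : η ≤ δ * c / (24 * (N + 1)) := by
      rw [hη]; exact (min_le_right _ _).trans (min_le_right _ _)
    rw [le_div_iff₀ (by positivity)] at h1
    have h2 : N * (12 * η / c) = (N * (12 * η)) / c := by ring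
    rw [h2, div_le_iff₀ hc0]
    nlinarith
  have hη1 : η ≤ 1 := by linarith
  obtain ⟨t0, ht0, hE2, hE3⟩ := hE1 η hη0
  obtain ⟨t, ht⟩ : ∃ t : ℝ, t = min (min (t0 / 2) (r / 2)) (1 / 48) := ⟨_, rfl⟩
  have htp : 0 < t := by rw [ht]; positivity
  have ht1 : t ≤ t0 / 2 := by rw [ht]; exact (min_le_left _ _).trans (min_le_left _ _)
  have ht2 : t ≤ r / 2 := by rw [ht]; exact (min_le_left _ _).trans (min_le_right _ _)
  have ht3 : t ≤ 1 / 48 := by rw [ht]; exact min_le_right _ _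
  have key : ∀ i, ∀ x ∈ TB η ∩ ball ((1 : ℂ), (0 : ℂ)) t, δ / 2 ≤ ∑ j, ‖F i j x‖ := by
    rintro i x ⟨hx, hxt⟩
    have hxn : ‖x - (1, 0)‖ < t := mem_ball_iff_norm.1 hxt
    have hxq : ‖x - (1, 0)‖ ≤ 1 / 48 := hxn.le.trans ht3
    obtain ⟨hs1, hs2⟩ := shrink hη0 hη1 hx hxq
    obtain ⟨y, hy⟩ : ∃ y, y = sh (3 * η * n2 x) x := ⟨_, rfl⟩
    rw [← hy] at hs1 hs2
    have hn0 := n2_nonneg x
    have hn1 := n2_le x
    have hn2 := le_n2 x
    have hnpos : 0 < n2 x := by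
      rcases hn0.lt_or_eq with h | h
      · exact h
      · exfalso
        have h1 : ‖x - (1, 0)‖ ^ 2 ≤ 0 := by rw [h]; exact hn2
        have h2 : ‖x - (1, 0)‖ = 0 := by nlinarith [norm_nonneg (x - ((1 : ℂ), (0 : ℂ)))]
        have h3 : x = (1, 0) := by rwa [norm_eq_zero, sub_eq_zero] at h2
        have h4 : mB x < η * n2 x := hx
        rw [← h, mul_zero, h3] at h4
        simp [mB] at h4
    have hn3 : n2 x ≤ 2 * (‖x - (1, 0)‖ * (1 / 48)) := by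
      nlinarith [norm_nonneg (x - ((1 : ℂ), (0 : ℂ)))]
    -- `y` is in `E ∩ ball r`
    have hyt : ‖y - (1, 0)‖ < 2 * t := by
      have h1 : ‖y - (1, 0)‖ ≤ ‖x - (1, 0)‖ + ‖x - y‖ := by
        have := norm_sub_le (x - (1, 0)) (x - y)
        rwa [sub_sub_sub_cancel_left] at this
      have h2 : 6 * (η * n2 x) ≤ ‖x - (1, 0)‖ := by
        nlinarith [norm_nonneg (x - ((1 : ℂ), (0 : ℂ)))]
      linarith
    have hyE : y ∈ E := hE2 y (by rw [mem_ball_iff_norm]; linarith) hs1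
    have h1 := hlow i y ⟨hyE, by rw [mem_ball_iff_norm]; linarith⟩
    -- the ball around `x`
    obtain ⟨R, hR⟩ : ∃ R : ℝ, R = c * n2 x := ⟨_, rfl⟩
    have hR0 : 0 < R := by rw [hR]; positivity
    have hRx : R ≤ ‖x - (1, 0)‖ / 96 := by
      rw [hR]
      nlinarith [norm_nonneg (x - ((1 : ℂ), (0 : ℂ)))]
    have hsub : ball x R ⊆ TB κ ∩ ball (1, 0) r := by
      intro w hw
      have hwn : ‖w - x‖ < R := mem_ball_iff_norm.1 hw
      have hw1 : ‖w.1 - x.1‖ ≤ R := (norm_fst_le (w - x)).trans hwn.le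
      have hw2 : ‖w.2 - x.2‖ ≤ R := (norm_snd_le (w - x)).trans hwn.le
      have hxn1 : ‖x‖ ≤ 2 := by
        have h1 := norm_sub_norm_le x ((1 : ℂ), (0 : ℂ))
        have h2 : ‖((1 : ℂ), (0 : ℂ))‖ = 1 := by rw [Prod.norm_def]; simp
        rw [h2] at h1
        linarith
      have hR1 : R ≤ 1 := by linarith
      have hx1 : ‖x.1‖ ≤ 2 := (norm_fst_le x).trans hxn1
      have hx2 : ‖x.2‖ ≤ 2 := (norm_snd_le x).trans hxn1
      have hv1 : ‖w.1‖ ≤ ‖x.1‖ + R := by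
        have := norm_sub_norm_le w.1 x.1
        linarith
      have hv2 : ‖w.2‖ ≤ ‖x.2‖ + R := by
        have := norm_sub_norm_le w.2 x.2
        linarith
      have hm : mB w ≤ mB x + 10 * R := by
        unfold mB
        have e1 : ‖w.1‖ ^ 2 ≤ (‖x.1‖ + R) ^ 2 := pow_le_pow_left₀ (norm_nonneg _) hv1 2
        have e2 : ‖w.2‖ ^ 2 ≤ (‖x.2‖ + R) ^ 2 := pow_le_pow_left₀ (norm_nonneg _) hv2 2
        have e3 : R * ‖x.1‖ ≤ R * 2 := mul_le_mul_of_nonneg_left hx1 hR0.le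
        have e4 : R * ‖x.2‖ ≤ R * 2 := mul_le_mul_of_nonneg_left hx2 hR0.le
        have e5 : R * R ≤ R * 1 := mul_le_mul_of_nonneg_left hR1 hR0.le
        nlinarith
      -- `n2 w ≥ n2 x / 4`
      have hn4 : n2 x ≤ 4 * n2 w := by
        have a1 : ‖x.1 - 1‖ ≤ ‖w.1 - 1‖ + R := by
          have := norm_sub_norm_le (x.1 - 1) (w.1 - 1)
          rw [sub_sub_sub_cancel_right, norm_sub_rev x.1 w.1] at this
          linarith
        have a2 : ‖x.2‖ ≤ ‖w.2‖ + R := by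
          have := norm_sub_norm_le x.2 w.2
          rw [norm_sub_rev x.2 w.2] at this
          linarith
        have b1 : ‖x.1 - 1‖ ^ 2 ≤ (‖w.1 - 1‖ + R) ^ 2 := pow_le_pow_left₀ (norm_nonneg _) a1 2
        have b2 : ‖x.2‖ ^ 2 ≤ (‖w.2‖ + R) ^ 2 := pow_le_pow_left₀ (norm_nonneg _) a2 2
        have b3 : R * R ≤ n2 x / 96 := by
          have : R * R ≤ 1 * R := mul_le_mul_of_nonneg_right hR1 hR0.le
          have h5 : R ≤ 1 / 96 * n2 x := by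
            rw [hR]; exact mul_le_mul_of_nonneg_right hc1 hn0
          linarith
        have b4 : (‖w.1 - 1‖ + R) ^ 2 ≤ 2 * ‖w.1 - 1‖ ^ 2 + 2 * (R * R) := by
          nlinarith [sq_nonneg (‖w.1 - 1‖ - R)]
        have b5 : (‖w.2‖ + R) ^ 2 ≤ 2 * ‖w.2‖ ^ 2 + 2 * (R * R) := by
          nlinarith [sq_nonneg (‖w.2‖ - R)]
        have b6 : n2 x = ‖x.1 - 1‖ ^ 2 + ‖x.2‖ ^ 2 := rfl
        have b7 : n2 w = ‖w.1 - 1‖ ^ 2 + ‖w.2‖ ^ 2 := rfl
        linarith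
      refine ⟨?_, ?_⟩
      · show mB w < κ * n2 w
        have h2 : mB x < η * n2 x := hx
        have h3 : 10 * R ≤ κ / 9 * n2 x := by
          rw [hR, hc]
          nlinarith
        have h4 : η * n2 x ≤ κ / 24 * n2 x := mul_le_mul_of_nonneg_right hηκ hn0
        nlinarith
      · rw [mem_ball_iff_norm]
        have h2 : ‖w - (1, 0)‖ ≤ ‖w - x‖ + ‖x - (1, 0)‖ := by
          have := norm_add_le (w - x) (x - (1, 0))
          rwa [sub_add_sub_cancel] at this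
        have h3 : R ≤ t := by linarith
        linarith
    have hyR : y ∈ ball x R := by
      rw [mem_ball, dist_comm, dist_eq_norm]
      refine hs2.trans_lt ?_
      rw [hR]
      have : 6 * η < c := by linarith
      nlinarith
    have hosc : ∀ j, ‖F i j y - F i j x‖ ≤ 12 * η / c := by
      intro j
      have h4 : DifferentiableOn ℂ (F i j) (ball x R) := (hF i j).1.mono hsub
      have h5 : MapsTo (F i j) (ball x R) (closedBall (F i j x) 2) := by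
        intro z hz
        rw [mem_closedBall, dist_eq_norm]
        refine (norm_sub_le _ _).trans ?_
        have h6 := (hF i j).2 _ (hsub hz)
        have h7 := (hF i j).2 _ (hsub (mem_ball_self hR0))
        linarith
      have h9 := Complex.dist_le_div_mul_dist_of_mapsTo_ball h4 h5 hyR
      rw [dist_eq_norm] at h9
      refine h9.trans ?_
      rw [dist_comm, dist_eq_norm, hR]
      have h10 : 2 / (c * n2 x) * ‖x - y‖ ≤ 2 / (c * n2 x) * (6 * (η * n2 x)) :=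
        mul_le_mul_of_nonneg_left hs2 (by positivity)
      refine h10.trans (le_of_eq ?_)
      field_simp
      ring
    have h2 : ∑ j, ‖F i j y‖ ≤ ∑ j, (‖F i j x‖ + 12 * η / c) := by
      refine Finset.sum_le_sum fun j _ => ?_
      have := norm_sub_norm_le (F i j y) (F i j x)
      have := hosc j
      linarith
    rw [Finset.sum_add_distrib, Finset.sum_const, Finset.card_univ, Fintype.card_fin,
      nsmul_eq_mul] at h2
    linarith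
  obtain ⟨s, hs, C, hC⟩ := near_tb (F := F) (r := t) htp hη0.le (by linarith) hκ (half_pos hδ)
    (fun i j => ⟨(hF i j).1.mono fun x hx => ⟨hx.1, ball_subset_ball (by linarith) hx.2⟩,
      fun x hx => (hF i j).2 x ⟨hx.1, ball_subset_ball (by linarith) hx.2⟩⟩) key
  refine ⟨min s t0, lt_min hs ht0, Solv.mono ?_ ⟨C, hC⟩⟩
  rintro x ⟨hx, hxs⟩
  exact ⟨hE3 ⟨hx, ball_subset_ball (min_le_right _ _) hxs⟩, ball_subset_ball (min_le_left _ _) hxs⟩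

end Pool.Agent.H191.Corona
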