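import Pool.Agent.H191.Corona.TouB

/-!
The local theorem at an arbitrary boundary point of a strictly pseudoconvex domain.
-/

set_option autoImplicit false

open Metric Set Filter Topology Complex

namespace Pool.Agent.H191.Corona

section gen

variable {E : Type} [NormedAddCommGroup E] [NormedSpace ℝ E]

theorem g13 {F : Type} [NormedAddCommGroup F] [NormedSpace ℝ F] {f : E → F} {q x : E} {C : ℝ}
    (hd : ∀ y ∈ closedBall q ‖x - q‖, DifferentiableAt ℝ f y)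
    (hb : ∀ y ∈ closedBall q ‖x - q‖, ‖fderiv ℝ f y‖ ≤ C) (h0 : f q = 0) : ‖f x‖ ≤ C * ‖x - q‖ := by
  have h3 := (convex_closedBall q ‖x - q‖).norm_image_sub_le_of_norm_fderiv_le (𝕜 := ℝ) (f := f)
    (C := C) hd hb (mem_closedBall_self (norm_nonneg _))
    (show x ∈ closedBall q ‖x - q‖ by rw [mem_closedBall, dist_eq_norm])
  rwa [h0, sub_zero] at h3

theorem taylor2 {g : E → ℝ} {q : E} (hg : ContDiffAt ℝ 2 g q) (h0 : g q = 0)
    (h1 : fderiv ℝ g q = 0) (h2 : fderiv ℝ (fderiv ℝ g) q = 0) {η : ℝ} (hη : 0 < η) :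
    ∀ᶠ x in 𝓝 q, |g x| ≤ η * ‖x - q‖ ^ 2 := by
  have hg1 : ContDiffAt ℝ 1 (fderiv ℝ g) q := hg.fderiv_right (by norm_num)
  have e1 : ∀ᶠ x in 𝓝 q, ‖fderiv ℝ (fderiv ℝ g) x‖ < η := g1 hg1 ((g12 h2).trans_lt hη)
  have e2 : ∀ᶠ x in 𝓝 q, ContDiffAt ℝ 2 g x := hg.eventually (by decide)
  obtain ⟨t0, ht0, hb⟩ := Metric.eventually_nhds_iff_ball.1 (e1.and e2)
  filter_upwards [ball_mem_nhds q ht0] with x hx
  have hxn : ‖x - q‖ < t0 := mem_ball_iff_norm.1 hx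
  have hs : ∀ y ∈ closedBall q ‖x - q‖, y ∈ ball q t0 := fun y hy =>
    lt_of_le_of_lt (mem_closedBall.1 hy) hxn
  have hD : ∀ y ∈ closedBall q ‖x - q‖, ‖fderiv ℝ g y‖ ≤ η * ‖x - q‖ := by
    intro y hy
    have hyn : ‖y - q‖ ≤ ‖x - q‖ := by rw [← dist_eq_norm]; exact hy
    have hs' : ∀ z ∈ closedBall q ‖y - q‖, z ∈ ball q t0 := fun z hz =>
      hs z (closedBall_subset_closedBall hyn hz)
    have h3 := g13 (f := fderiv ℝ g) (q := q) (x := y) (C := η)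
      (fun z hz => ((hb z (hs' z hz)).2.fderiv_right (m := 1) (by norm_num)).differentiableAt
        (by norm_num)) (fun z hz => (hb z (hs' z hz)).1.le) h1
    exact h3.trans (mul_le_mul_of_nonneg_left hyn hη.le)
  have h3 := g13 (f := g) (q := q) (x := x) (C := η * ‖x - q‖)
    (fun z hz => (hb z (hs z hz)).2.differentiableAt (by norm_num)) hD h0
  rw [Real.norm_eq_abs] at h3
  refine h3.trans (le_of_eq (by ring))

end gen

open Pool.Agent.P157G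
open Pool.Agent.P157D (d1 d2 CR Bo)

theorem to_ball2 {ρ : ℂ × ℂ → ℝ} (hρ2 : ContDiff ℝ 2 ρ) {p : ℂ × ℂ}
    (hp : ρ p = 0) (hd : fderiv ℝ ρ p ≠ 0)
    (hL : ∀ v : ℂ × ℂ, v ≠ 0 → dd ρ p v = 0 → 0 < lv ρ p v) :
    ∃ (φ ψ : ℂ × ℂ → ℂ × ℂ) (U V : Set (ℂ × ℂ)) (G : ℂ × ℂ → ℝ), IsOpen U ∧ IsOpen V ∧ p ∈ U ∧
      φ p = (1, 0) ∧ DifferentiableOn ℂ φ U ∧ DifferentiableOn ℂ ψ V ∧ MapsTo φ U V ∧
      MapsTo ψ V U ∧ (∀ z ∈ U, ψ (φ z) = z) ∧ (∀ w ∈ V, φ (ψ w) = w) ∧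
      (∀ z ∈ U, ρ z < 0 ↔ G (φ z) < 0) ∧
      ∀ η : ℝ, 0 < η → ∀ᶠ x in 𝓝 ((1 : ℂ), (0 : ℂ)), |G x - mB x| ≤ η * ‖x - (1, 0)‖ ^ 2 := by
  obtain ⟨lam, hlam, hlv⟩ := lam_exists hρ2 hp hL
  obtain ⟨σ, hσdef⟩ : ∃ σ : ℂ × ℂ → ℝ, σ = fun x => Real.exp (lam * ρ x) := ⟨_, rfl⟩
  rw [← hσdef] at hlv
  have hσ2 : ContDiff ℝ 2 σ := by
    rw [hσdef]
    exact (contDiff_const.mul hρ2).exp
  have hσp : σ p = 1 := by rw [hσdef]; simp [hp]
  have hσd : fderiv ℝ σ p ≠ 0 := by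
    have h1 : HasFDerivAt σ (Real.exp (lam * ρ p) • (lam • fderiv ℝ ρ p)) p := by
      rw [hσdef]
      exact ((((hρ2.differentiable (by norm_num)) p).hasFDerivAt).const_mul lam).exp
    rw [h1.fderiv]
    exact smul_ne_zero (Real.exp_pos _).ne' (smul_ne_zero hlam.ne' hd)
  have hσlt : ∀ x, σ x < 1 ↔ ρ x < 0 := by
    intro x
    rw [hσdef]
    show Real.exp (lam * ρ x) < 1 ↔ ρ x < 0
    rw [Real.exp_lt_one_iff]
    constructor
    · intro h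
      by_contra hcon
      have := mul_nonneg hlam.le (not_lt.1 hcon)
      linarith
    · intro h
      exact mul_neg_of_pos_of_neg hlam h
  obtain ⟨Θ, T, U, V, L, hU, hV, hpU, h0V, hΘp, hT0, hΘd, hTa, hΘm, hTm, hTΘ, hΘT, hD1, hinj, hD2⟩ :=
    crd2 hσ2 hσd
  -- the hermitian form
  have hsymB : ∀ u w, fderiv ℝ (fderiv ℝ σ) p u w = fderiv ℝ (fderiv ℝ σ) p w u := by
    have := (hσ2.contDiffAt (x := p)).isSymmSndFDerivAt (by simp)
    exact fun u w => this u w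
  have hLI : ∀ x : ℂ × ℂ, L (Complex.I • x) = Complex.I • L x := fun x => L.map_smul _ _
  have hII : ∀ x : ℂ × ℂ, Complex.I • Complex.I • x = -x := fun x => by
    rw [smul_smul, Complex.I_mul_I, neg_one_smul]
  have hCa : ∀ u w, (fderiv ℝ (fderiv ℝ σ) p - (2 : ℝ) • G7b2_C (fderiv ℝ (fderiv ℝ σ) p)) u w =
      (1 / 2) * (fderiv ℝ (fderiv ℝ σ) p u w +
        fderiv ℝ (fderiv ℝ σ) p (Complex.I • u) (Complex.I • w)) := by
    intro u w
    simp only [_root_.sub_apply, _root_.smul_apply, G7b2_C_apply, smul_eq_mul]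
    ring
  obtain ⟨H, hH⟩ : ∃ H, H = fderiv ℝ (fderiv ℝ (fun x => σ (T x))) (0, 0) := ⟨_, rfl⟩
  have hHf : ∀ x y, H x y = (1 / 2) * (fderiv ℝ (fderiv ℝ σ) p (L x) (L y) +
        fderiv ℝ (fderiv ℝ σ) p (Complex.I • L x) (Complex.I • L y)) := by
    intro x y
    rw [hH, hD2, hCa]
  have hHs : ∀ x y, H x y = H y x := by
    intro x y
    rw [hHf, hHf, hsymB (L x) (L y), hsymB (Complex.I • L x) (Complex.I • L y)]
  have hHJ : ∀ x y, H (Complex.I • x) (Complex.I • y) = H x y := by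
    intro x y
    rw [hHf, hHf, hLI, hLI, hII, hII]
    simp only [map_neg, neg_apply, neg_neg]
    ring
  have hHp : ∀ x : ℂ × ℂ, x ≠ 0 → 0 < H x x := by
    intro x hx
    rw [hH, hD2, G7b2_lv]
    exact half_pos (hlv _ (hinj x hx))
  obtain ⟨c, s, b, hc, hs, hlin⟩ := lin_alg H hHs hHJ hHp
  have hcc : (c : ℂ) ≠ 0 := by exact_mod_cast hc.ne'
  have hsc : (s : ℂ) ≠ 0 := by exact_mod_cast hs.ne'
  obtain ⟨S, hS⟩ : ∃ S : ℂ × ℂ →L[ℂ] ℂ × ℂ, ∀ y, S y = ((c : ℂ) * y.1, (c : ℂ) * b * y.1 + (s : ℂ) * y.2) :=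
    ⟨((c : ℂ) • ContinuousLinearMap.fst ℂ ℂ ℂ).prod
      (((c : ℂ) * b) • ContinuousLinearMap.fst ℂ ℂ ℂ + (s : ℂ) • ContinuousLinearMap.snd ℂ ℂ ℂ),
      fun y => rfl⟩
  obtain ⟨Si, hSi⟩ : ∃ Si : ℂ × ℂ →L[ℂ] ℂ × ℂ, ∀ y, Si y =
      ((c : ℂ)⁻¹ * y.1, (s : ℂ)⁻¹ * (y.2 - b * y.1)) :=
    ⟨((c : ℂ)⁻¹ • ContinuousLinearMap.fst ℂ ℂ ℂ).prod
      ((s : ℂ)⁻¹ • (ContinuousLinearMap.snd ℂ ℂ ℂ - b • ContinuousLinearMap.fst ℂ ℂ ℂ)),
      fun y => rfl⟩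
  have hSSi : ∀ y, S (Si y) = y := by
    intro y
    rw [hS, hSi]
    refine Prod.ext ?_ ?_
    · show (c : ℂ) * ((c : ℂ)⁻¹ * y.1) = y.1
      field_simp
    · show (c : ℂ) * b * ((c : ℂ)⁻¹ * y.1) + (s : ℂ) * ((s : ℂ)⁻¹ * (y.2 - b * y.1)) = y.2
      field_simp
      ring
  have hSiS : ∀ y, Si (S y) = y := by
    intro y
    rw [hS, hSi]
    refine Prod.ext ?_ ?_
    · show (c : ℂ)⁻¹ * ((c : ℂ) * y.1) = y.1
      field_simp
    · show (s : ℂ)⁻¹ * ((c : ℂ) * b * y.1 + (s : ℂ) * y.2 - b * ((c : ℂ) * y.1)) = y.2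
      field_simp
      ring
  obtain ⟨SR, hSR⟩ : ∃ SR : ℂ × ℂ →L[ℝ] ℂ × ℂ, SR = S.restrictScalars ℝ := ⟨_, rfl⟩
  have hSRa : ∀ y, SR y = S y := fun y => by rw [hSR]; rfl
  set q : ℂ × ℂ := (1, 0) with hq
  have hA0 : SR (q - q) = (0, 0) := by rw [sub_self, map_zero]; rfl
  have hTk : ∀ x ∈ V, ContDiffAt ℝ 2 T x := fun x hx =>
    ((hTa x hx).contDiffAt (n := 2)).restrict_scalars ℝ
  have hσT : ContDiffAt ℝ 2 (fun x => σ (T x)) (SR (q - q)) := by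
    rw [hA0]
    exact (hσ2.contDiffAt).comp _ (hTk _ h0V)
  -- the function `G`
  obtain ⟨G, hG⟩ : ∃ G : ℂ × ℂ → ℝ, G = fun x => c⁻¹ * (σ (T (SR (x - q))) - 1) := ⟨_, rfl⟩
  have hjet := jet2 (f := fun x => σ (T x)) (q := q) (a := q) (S := SR) (c := c⁻¹) (d := 1) hσT
  rw [hA0] at hjet
  have hGe : (fun x => c⁻¹ * ((fun x => σ (T x)) (SR (x - q)) - 1)) = G := by rw [hG]
  rw [hGe] at hjet
  have hWo : IsOpen ((fun x => SR (x - q)) ⁻¹' V) :=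
    hV.preimage (SR.continuous.comp (continuous_id.sub continuous_const))
  have hqW : q ∈ (fun x => SR (x - q)) ⁻¹' V := by
    show SR (q - q) ∈ V
    rw [hA0]
    exact h0V
  have hGk : ∀ x ∈ (fun x => SR (x - q)) ⁻¹' V, ContDiffAt ℝ 2 G x := by
    intro x hx
    rw [hG]
    have h1 : ContDiffAt ℝ 2 (fun x => SR (x - q)) x :=
      (SR.contDiff.comp (contDiff_id.sub contDiff_const)).contDiffAt
    have h2 : ContDiffAt ℝ 2 (fun x => T (SR (x - q))) x := (hTk _ hx).comp x h1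
    have h3 : ContDiffAt ℝ 2 (fun x => σ (T (SR (x - q)))) x := (hσ2.contDiffAt).comp x h2
    exact contDiffAt_const.mul (h3.sub contDiffAt_const)
  have hG2 : ContDiffAt ℝ 2 G q := hGk q hqW
  have hm2 : ContDiffAt ℝ 2 mB q := (mB_contDiff 2).contDiffAt
  have hsub := sub2 hG2 hm2
  have hg0 : G q - mB q = 0 := by
    rw [hG]
    show c⁻¹ * (σ (T (SR (q - q))) - 1) - mB q = 0
    rw [hA0, hT0, hσp, hq]
    simp [mB]
  have hg1 : fderiv ℝ (fun x => G x - mB x) q = 0 := by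
    refine ContinuousLinearMap.ext fun v => ?_
    rw [hsub.1, hjet.1, hD1, mB_fderiv, dm_apply, hSRa, hS, hq]
    show c⁻¹ * (2 * ((c : ℂ) * v.1).re) - _ = (0 : ℝ)
    rw [Complex.re_ofReal_mul]
    simp only [map_one, one_mul, map_zero, zero_mul, Complex.zero_re, mul_zero, add_zero]
    field_simp
    ring
  have hg2 : fderiv ℝ (fderiv ℝ (fun x => G x - mB x)) q = 0 := by
    refine ContinuousLinearMap.ext fun v => ContinuousLinearMap.ext fun w => ?_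
    rw [hsub.2, hjet.2, mB_fderiv2, dmL_apply, ← hH, hSRa, hSRa, hS, hS, hlin]
    show c⁻¹ * (c * dm v w) - dm v w = (0 : ℝ)
    field_simp
    ring
  have hAφ : ∀ z, SR (q + Si (Θ z) - q) = Θ z := by
    intro z
    rw [add_sub_cancel_left, hSRa, hSSi]
  have hφp : q + Si (Θ p) = q := by
    rw [hΘp, show ((0 : ℂ), (0 : ℂ)) = 0 from rfl, map_zero, add_zero]
  refine ⟨fun z => q + Si (Θ z), fun x => T (SR (x - q)), U, (fun x => SR (x - q)) ⁻¹' V, G, hU, hWo,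
    hpU, hφp, ?_, ?_, ?_, ?_, ?_, ?_, ?_, ?_⟩
  · have h1 : DifferentiableOn ℂ (fun z => Si (Θ z)) U := Si.differentiable.comp_differentiableOn hΘd
    exact h1.const_add q
  · intro x hx
    have h1 : SR (x - q) ∈ V := hx
    have h2 : DifferentiableAt ℂ T (S (x - q)) := by
      rw [← hSRa]
      exact (hTa _ h1).differentiableAt
    have h3 : DifferentiableAt ℂ (fun x => S (x - q)) x :=
      S.differentiableAt.comp x (differentiableAt_id.sub_const q)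
    have h4 : (fun x => T (SR (x - q))) = fun x => T (S (x - q)) := by
      funext y
      rw [hSRa]
    rw [h4]
    exact (h2.comp x h3).differentiableWithinAt
  · intro z hz
    show SR (q + Si (Θ z) - q) ∈ V
    rw [hAφ]
    exact hΘm hz
  · intro x hx
    exact hTm hx
  · intro z hz
    show T (SR (q + Si (Θ z) - q)) = z
    rw [hAφ, hTΘ z hz]
  · intro x hx
    have h1 : SR (x - q) ∈ V := hx
    show q + Si (Θ (T (SR (x - q)))) = x
    rw [hΘT _ h1, hSRa, hSiS, add_sub_cancel]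
  · intro z hz
    show ρ z < 0 ↔ G (q + Si (Θ z)) < 0
    have h1 : G (q + Si (Θ z)) = c⁻¹ * (σ z - 1) := by
      rw [hG]
      show c⁻¹ * (σ (T (SR (q + Si (Θ z) - q))) - 1) = _
      rw [hAφ, hTΘ z hz]
    rw [h1, ← hσlt]
    have hci : 0 < c⁻¹ := inv_pos.2 hc
    constructor
    · intro h1
      exact mul_neg_of_pos_of_neg hci (by linarith)
    · intro h1
      by_contra hcon
      have := mul_nonneg hci.le (sub_nonneg.2 (not_lt.1 hcon))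
      linarith
  · intro η hη
    exact taylor2 (g := fun x => G x - mB x) (hG2.sub hm2) hg0 hg1 hg2 hη

theorem lip {f : ℂ × ℂ → ℂ × ℂ} {U : Set (ℂ × ℂ)} (hU : IsOpen U) (hf : DifferentiableOn ℂ f U)
    {q : ℂ × ℂ} (hq : q ∈ U) : ∃ L t : ℝ, 0 < L ∧ 0 < t ∧ ball q t ⊆ U ∧
      ∀ x ∈ ball q t, ∀ y ∈ ball q t, ‖f x - f y‖ ≤ L * ‖x - y‖ := by
  have hc : ContinuousAt f q := hf.continuousOn.continuousAt (hU.mem_nhds hq)
  have h1 : ∀ᶠ x in 𝓝 q, f x ∈ ball (f q) 1 := hc (ball_mem_nhds _ one_pos)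
  obtain ⟨t, ht, hb⟩ := Metric.eventually_nhds_iff_ball.1 (h1.and (hU.eventually_mem hq))
  refine ⟨4 / t, t / 4, by positivity, by positivity, fun x hx =>
    (hb x (ball_subset_ball (by linarith) hx)).2, fun x hx y hy => ?_⟩
  have hxq : dist x q < t / 4 := hx
  have hyq : dist y q < t / 4 := hy
  have hsub : ball x (t / 2) ⊆ ball q t := fun z hz => by
    have h2 : dist z x < t / 2 := hz
    have h3 := dist_triangle z x q
    show dist z q < t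
    linarith
  have h4 : DifferentiableOn ℂ f (ball x (t / 2)) := hf.mono fun z hz => (hb z (hsub hz)).2
  have h5 : MapsTo f (ball x (t / 2)) (closedBall (f x) 2) := by
    intro z hz
    have h6 : dist (f z) (f q) < 1 := (hb z (hsub hz)).1
    have h7 : dist (f x) (f q) < 1 := (hb x (hsub (mem_ball_self (by positivity)))).1
    have h8 := dist_triangle_right (f z) (f x) (f q)
    show dist (f z) (f x) ≤ 2
    linarith
  have hyx : y ∈ ball x (t / 2) := by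
    have h3 := dist_triangle_right y x q
    show dist y x < t / 2
    linarith
  have h9 := Complex.dist_le_div_mul_dist_of_mapsTo_ball h4 h5 hyx
  rw [← dist_eq_norm, ← dist_eq_norm, dist_comm (f x), dist_comm x]
  refine h9.trans (le_of_eq ?_)
  field_simp
  ring

/-- the points near `p` whose distance to `D` is less than `κ |z - p|²` -/
def Touching (D : Set (ℂ × ℂ)) (p : ℂ × ℂ) (r κ : ℝ) : Set (ℂ × ℂ) :=
  {z | z ∈ ball p r ∧ ∃ w ∈ D, ‖z - w‖ < κ * ‖z - p‖ ^ 2}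

/-- **Local theorem at an arbitrary boundary point.** -/
theorem near_gen {ρ : ℂ × ℂ → ℝ} (hρ : NF ρ) {p : ℂ × ℂ} (hp : ρ p = 0) {I : Type} {N : ℕ}
    {r κ δ : ℝ} (hr : 0 < r) (hκ : 0 < κ) (hδ : 0 < δ) {F : I → Fin N → ℂ × ℂ → ℂ}
    (hF : ∀ i j, HBd (Touching {x | ρ x < 0} p r κ) 1 (F i j))
    (hlow : ∀ i, ∀ x ∈ {x | ρ x < 0} ∩ ball p r, δ ≤ ∑ j, ‖F i j x‖) :
    ∃ s : ℝ, 0 < s ∧ Solv ({x | ρ x < 0} ∩ ball p s) F := by
  obtain ⟨φ, ψ, U, V, G, hU, hV, hpU, hφp, hφ, hψ, hm, hm', hψφ, hφψ, hG, hT⟩ :=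
    to_ball2 hρ.smooth hp (hρ.nd p hp) (fun v hv hdd => hρ.levi p hp v hv hdd)
  set q : ℂ × ℂ := (1, 0) with hq
  have hqV : q ∈ V := by rw [← hφp]; exact hm hpU
  have hψq : ψ q = p := by rw [← hφp]; exact hψφ p hpU
  obtain ⟨L, t1, hL, ht1, ht1V, hLip⟩ := lip hV hψ hqV
  obtain ⟨L', t2, hL', ht2, ht2U, hLip'⟩ := lip hU hφ hpU
  -- neighbourhoods in `V`
  have hψc : ContinuousAt ψ q := hψ.continuousOn.continuousAt (hV.mem_nhds hqV)
  have hn1 : ∀ᶠ x in 𝓝 q, ψ x ∈ ball p (min r t2) := by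
    have := hψc.preimage_mem_nhds (t := ball p (min r t2))
      (by rw [hψq]; exact ball_mem_nhds p (lt_min hr ht2))
    exact this
  obtain ⟨t3, ht3, hb3⟩ := Metric.eventually_nhds_iff_ball.1 (hn1.and (hV.eventually_mem hqV))
  -- the set `E`
  obtain ⟨E, hE⟩ : ∃ E : Set (ℂ × ℂ), E = {x | x ∈ V ∧ G x < 0} := ⟨_, rfl⟩
  have hEx : ∀ x ∈ V, (x ∈ E ↔ ρ (ψ x) < 0) := by
    intro x hx
    rw [hG _ (hm' hx), hφψ x hx, hE]
    exact ⟨fun h => h.2, fun h => ⟨hx, h⟩⟩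
  have hE1 : ∀ η : ℝ, 0 < η → ∃ t : ℝ, 0 < t ∧ (∀ x ∈ ball ((1 : ℂ), (0 : ℂ)) t,
      mB x < -η * n2 x → x ∈ E) ∧ E ∩ ball ((1 : ℂ), (0 : ℂ)) t ⊆ TB η := by
    intro η hη
    obtain ⟨t, ht, hb⟩ := Metric.eventually_nhds_iff_ball.1 ((hT η hη).and (hV.eventually_mem hqV))
    refine ⟨t, ht, fun x hx hm => ?_, ?_⟩
    · have h1 := (abs_le.1 (hb x hx).1).2
      have h2 := le_n2 x
      rw [hE]
      refine ⟨(hb x hx).2, ?_⟩
      nlinarith [mul_le_mul_of_nonneg_left h2 hη.le]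
    · rintro x ⟨hx, hxt⟩
      have h1 := (abs_le.1 (hb x hxt).1).1
      have h2 := le_n2 x
      rw [hE] at hx
      show mB x < η * n2 x
      nlinarith [mul_le_mul_of_nonneg_left h2 hη.le, hx.2]
  -- the constant
  obtain ⟨κ', hκ'⟩ : ∃ κ' : ℝ, κ' = min (1 / 2) (κ / (24 * L * L' ^ 2)) := ⟨_, rfl⟩
  have hκ0 : 0 < κ' := by rw [hκ']; positivity
  have hκ1 : κ' ≤ 1 / 2 := by rw [hκ']; exact min_le_left _ _
  have hκ2 : 24 * L * L' ^ 2 * κ' ≤ κ := by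
    have h1 : κ' ≤ κ / (24 * L * L' ^ 2) := by rw [hκ']; exact min_le_right _ _
    rw [le_div_iff₀ (by positivity)] at h1
    linarith
  obtain ⟨t4, ht4, hE4, -⟩ := hE1 κ' hκ0
  obtain ⟨t, ht⟩ : ∃ t : ℝ, t = min (min (t1 / 2) (t3 / 2)) (min (t4 / 2) (1 / 48)) := ⟨_, rfl⟩
  have htp : 0 < t := by rw [ht]; positivity
  have htt1 : t ≤ t1 / 2 := by rw [ht]; exact (min_le_left _ _).trans (min_le_left _ _)
  have htt3 : t ≤ t3 / 2 := by rw [ht]; exact (min_le_left _ _).trans (min_le_right _ _)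
  have htt4 : t ≤ t4 / 2 := by rw [ht]; exact (min_le_right _ _).trans (min_le_left _ _)
  have htt5 : t ≤ 1 / 48 := by rw [ht]; exact (min_le_right _ _).trans (min_le_right _ _)
  have hmap : ∀ x ∈ TB κ' ∩ ball q t, ψ x ∈ Touching {x | ρ x < 0} p r κ := by
    rintro x ⟨hx, hxt⟩
    have hxn : ‖x - (1, 0)‖ < t := mem_ball_iff_norm.1 hxt
    obtain ⟨hs1, hs2⟩ := shrink hκ0 (by linarith) hx (hxn.le.trans htt5)
    obtain ⟨y, hy⟩ : ∃ y, y = sh (3 * κ' * n2 x) x := ⟨_, rfl⟩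
    rw [← hy] at hs1 hs2
    have hn1 := n2_le x
    have h0 : 0 ≤ ‖x - ((1 : ℂ), (0 : ℂ))‖ := norm_nonneg _
    have hxy : ‖x - y‖ ≤ 12 * κ' * ‖x - (1, 0)‖ ^ 2 := by nlinarith
    have hxy' : ‖x - y‖ ≤ ‖x - (1, 0)‖ := by nlinarith
    have hyt : ‖y - (1, 0)‖ < 2 * t := by
      have h1 : ‖y - (1, 0)‖ ≤ ‖x - (1, 0)‖ + ‖x - y‖ := by
        have := norm_sub_le (x - (1, 0)) (x - y)
        rwa [sub_sub_sub_cancel_left] at this
      linarith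
    have hyE : y ∈ E := hE4 y (by rw [mem_ball_iff_norm]; linarith) hs1
    have hyV : y ∈ V := (hb3 y (by rw [mem_ball_iff_norm]; linarith)).2
    have hyD : ρ (ψ y) < 0 := (hEx y hyV).1 hyE
    have hx3 : x ∈ ball q t3 := ball_subset_ball (by linarith) hxt
    have hxV : x ∈ V := (hb3 x hx3).2
    have hxp : ψ x ∈ ball p (min r t2) := (hb3 x hx3).1
    refine ⟨ball_subset_ball (min_le_left _ _) hxp, ψ y, hyD, ?_⟩
    have h1 := hLip x (ball_subset_ball (by linarith) hxt) y (by rw [mem_ball_iff_norm]; linarith)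
    have h2 := hLip' (ψ x) (ball_subset_ball (min_le_right _ _) hxp) p (mem_ball_self ht2)
    rw [hφψ x hxV, hφp] at h2
    have hne : 0 < ‖x - ((1 : ℂ), (0 : ℂ))‖ := by
      rw [norm_pos_iff, sub_ne_zero]
      rintro rfl
      have h4 : mB ((1 : ℂ), (0 : ℂ)) < κ' * n2 ((1 : ℂ), (0 : ℂ)) := hx
      simp [mB, n2] at h4
    have h3 : ‖x - (1, 0)‖ ^ 2 ≤ L' ^ 2 * ‖ψ x - p‖ ^ 2 := by
      rw [← mul_pow]
      exact pow_le_pow_left₀ h0 h2 2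
    have hψp : 0 < ‖ψ x - p‖ := by
      rcases (norm_nonneg (ψ x - p)).lt_or_eq with h5 | h5
      · exact h5
      · rw [← h5] at h2
        linarith
    have h6 : L * ‖x - y‖ ≤ L * (12 * κ' * (L' ^ 2 * ‖ψ x - p‖ ^ 2)) :=
      mul_le_mul_of_nonneg_left (hxy.trans (mul_le_mul_of_nonneg_left h3 (by positivity))) hL.le
    have h7 : L * (12 * κ' * (L' ^ 2 * ‖ψ x - p‖ ^ 2)) = (24 * L * L' ^ 2 * κ') / 2 * ‖ψ x - p‖ ^ 2 := by
      ring
    have h8 : (24 * L * L' ^ 2 * κ') / 2 * ‖ψ x - p‖ ^ 2 < κ * ‖ψ x - p‖ ^ 2 :=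
      mul_lt_mul_of_pos_right (by linarith) (by positivity)
    linarith
  have hmapD : ∀ x ∈ E ∩ ball q t, ψ x ∈ {x | ρ x < 0} ∩ ball p r := by
    rintro x ⟨hx, hxt⟩
    have hx3 : x ∈ ball q t3 := ball_subset_ball (by linarith) hxt
    exact ⟨(hEx x (hb3 x hx3).2).1 hx, ball_subset_ball (min_le_left _ _) (hb3 x hx3).1⟩
  have hψd : DifferentiableOn ℂ ψ (TB κ' ∩ ball q t) := hψ.mono fun x hx =>
    (hb3 x (ball_subset_ball (by linarith) hx.2)).2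
  obtain ⟨s, hs, C, hC⟩ := near_osc (F := fun i j x => F i j (ψ x)) htp hκ0 (by linarith) hδ hE1
    (fun i j => ⟨(hF i j).1.comp hψd hmap, fun x hx => (hF i j).2 _ (hmap x hx)⟩)
    (fun i x hx => hlow i _ (hmapD x hx))
  -- back to `D`
  have hφc : ContinuousAt φ p := hφ.continuousOn.continuousAt (hU.mem_nhds hpU)
  have hn2 : ∀ᶠ z in 𝓝 p, φ z ∈ ball q s := by
    have := hφc.preimage_mem_nhds (t := ball q s) (by rw [hφp]; exact ball_mem_nhds q hs)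
    exact this
  obtain ⟨u, hu, hub⟩ := Metric.eventually_nhds_iff_ball.1 (hn2.and (hU.eventually_mem hpU))
  have hback : ∀ z ∈ {x | ρ x < 0} ∩ ball p u, φ z ∈ E ∩ ball q s := by
    rintro z ⟨hz, hzu⟩
    have hzU := (hub z hzu).2
    refine ⟨?_, (hub z hzu).1⟩
    rw [hEx _ (hm hzU), hψφ z hzU]
    exact hz
  refine ⟨u, hu, C, fun i => ?_⟩
  obtain ⟨g, hg, he⟩ := hC i
  refine ⟨fun j z => g j (φ z), fun j => ⟨(hg j).1.comp (hφ.mono fun z hz => (hub z hz.2).2) hback,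
    fun z hz => (hg j).2 _ (hback z hz)⟩, fun z hz => ?_⟩
  have h1 := he _ (hback z hz)
  simp only [hψφ z (hub z hz.2).2] at h1
  exact h1

end Pool.Agent.H191.Corona
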