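import Pool.Agent.H191.Corona.TouC

/-!
Local solutions at a spherical boundary point for data with one arbitrary function, and local solutions
for data of which a subfamily is good.
-/

set_option autoImplicit false

open Metric Set Filter Topology Complex

namespace Pool.Agent.H191.Corona

open Pool.Agent.P157G (HBd NF)

/-- at a spherical point one function is arbitrary -/
theorem near_sph {D : Set (ℂ × ℂ)} {p : ℂ × ℂ} (hg : GEq D p B2 (1, 0)) {I : Type} {N : ℕ}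
    (j₀ : Fin N) {r κ δ : ℝ} (hr : 0 < r) (hκ : 0 < κ) (hδ : 0 < δ) {F : I → Fin N → ℂ × ℂ → ℂ}
    (hF : ∀ i j, HBd (D ∩ ball p r) 1 (F i j))
    (hlow : ∀ i, ∀ x ∈ D ∩ ball p r, δ ≤ ∑ j, ‖F i j x‖)
    (hext : ∀ i j, j ≠ j₀ → ∃ h, HBd (Touching D p r κ) 1 h ∧ ∀ x ∈ D ∩ ball p r, F i j x = h x) :
    ∃ s : ℝ, 0 < s ∧ Solv (D ∩ ball p s) F := by
  obtain ⟨φ, ψ, U, V, hU, hV, hpU, hφp, hφ, hψ, hm, hm', hψφ, hφψ, hDD⟩ := hg
  set q : ℂ × ℂ := (1, 0) with hq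
  have hqV : q ∈ V := by rw [← hφp]; exact hm hpU
  have hψq : ψ q = p := by rw [← hφp]; exact hψφ p hpU
  obtain ⟨L, t1, hL, ht1, ht1V, hLip⟩ := lip hV hψ hqV
  obtain ⟨L', t2, hL', ht2, ht2U, hLip'⟩ := lip hU hφ hpU
  have hψc : ContinuousAt ψ q := hψ.continuousOn.continuousAt (hV.mem_nhds hqV)
  have hn1 : ∀ᶠ x in 𝓝 q, ψ x ∈ ball p (min r t2) := by
    have := hψc.preimage_mem_nhds (t := ball p (min r t2))
      (by rw [hψq]; exact ball_mem_nhds p (lt_min hr ht2))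
    exact this
  obtain ⟨t3, ht3, hb3⟩ := Metric.eventually_nhds_iff_ball.1 (hn1.and (hV.eventually_mem hqV))
  have hEx : ∀ x ∈ V, (x ∈ B2 ↔ ψ x ∈ D) := by
    intro x hx
    rw [hDD _ (hm' hx), hφψ x hx]
  -- the constant
  obtain ⟨κ', hκ'⟩ : ∃ κ' : ℝ, κ' = min (1 / 2) (κ / (24 * L * L' ^ 2)) := ⟨_, rfl⟩
  have hκ0 : 0 < κ' := by rw [hκ']; positivity
  have hκ1 : κ' ≤ 1 / 2 := by rw [hκ']; exact min_le_left _ _
  have hκ2 : 24 * L * L' ^ 2 * κ' ≤ κ := by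
    have h1 : κ' ≤ κ / (24 * L * L' ^ 2) := by rw [hκ']; exact min_le_right _ _
    rw [le_div_iff₀ (by positivity)] at h1
    linarith
  obtain ⟨t, ht⟩ : ∃ t : ℝ, t = min (min (t1 / 2) (t3 / 2)) (1 / 48) := ⟨_, rfl⟩
  have htp : 0 < t := by rw [ht]; positivity
  have htt1 : t ≤ t1 / 2 := by rw [ht]; exact (min_le_left _ _).trans (min_le_left _ _)
  have htt3 : t ≤ t3 / 2 := by rw [ht]; exact (min_le_left _ _).trans (min_le_right _ _)
  have htt5 : t ≤ 1 / 48 := by rw [ht]; exact min_le_right _ _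
  have hmap : ∀ x ∈ El κ' ∩ ball q t, ψ x ∈ Touching D p r κ := by
    rintro x ⟨hx', hxt⟩
    have hx : x ∈ TB κ' := by
      have h1 : mB x < κ' * ‖x.2‖ ^ 2 := hx'
      have h2 : κ' * ‖x.2‖ ^ 2 ≤ κ' * n2 x := by
        refine mul_le_mul_of_nonneg_left ?_ hκ0.le
        have := sq_nonneg ‖x.1 - 1‖
        unfold n2
        linarith
      exact h1.trans_le h2
    have hxn : ‖x - (1, 0)‖ < t := mem_ball_iff_norm.1 hxt
    obtain ⟨hs1, hs2⟩ := shrink hκ0 (by linarith) hx (hxn.le.trans htt5)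
    obtain ⟨y, hy⟩ : ∃ y, y = sh (3 * κ' * n2 x) x := ⟨_, rfl⟩
    rw [← hy] at hs1 hs2
    have hn1 := n2_le x
    have h0 : 0 ≤ ‖x - ((1 : ℂ), (0 : ℂ))‖ := norm_nonneg _
    have hxy : ‖x - y‖ ≤ 12 * κ' * ‖x - (1, 0)‖ ^ 2 := by nlinarith
    have hxy' : ‖x - y‖ ≤ ‖x - (1, 0)‖ := by nlinarith
    have hyt : ‖y - (1, 0)‖ < 2 * t := by
      have h1 : ‖y - (1, 0)‖ ≤ ‖x - (1, 0)‖ + ‖x - y‖ := by
        have := norm_sub_le (x - (1, 0)) (x - y)
        rwa [sub_sub_sub_cancel_left] at this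
      linarith
    have hyB : y ∈ B2 := by
      have h1 := n2_nonneg y
      show mB y < 0
      nlinarith
    have hyV : y ∈ V := (hb3 y (by rw [mem_ball_iff_norm]; linarith)).2
    have hyD : ψ y ∈ D := (hEx y hyV).1 hyB
    have hx3 : x ∈ ball q t3 := ball_subset_ball (by linarith) hxt
    have hxV : x ∈ V := (hb3 x hx3).2
    have hxp : ψ x ∈ ball p (min r t2) := (hb3 x hx3).1
    refine ⟨ball_subset_ball (min_le_left _ _) hxp, ψ y, hyD, ?_⟩
    have h1 := hLip x (ball_subset_ball (by linarith) hxt) y (by rw [mem_ball_iff_norm]; linarith)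
    have h2 := hLip' (ψ x) (ball_subset_ball (min_le_right _ _) hxp) p (mem_ball_self ht2)
    rw [hφψ x hxV, hφp] at h2
    have hne : 0 < ‖x - ((1 : ℂ), (0 : ℂ))‖ := by
      rw [norm_pos_iff, sub_ne_zero]
      rintro rfl
      have h4 : mB ((1 : ℂ), (0 : ℂ)) < κ' * n2 ((1 : ℂ), (0 : ℂ)) := hx
      simp [mB, n2] at h4
    have h3 : ‖x - (1, 0)‖ ^ 2 ≤ L' ^ 2 * ‖ψ x - p‖ ^ 2 := by
      rw [← mul_pow]
      exact pow_le_pow_left₀ h0 h2 2
    have hψp : 0 < ‖ψ x - p‖ := by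
      rcases (norm_nonneg (ψ x - p)).lt_or_eq with h5 | h5
      · exact h5
      · rw [← h5] at h2
        linarith
    have h6 : L * ‖x - y‖ ≤ L * (12 * κ' * (L' ^ 2 * ‖ψ x - p‖ ^ 2)) :=
      mul_le_mul_of_nonneg_left (hxy.trans (mul_le_mul_of_nonneg_left h3 (by positivity))) hL.le
    have h7 : L * (12 * κ' * (L' ^ 2 * ‖ψ x - p‖ ^ 2)) = (24 * L * L' ^ 2 * κ') / 2 * ‖ψ x - p‖ ^ 2 := by
      ring
    have h8 : (24 * L * L' ^ 2 * κ') / 2 * ‖ψ x - p‖ ^ 2 < κ * ‖ψ x - p‖ ^ 2 :=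
      mul_lt_mul_of_pos_right (by linarith) (by positivity)
    linarith
  have hmapD : ∀ x ∈ B2 ∩ ball q t, ψ x ∈ D ∩ ball p r := by
    rintro x ⟨hx, hxt⟩
    have hx3 : x ∈ ball q t3 := ball_subset_ball (by linarith) hxt
    exact ⟨(hEx x (hb3 x hx3).2).1 hx, ball_subset_ball (min_le_left _ _) (hb3 x hx3).1⟩
  have hVt : ball q t ⊆ V := fun x hx => (hb3 x (ball_subset_ball (by linarith) hx)).2
  obtain ⟨s, hs, C, hC⟩ := near_ball (F := fun i j x => F i j (ψ x)) j₀ htp hκ0 hδ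
    (fun i j => ⟨(hF i j).1.comp (hψ.mono fun x hx => hVt hx.2) hmapD,
      fun x hx => (hF i j).2 _ (hmapD x hx)⟩)
    (fun i x hx => hlow i _ (hmapD x hx))
    (fun i j hj => by
      obtain ⟨h, h1, h2⟩ := hext i j hj
      exact ⟨fun x => h (ψ x), ⟨h1.1.comp (hψ.mono fun x hx => hVt hx.2) hmap,
        fun x hx => h1.2 _ (hmap x hx)⟩, fun x hx => h2 _ (hmapD x hx)⟩)
  -- back to `D`
  have hφc : ContinuousAt φ p := hφ.continuousOn.continuousAt (hU.mem_nhds hpU)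
  have hn2 : ∀ᶠ z in 𝓝 p, φ z ∈ ball q s := by
    have := hφc.preimage_mem_nhds (t := ball q s) (by rw [hφp]; exact ball_mem_nhds q hs)
    exact this
  obtain ⟨u, hu, hub⟩ := Metric.eventually_nhds_iff_ball.1 (hn2.and (hU.eventually_mem hpU))
  have hback : ∀ z ∈ D ∩ ball p u, φ z ∈ B2 ∩ ball q s := by
    rintro z ⟨hz, hzu⟩
    have hzU := (hub z hzu).2
    exact ⟨(hDD z hzU).1 hz, (hub z hzu).1⟩
  refine ⟨u, hu, C, fun i => ?_⟩
  obtain ⟨g, hg, he⟩ := hC i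
  refine ⟨fun j z => g j (φ z), fun j => ⟨(hg j).1.comp (hφ.mono fun z hz => (hub z hz.2).2) hback,
    fun z hz => (hg j).2 _ (hback z hz)⟩, fun z hz => ?_⟩
  have h1 := he _ (hback z hz)
  simp only [hψφ z (hub z hz.2).2] at h1
  exact h1

/-- the functions with index in `S \ T` extend to a set which touches `D` at `p`; `T` is empty, or it has
one element and `S = T` or `D` is spherical at `p` -/
def Good {I : Type} {N : ℕ} (D : Set (ℂ × ℂ)) (F : I → Fin N → ℂ × ℂ → ℂ) (p : ℂ × ℂ) : Prop :=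
  ∃ (S T : Finset (Fin N)) (r κ c M : ℝ), 0 < r ∧ 0 < κ ∧ 0 < c ∧
    (T = ∅ ∨ T.card = 1 ∧ (S = T ∨ GEq D p B2 (1, 0))) ∧
    (∀ i, ∀ z ∈ D ∩ ball p r, c ≤ ∑ j ∈ S, ‖F i j z‖) ∧
    ∀ i, ∀ j ∈ S \ T, ∃ h, HBd (Touching D p r κ) M h ∧ ∀ z ∈ D ∩ ball p r, F i j z = h z

theorem sub_touching {D : Set (ℂ × ℂ)} {p : ℂ × ℂ} (hp : p ∉ D) {r κ : ℝ} (hκ : 0 < κ) :
    D ∩ ball p r ⊆ Touching D p r κ := by
  rintro z ⟨hz, hzr⟩
  refine ⟨hzr, z, hz, ?_⟩
  have hne : z - p ≠ 0 := by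
    rw [sub_ne_zero]
    rintro rfl
    exact hp hz
  have h1 : 0 < ‖z - p‖ := norm_pos_iff.2 hne
  rw [sub_self, norm_zero]
  positivity

theorem good_loc {ρ : ℂ × ℂ → ℝ} (hρ : NF ρ) {p : ℂ × ℂ} (hp : ρ p = 0) {I : Type} {N : ℕ}
    {F : I → Fin N → ℂ × ℂ → ℂ} (hF : ∀ i j, HBd {x | ρ x < 0} 1 (F i j))
    (hg : Good {x | ρ x < 0} F p) : ∃ s : ℝ, 0 < s ∧ Solv ({x | ρ x < 0} ∩ ball p s) F := by
  classical
  obtain ⟨S, T, r, κ, c, M, hr, hκ, hc, hT, hlow, hext⟩ := hg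
  obtain ⟨D, hD⟩ : ∃ D, D = {x | ρ x < 0} := ⟨_, rfl⟩
  rw [← hD] at hF hT hlow hext ⊢
  have hpD : p ∉ D := by rw [hD]; exact fun h => (ne_of_lt h) hp
  obtain ⟨K, hK⟩ : ∃ K : ℝ, K = max M 1 := ⟨_, rfl⟩
  have hK1 : 1 ≤ K := by rw [hK]; exact le_max_right _ _
  have hKM : M ≤ K := by rw [hK]; exact le_max_left _ _
  have hK0 : 0 < K := by linarith
  have hKn : ∀ w : ℂ, ‖(K : ℂ)⁻¹ * w‖ = K⁻¹ * ‖w‖ := fun w => by
    rw [norm_mul, norm_inv, Complex.norm_real, Real.norm_of_nonneg hK0.le]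
  have hb : ∀ w : ℂ, ‖w‖ ≤ K → ‖(K : ℂ)⁻¹ * w‖ ≤ 1 := fun w hw => by
    rw [hKn, inv_mul_le_iff₀ hK0, mul_one]; exact hw
  -- the scaled family
  obtain ⟨G, hG⟩ : ∃ G : I → Fin N → ℂ × ℂ → ℂ, G = fun i j z =>
    if j ∈ S then (K : ℂ)⁻¹ * F i j z else 0 := ⟨_, rfl⟩
  have hG1 : ∀ i, ∀ j ∈ S, ∀ z, G i j z = (K : ℂ)⁻¹ * F i j z := fun i j hj z => by
    rw [hG]; exact if_pos hj
  have hG2 : ∀ i, ∀ j ∉ S, ∀ z, G i j z = 0 := fun i j hj z => by
    rw [hG]; exact if_neg hj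
  have hGsum : ∀ i z, ∑ j, ‖G i j z‖ = K⁻¹ * ∑ j ∈ S, ‖F i j z‖ := by
    intro i z
    rw [Finset.mul_sum, ← Finset.sum_subset (Finset.subset_univ S)
      (fun j _ hj => by rw [hG2 i j hj, norm_zero])]
    exact Finset.sum_congr rfl fun j hj => by rw [hG1 i j hj, hKn]
  have hGlow : ∀ i, ∀ z ∈ D ∩ ball p r, K⁻¹ * c ≤ ∑ j, ‖G i j z‖ := fun i z hz => by
    rw [hGsum]
    exact mul_le_mul_of_nonneg_left (hlow i z hz) (by positivity)
  have hGext : ∀ i j, j ∉ T → ∃ h, HBd (Touching D p r κ) 1 h ∧ ∀ z ∈ D ∩ ball p r, G i j z = h z := by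
    intro i j hjT
    by_cases hj : j ∈ S
    · obtain ⟨h, h1, h2⟩ := hext i j (Finset.mem_sdiff.2 ⟨hj, hjT⟩)
      exact ⟨fun z => (K : ℂ)⁻¹ * h z, ⟨h1.1.const_mul _, fun z hz => hb _ ((h1.2 z hz).trans hKM)⟩,
        fun z hz => by rw [hG1 i j hj, h2 z hz]⟩
    · exact ⟨fun _ => 0, ⟨differentiableOn_const _, fun z _ => by simp⟩, fun z _ => hG2 i j hj z⟩
  -- from solutions for `G` to solutions for `F`
  suffices hs : ∃ s : ℝ, 0 < s ∧ Solv (D ∩ ball p s) G by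
    obtain ⟨s, hs, C, hC⟩ := hs
    refine ⟨s, hs, |C|, fun i => ?_⟩
    obtain ⟨g, hg, he⟩ := hC i
    refine ⟨fun j z => if j ∈ S then (K : ℂ)⁻¹ * g j z else 0, fun j => ?_, fun z hz => ?_⟩
    · by_cases hj : j ∈ S
      · simp only [if_pos hj]
        refine ⟨(hg j).1.const_mul _, fun z hz => ?_⟩
        rw [hKn]
        have h1 := (hg j).2 z hz
        have h2 : K⁻¹ ≤ 1 := inv_le_one_of_one_le₀ hK1
        have h3 := le_abs_self C
        have h4 := norm_nonneg (g j z)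
        have h5 : 0 < K⁻¹ := inv_pos.2 hK0
        nlinarith
      · simp only [if_neg hj]
        exact ⟨differentiableOn_const _, fun z _ => by simp⟩
    · rw [← he z hz]
      refine Finset.sum_congr rfl fun j _ => ?_
      by_cases hj : j ∈ S
      · simp only [if_pos hj, hG1 i j hj]
        ring
      · simp only [if_neg hj, hG2 i j hj]
        ring
  rcases hT with hT | ⟨hT, hST | hsph⟩
  · subst hT
    choose h h1 h2 using fun i j => hGext i j (Finset.notMem_empty j)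
    have h3 := near_gen hρ hp hr hκ (δ := K⁻¹ * c) (by positivity) (F := h)
      (by rw [← hD]; exact h1)
      (by
        rw [← hD]
        intro i z hz
        refine (hGlow i z hz).trans (le_of_eq (Finset.sum_congr rfl fun j _ => ?_))
        rw [h2 i j z hz])
    rw [← hD] at h3
    obtain ⟨s, hs, C, hC⟩ := h3
    refine ⟨min s r, lt_min hs hr, C, fun i => ?_⟩
    obtain ⟨g, hg, he⟩ := hC i
    refine ⟨g, fun j => ⟨(hg j).1.mono (inter_subset_inter_right _ (ball_subset_ball (min_le_left _ _))),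
      fun z hz => (hg j).2 z ⟨hz.1, ball_subset_ball (min_le_left _ _) hz.2⟩⟩, fun z hz => ?_⟩
    rw [← he z ⟨hz.1, ball_subset_ball (min_le_left _ _) hz.2⟩]
    refine Finset.sum_congr rfl fun j _ => ?_
    rw [h2 i j z ⟨hz.1, ball_subset_ball (min_le_right _ _) hz.2⟩]
  · obtain ⟨j₀, rfl⟩ := Finset.card_eq_one.1 hT
    have hj0 : j₀ ∈ S := by rw [hST]; exact Finset.mem_singleton_self _
    have hlo : ∀ i, ∀ z ∈ D ∩ ball p r, K⁻¹ * c ≤ ‖G i j₀ z‖ := fun i z hz => by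
      have h1 := hlow i z hz
      rw [hST, Finset.sum_singleton] at h1
      rw [hG1 i j₀ hj0, hKn]
      exact mul_le_mul_of_nonneg_left h1 (by positivity)
    have hKc : 0 < K⁻¹ * c := by positivity
    refine ⟨r, hr, (K⁻¹ * c)⁻¹, fun i => ⟨fun j z => if j = j₀ then (G i j₀ z)⁻¹ else 0, fun j => ?_,
      fun z hz => ?_⟩⟩
    · by_cases hj : j = j₀
      · simp only [if_pos hj]
        refine ⟨DifferentiableOn.inv ?_ fun z hz h0 => ?_, fun z hz => ?_⟩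
        · exact (((hF i j₀).1.mono inter_subset_left).const_mul _).congr fun z _ => hG1 i j₀ hj0 z
        · have h1 := hlo i z hz
          rw [h0, norm_zero] at h1
          linarith
        · rw [norm_inv]
          exact inv_anti₀ hKc (hlo i z hz)
      · simp only [if_neg hj]
        refine ⟨differentiableOn_const _, fun z _ => ?_⟩
        rw [norm_zero]
        positivity
    · rw [Finset.sum_eq_single j₀ (fun j _ hj => by simp [hj]) (fun h => absurd (Finset.mem_univ _) h)]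
      simp only [if_true]
      refine mul_inv_cancel₀ fun h0 => ?_
      have h1 := hlo i z hz
      rw [h0, norm_zero] at h1
      linarith
  · obtain ⟨j₀, rfl⟩ := Finset.card_eq_one.1 hT
    refine near_sph hsph j₀ hr hκ (δ := K⁻¹ * c) (by positivity) (fun i j => ?_) hGlow
      (fun i j hj => hGext i j (by rwa [Finset.mem_singleton]))
    by_cases hj : j ∈ S
    · refine ⟨(((hF i j).1.mono inter_subset_left).const_mul _).congr fun z _ => hG1 i j hj z,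
        fun z hz => ?_⟩
      rw [hG1 i j hj]
      exact hb _ (((hF i j).2 z hz.1).trans hK1)
    · refine ⟨(differentiableOn_const (0 : ℂ)).congr fun z _ => hG2 i j hj z, fun z _ => ?_⟩
      rw [hG2 i j hj, norm_zero]
      exact zero_le_one

/-- good data have bounded solutions -/
theorem good_glob {ρ : ℂ × ℂ → ℝ} (hρ : NF ρ) {I : Type} {N : ℕ} {F : I → Fin N → ℂ × ℂ → ℂ}
    {δ : ℝ} (hδ : 0 < δ) (hF : Dat {x | ρ x < 0} δ F)
    (hg : ∀ p ∈ frontier {x | ρ x < 0}, Good {x | ρ x < 0} F p) : Solv {x | ρ x < 0} F := by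
  refine glueB hρ (fun i j => (hF i).1 j) hδ (fun i x hx => (hF i).2 x hx) (fun p hp => ?_)
  have hp0 : ρ p = 0 := frontier_lt_subset_eq hρ.smooth.continuous continuous_const hp
  obtain ⟨s, hs, C, hC⟩ := good_loc hρ hp0 (fun i j => (hF i).1 j) (hg p hp)
  exact ⟨C, s, hs, hC⟩

end Pool.Agent.H191.Corona
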