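import Pool.Agent.H191.Corona.Near
import Pool.Graph.R_seed8.Results.MP_ca0fc2_an.OneDomain

/-!
Transfer of the library theorem `OneDomain` (single data to uniform constants on the ball) to the
notation of this folder.
-/

set_option autoImplicit false

open Metric Set Filter Topology Complex

namespace Pool.Agent.H191.Corona

open Pool.Agent.Results.MP_ca0fc2_an.OneDomain (V Datum C2At Supp)

/-- `ℂ × ℂ` and the Euclidean space -/
noncomputable def eL : (ℂ × ℂ) ≃ₗ[ℂ] V 2 where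
  toFun z := !₂[z.1, z.2]
  invFun v := (v 0, v 1)
  map_add' x y := by ext i; fin_cases i <;> simp
  map_smul' c x := by ext i; fin_cases i <;> simp
  left_inv x := by simp
  right_inv v := by ext i; fin_cases i <;> simp

/-- the same as a continuous map -/
noncomputable def eC : (ℂ × ℂ) ≃L[ℂ] V 2 := eL.toContinuousLinearEquiv

theorem eC_norm (z : ℂ × ℂ) : ‖eC z‖ ^ 2 = ‖z.1‖ ^ 2 + ‖z.2‖ ^ 2 := by
  rw [EuclideanSpace.norm_sq_eq, Fin.sum_univ_two]
  rfl

theorem eC_ball (z : ℂ × ℂ) : eC z ∈ ball (0 : V 2) 1 ↔ z ∈ B2 := by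
  rw [mem_ball_zero_iff]
  show ‖eC z‖ < 1 ↔ ‖z.1‖ ^ 2 + ‖z.2‖ ^ 2 - 1 < 0
  rw [← eC_norm]
  constructor
  · intro h
    nlinarith [norm_nonneg (eC z)]
  · intro h
    nlinarith [norm_nonneg (eC z)]

theorem eCs_ball {v : V 2} (hv : v ∈ ball (0 : V 2) 1) : eC.symm v ∈ B2 := by
  rw [← eC_ball, ContinuousLinearEquiv.apply_symm_apply]
  exact hv

/-- the uniform corona theorem on the ball of the Euclidean space -/
def UnifV : Prop := ∀ (N : ℕ) (δ : ℝ), 0 < δ → ∃ C : ℝ, ∀ f : Fin N → V 2 → ℂ,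
  Datum N δ (ball 0 1) f → ∃ g : Fin N → V 2 → ℂ, (∀ i, DifferentiableOn ℂ (g i) (ball 0 1)) ∧
    (∀ i, ∀ z ∈ ball (0 : V 2) 1, ‖g i z‖ ≤ C) ∧ ∀ z ∈ ball (0 : V 2) 1, ∑ i, f i z * g i z = 1

open Pool.Agent.P157G (HBd NF)

theorem unif_cor (h : UnifV) (I : Type) : Cor I B2 := by
  intro N δ F hδ hF
  obtain ⟨C, hC⟩ := h N δ hδ
  refine ⟨C, fun i => ?_⟩
  obtain ⟨g, hg1, hg2, hg3⟩ := hC (fun j v => F i j (eC.symm v))
    ⟨fun j => ((hF i).1 j).1.comp eC.symm.differentiable.differentiableOn fun v hv => eCs_ball hv,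
      fun j v hv => ((hF i).1 j).2 _ (eCs_ball hv), fun v hv => (hF i).2 _ (eCs_ball hv)⟩
  refine ⟨fun j z => g j (eC z), fun j => ⟨(hg1 j).comp eC.differentiable.differentiableOn
    fun z hz => (eC_ball z).2 hz, fun z hz => hg2 j _ ((eC_ball z).2 hz)⟩, fun z hz => ?_⟩
  have h1 := hg3 _ ((eC_ball z).2 hz)
  simpa using h1

/-- the local corona theorem for single data at one boundary point of the ball implies the uniform one -/
theorem unif_of_local (h : LCor Unit B2 (1, 0)) : UnifV := by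
  intro N δ hδ
  have hp1 : ‖eC (1, 0)‖ = 1 := by
    have h1 := eC_norm (1, 0)
    simp only [norm_one, norm_zero] at h1
    nlinarith [norm_nonneg (eC ((1 : ℂ), (0 : ℂ)))]
  have hp0 : eC ((1 : ℂ), (0 : ℂ)) ≠ 0 := by
    intro h0
    rw [h0, norm_zero] at hp1
    exact zero_ne_one hp1
  have hcl : eC (1, 0) ∈ closure (ball (0 : V 2) 1) := by
    rw [closure_ball _ one_ne_zero, mem_closedBall_zero_iff, hp1]
  have h2 : C2At (ball (0 : V 2) 1) (eC (1, 0)) := by
    refine ⟨fun v => ‖v‖ ^ 2 - 1, ((contDiff_id.norm_sq ℝ).sub contDiff_const).contDiffAt, ?_, ?_⟩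
    · have h1 : HasFDerivAt (fun v : V 2 => ‖v‖ ^ 2 - 1) (2 • (innerSL ℝ (eC (1, 0)))) (eC (1, 0)) :=
        (hasStrictFDerivAt_norm_sq (eC (1, 0))).hasFDerivAt.sub_const 1
      rw [h1.fderiv]
      intro h3
      have h4 := congrArg (fun L : V 2 →L[ℝ] ℝ => L (eC (1, 0))) h3
      simp only [smul_apply, innerSL_apply_apply, real_inner_self_eq_norm_sq, hp1, zero_apply] at h4
      norm_num at h4
    · refine Eventually.of_forall fun v => ?_
      rw [mem_ball_zero_iff]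
      constructor
      · intro h3
        nlinarith [norm_nonneg v]
      · intro h3
        nlinarith [norm_nonneg v]
  have hs : Supp (ball (0 : V 2) 1) (eC (1, 0)) :=
    Pool.Agent.Results.MP_ca0fc2_an.OneDomain.Supp.of_farthest _ 0 _
      (by rw [sub_zero, hp1]) hp0
  obtain ⟨F, ψ, hF, -, -, -, hlast⟩ := Pool.Agent.Results.MP_ca0fc2_an.OneDomain.result 2 N δ hδ
    (ball 0 1) (eC (1, 0)) isOpen_ball hcl h2 hs
  refine hlast ?_
  obtain ⟨s, hs0, C, hC⟩ := h (N + 1) (min (1 / 2) (δ / 8)) 1 (fun _ j z => F j (eC z))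
    (lt_min (by norm_num) (by positivity)) one_pos (fun _ => ⟨fun j =>
      ⟨(hF.hol j).comp eC.differentiable.differentiableOn fun z hz => (eC_ball z).2 hz.1,
        fun z hz => hF.bd j _ ((eC_ball z).2 hz.1)⟩, fun z hz => hF.low _ ((eC_ball z).2 hz.1)⟩)
  obtain ⟨g, hg, he⟩ := hC ()
  refine ⟨eC.symm ⁻¹' ball (1, 0) s, ?_, fun j v => g j (eC.symm v), fun j => ?_, ⟨C, fun j v hv => ?_⟩,
    1, one_pos, fun v hv => ?_⟩
  · refine eC.symm.continuous.continuousAt.preimage_mem_nhds ?_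
    rw [ContinuousLinearEquiv.symm_apply_apply]
    exact ball_mem_nhds _ hs0
  · exact (hg j).1.comp eC.symm.differentiable.differentiableOn fun v hv => ⟨eCs_ball hv.1, hv.2⟩
  · exact (hg j).2 _ ⟨eCs_ball hv.1, hv.2⟩
  · have h5 := he (eC.symm v) ⟨eCs_ball hv.1, hv.2⟩
    simp only [ContinuousLinearEquiv.apply_symm_apply] at h5
    rw [h5, norm_one]

/-- one domain -/
theorem unif_of_one {ρ : ℂ × ℂ → ℝ} (hρ : NF ρ) (hne : {x | ρ x < 0}.Nonempty) :
    ∃ p ∈ frontier {x | ρ x < 0},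
      (∀ (N : ℕ) (δ : ℝ) (F : Fin N → ℂ × ℂ → ℂ), 0 < δ → (∀ j, HBd {x | ρ x < 0} 1 (F j)) →
        (∀ j, ContinuousOn (F j) (closure {x | ρ x < 0} \ {p})) →
        (∀ z ∈ {x | ρ x < 0}, δ ≤ ∑ j, ‖F j z‖) → ∃ (C : ℝ) (g : Fin N → ℂ × ℂ → ℂ),
          (∀ j, HBd {x | ρ x < 0} C (g j)) ∧ ∀ z ∈ {x | ρ x < 0}, ∑ j, F j z * g j z = 1) →
      UnifV := by
  have ho : IsOpen {x | ρ x < 0} := isOpen_lt hρ.smooth.continuous continuous_const
  set D := {x : ℂ × ℂ | ρ x < 0} with hD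
  set D' : Set (V 2) := eC '' D with hD'
  have hmem : ∀ v, v ∈ D' ↔ eC.symm v ∈ D := by
    intro v
    constructor
    · rintro ⟨z, hz, rfl⟩
      rw [ContinuousLinearEquiv.symm_apply_apply]
      exact hz
    · intro h
      exact ⟨_, h, ContinuousLinearEquiv.apply_symm_apply _ _⟩
  have ho' : IsOpen D' := by
    have h1 : D' = eC.symm ⁻¹' D := by ext v; exact hmem v
    rw [h1]
    exact ho.preimage eC.symm.continuous
  have hb' : Bornology.IsBounded D' := by
    have h1 : Bornology.IsBounded D := hρ.bdd.subset fun x (hx : ρ x < 0) => hx.le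
    exact eC.lipschitz.isBounded_image h1
  have hfr : frontier D' = eC '' frontier D := (eC.toHomeomorph.image_frontier D).symm
  have hcl : closure D' = eC '' closure D := (eC.toHomeomorph.image_closure D).symm
  have h2 : ∀ p ∈ frontier D', C2At D' p := by
    intro p hp
    rw [hfr] at hp
    obtain ⟨z, hz, rfl⟩ := hp
    have hz0 : ρ z = 0 := frontier_lt_subset_eq hρ.smooth.continuous continuous_const hz
    have hsR : HasFDerivAt (fun v : V 2 => eC.symm v)
        ((eC.symm : V 2 →L[ℂ] ℂ × ℂ).restrictScalars ℝ) (eC z) :=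
      ((eC.symm : V 2 →L[ℂ] ℂ × ℂ).restrictScalars ℝ).hasFDerivAt
    refine ⟨fun v => ρ (eC.symm v), ?_, ?_, ?_⟩
    · exact (hρ.smooth.comp ((eC.symm : V 2 →L[ℂ] ℂ × ℂ).restrictScalars ℝ).contDiff).contDiffAt
    · have h3 : HasFDerivAt ρ (fderiv ℝ ρ z) (eC.symm (eC z)) := by
        rw [ContinuousLinearEquiv.symm_apply_apply]
        exact ((hρ.smooth.differentiable (by norm_num)) z).hasFDerivAt
      have h4 := h3.comp (eC z) hsR
      have h5 : fderiv ℝ (fun v => ρ (eC.symm v)) (eC z) =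
          (fderiv ℝ ρ z).comp ((eC.symm : V 2 →L[ℂ] ℂ × ℂ).restrictScalars ℝ) := h4.fderiv
      rw [h5]
      intro h6
      refine hρ.nd z hz0 (ContinuousLinearMap.ext fun u => ?_)
      have h7 := congrArg (fun L : V 2 →L[ℝ] ℝ => L (eC u)) h6
      have h8 : fderiv ℝ ρ z (eC.symm (eC u)) = 0 := h7
      rw [ContinuousLinearEquiv.symm_apply_apply] at h8
      exact h8
    · exact Eventually.of_forall fun v => hmem v
  obtain ⟨p, hp, h3⟩ := Pool.Agent.Results.MP_ca0fc2_an.OneDomain.one_domain 2 (by norm_num) D' ho' hb'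
    (hne.image _) h2
  rw [hfr] at hp
  obtain ⟨z, hz, rfl⟩ := hp
  refine ⟨z, hz, fun hsol N δ hδ => ?_⟩
  refine h3 (fun N δ F hδ hF hc => ?_) N δ hδ
  have hDm : ∀ x ∈ D, eC x ∈ D' := fun x hx => ⟨x, hx, rfl⟩
  obtain ⟨C, g, hg, he⟩ := hsol N δ (fun j x => F j (eC x)) hδ
    (fun j => ⟨(hF.hol j).comp eC.differentiable.differentiableOn hDm, fun x hx => hF.bd j _ (hDm x hx)⟩)
    (fun j => (hc j).comp eC.continuous.continuousOn fun x hx =>
      ⟨by rw [hcl]; exact ⟨x, hx.1, rfl⟩, fun h4 => hx.2 (eC.injective h4)⟩)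
    (fun x hx => hF.low _ (hDm x hx))
  refine ⟨fun j v => g j (eC.symm v), fun j => (hg j).1.comp eC.symm.differentiable.differentiableOn
    fun v hv => (hmem v).1 hv, ⟨C, fun j v hv => (hg j).2 _ ((hmem v).1 hv)⟩, fun v hv => ?_⟩
  have h5 := he _ ((hmem v).1 hv)
  simp only [ContinuousLinearEquiv.apply_symm_apply] at h5
  exact h5

end Pool.Agent.H191.Corona
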